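import Pool.Agent.H1R3.Z.Energy2
set_option autoImplicit false
open MeasureTheory Set Filter Topology Complex

namespace H1R3.Z

theorem J_zero_of_small (F : LF) (s : ℝ) (h : ∀ θ : ℝ, ‖F.g (s + θ * I)‖ ≤ 1) : F.J s = 0 := by
  rw [F.J_eq]
  have : ∀ θ : ℝ, KK (F.u (s + θ * I)) * (F.p (s + θ * I)).re = 0 := by
    intro θ
    simp only [LF.u]
    rw [KK_zero (Real.log_nonpos (norm_nonneg _) (h θ)), zero_mul]
  simp only [this]
  simp

theorem exists_big (F : LF) (s : ℝ) (h : 0 < F.J s) : ∃ θ : ℝ, 1 < ‖F.g (s + θ * I)‖ := by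
  by_contra hcon
  push Not at hcon
  rw [J_zero_of_small F s hcon] at h
  exact lt_irrefl _ h

theorem m_pos (F : LF) (s θ₀ : ℝ) (h0 : ‖F.g (s + θ₀ * I)‖ ≤ 1) (h : 0 < F.J s) :
    0 < F.m s := by
  have h1 := F.J_le s θ₀ h0
  by_contra hcon
  push Not at hcon
  have h2 : F.m s = 0 := le_antisymm hcon (F.m_nonneg s)
  rw [h2] at h1
  simp at h1
  linarith

theorem q_ge (F : LF) (s θ₀ : ℝ) (h0 : ‖F.g (s + θ₀ * I)‖ ≤ 1) (h : 0 < F.J s) :
    2 * Real.pi / F.m s ≤ F.En s / F.J s := by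
  have h1 := F.J_le s θ₀ h0
  have h2 := m_pos F s θ₀ h0 h
  rw [div_le_div_iff₀ h2 h]
  have h3 : F.m s / (2 * Real.pi) * F.En s = F.m s * F.En s / (2 * Real.pi) := by ring
  rw [h3, le_div_iff₀ (by positivity)] at h1
  linarith

theorem m_add (F1 F2 : LF) (hd : ∀ ζ, 1 < ‖F1.g ζ‖ → ‖F2.g ζ‖ ≤ 1) (s : ℝ) :
    F1.m s + F2.m s ≤ 2 * Real.pi := by
  unfold LF.m
  rw [← intervalIntegral.integral_add (ind_int (F1.f_cont s) _ _) (ind_int (F2.f_cont s) _ _)]
  have h1 : (∫ θ in (0:ℝ)..2 * Real.pi, (ind (F1.f s) θ + ind (F2.f s) θ)) ≤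
      ∫ θ in (0:ℝ)..2 * Real.pi, (1:ℝ) := by
    apply intervalIntegral.integral_mono_on LF.two_pi_pos'
    · exact (ind_int (F1.f_cont s) _ _).add (ind_int (F2.f_cont s) _ _)
    · exact intervalIntegrable_const
    · intro θ _
      by_cases h : F1.f s θ = 0
      · have : ind (F1.f s) θ = 0 := by
          unfold ind; rw [Set.indicator_of_notMem]; simp [h]
        rw [this, zero_add]
        exact ind_le_one _ _
      · have h2 : F2.f s θ = 0 := by
          have h3 : 0 < F1.u (s + θ * I) := chi_ne_zero.1 h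
          have h4 : 1 < ‖F1.g (s + θ * I)‖ := by
            by_contra hc
            push Not at hc
            have := Real.log_nonpos (norm_nonneg _) hc
            simp only [LF.u] at h3
            linarith
          exact chi_zero (Real.log_nonpos (norm_nonneg _) (hd _ h4))
        have : ind (F2.f s) θ = 0 := by
          unfold ind; rw [Set.indicator_of_notMem]; simp [h2]
        rw [this, add_zero]
        exact ind_le_one _ _
  simpa using h1

theorem q_sum (F1 F2 : LF) (hd : ∀ ζ, 1 < ‖F1.g ζ‖ → ‖F2.g ζ‖ ≤ 1) (s : ℝ)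
    (h1 : 0 < F1.J s) (h2 : 0 < F2.J s) :
    4 ≤ F1.En s / F1.J s + F2.En s / F2.J s := by
  obtain ⟨θ1, ht1⟩ := exists_big F1 s h1
  obtain ⟨θ2, ht2⟩ := exists_big F2 s h2
  have ha : ‖F2.g (s + θ1 * I)‖ ≤ 1 := hd _ ht1
  have hb : ‖F1.g (s + θ2 * I)‖ ≤ 1 := by
    by_contra hc
    push Not at hc
    have := hd _ hc
    linarith
  have q1 := q_ge F1 s θ2 hb h1
  have q2 := q_ge F2 s θ1 ha h2
  have m1 := m_pos F1 s θ2 hb h1
  have m2 := m_pos F2 s θ1 ha h2
  have hm := m_add F1 F2 hd s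
  have hp := Real.pi_pos
  have h3 : 4 ≤ 2 * Real.pi / F1.m s + 2 * Real.pi / F2.m s := by
    rw [div_add_div _ _ m1.ne' m2.ne', le_div_iff₀ (mul_pos m1 m2)]
    nlinarith [sq_nonneg (F1.m s - F2.m s), mul_pos m1 m2]
  linarith

theorem acf (F1 F2 : LF) (hd : ∀ ζ, 1 < ‖F1.g ζ‖ → ‖F2.g ζ‖ ≤ 1) (s₀ C : ℝ)
    (h1 : 0 < F1.J s₀) (h2 : 0 < F2.J s₀)
    (hC1 : ∀ s, s₀ ≤ s → F1.J s ≤ C * Real.exp (2 * s))
    (hC2 : ∀ s, s₀ ≤ s → F2.J s ≤ C * Real.exp (2 * s)) :
    ∃ C' : ℝ, 0 ≤ C' ∧ ∀ (T : Set ℝ) (S : ℝ), MeasurableSet T → T ⊆ Icc s₀ S →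
      ∫ s in T, Real.exp (-(2 * s)) * F1.En s ≤ C' * (1 + volume.real T) := by
  have hJ1 : ∀ s, s₀ ≤ s → 0 < F1.J s := fun s hs => h1.trans_le (F1.J_mono hs)
  have hJ2 : ∀ s, s₀ ≤ s → 0 < F2.J s := fun s hs => h2.trans_le (F2.J_mono hs)
  have hCpos : 0 < C := by
    have := (hJ1 s₀ le_rfl).trans_le (hC1 s₀ le_rfl)
    exact pos_of_mul_pos_left this (Real.exp_pos _).le
  set D : ℝ → ℝ := fun s => F1.En s / F1.J s + F2.En s / F2.J s - 4 with hD
  have hD0 : ∀ s, s₀ ≤ s → 0 ≤ D s := fun s hs => by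
    have := q_sum F1 F2 hd s (hJ1 s hs) (hJ2 s hs)
    simp only [hD]; linarith
  set H : ℝ → ℝ := fun s => Real.log (F1.J s) + Real.log (F2.J s) - 4 * s with hH
  have hHd : ∀ s, s₀ ≤ s → HasDerivAt H (D s) s := by
    intro s hs
    have a1 := (F1.J_deriv s).log (hJ1 s hs).ne'
    have a2 := (F2.J_deriv s).log (hJ2 s hs).ne'
    have a3 := (hasDerivAt_id s).const_mul 4
    have := (a1.add a2).sub a3
    refine this.congr_deriv ?_
    simp [hD]
  have hDc : ∀ S, ContinuousOn D (Icc s₀ S) := by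
    intro S s hs
    apply ContinuousAt.continuousWithinAt
    apply ContinuousAt.sub _ continuousAt_const
    exact (F1.En_cont.continuousAt.div F1.J_cont.continuousAt (hJ1 s hs.1).ne').add
      (F2.En_cont.continuousAt.div F2.J_cont.continuousAt (hJ2 s hs.1).ne')
  set M : ℝ := max 0 (2 * Real.log C - H s₀) with hM
  have hint : ∀ S, s₀ ≤ S → ∫ s in Icc s₀ S, D s ≤ M := by
    intro S hS
    rw [integral_Icc_eq_integral_Ioc, ← intervalIntegral.integral_of_le hS]
    have e := intervalIntegral.integral_eq_sub_of_hasDerivAt (f := H) (f' := D) (a := s₀) (b := S)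
      (fun s hs => by rw [uIcc_of_le hS] at hs; exact hHd s hs.1)
      (by
        apply ContinuousOn.intervalIntegrable
        rw [uIcc_of_le hS]; exact hDc S)
    rw [e]
    have l1 : Real.log (F1.J S) ≤ Real.log C + 2 * S := by
      have := Real.log_le_log (hJ1 S hS) (hC1 S hS)
      rwa [Real.log_mul hCpos.ne' (Real.exp_pos _).ne', Real.log_exp] at this
    have l2 : Real.log (F2.J S) ≤ Real.log C + 2 * S := by
      have := Real.log_le_log (hJ2 S hS) (hC2 S hS)
      rwa [Real.log_mul hCpos.ne' (Real.exp_pos _).ne', Real.log_exp] at this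
    have : H S - H s₀ ≤ 2 * Real.log C - H s₀ := by
      simp only [hH]; linarith
    exact this.trans (le_max_right _ _)
  have hM0 : 0 ≤ M := le_max_left _ _
  refine ⟨C * (4 + M), by positivity, ?_⟩
  intro T S hT hTS
  by_cases hne : T = ∅
  · rw [hne]; simp; positivity
  obtain ⟨t₀, ht₀⟩ := nonempty_iff_ne_empty.2 hne
  have hS : s₀ ≤ S := (hTS ht₀).1.trans (hTS ht₀).2
  have hvol : volume T ≤ volume (Icc s₀ S) := measure_mono hTS
  have hvolf : volume T ≠ ⊤ := ne_top_of_le_ne_top (by simp) hvol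
  have hDi : IntegrableOn D (Icc s₀ S) := (hDc S).integrableOn_compact isCompact_Icc
  have hDiT : IntegrableOn D T := hDi.mono_set hTS
  have hci : IntegrableOn (fun _ : ℝ => (4:ℝ)) T := by
    rw [integrableOn_const_iff]
    right
    exact lt_top_iff_ne_top.2 hvolf
  have hle : ∀ s ∈ T, Real.exp (-(2 * s)) * F1.En s ≤ C * (4 + D s) := by
    intro s hs
    have hs0 := (hTS hs).1
    have hj1 := hJ1 s hs0
    have hj2 := hJ2 s hs0
    have hc1 := hC1 s hs0
    have e1 : Real.exp (-(2 * s)) * F1.J s ≤ C := by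
      calc Real.exp (-(2 * s)) * F1.J s ≤ Real.exp (-(2 * s)) * (C * Real.exp (2 * s)) :=
            mul_le_mul_of_nonneg_left hc1 (Real.exp_pos _).le
        _ = C := by rw [mul_left_comm, ← Real.exp_add]; simp
    have e2 : 0 ≤ F2.En s / F2.J s := div_nonneg (F2.En_nonneg s) hj2.le
    have e3 : 0 ≤ F1.En s / F1.J s := div_nonneg (F1.En_nonneg s) hj1.le
    calc Real.exp (-(2 * s)) * F1.En s = (Real.exp (-(2 * s)) * F1.J s) * (F1.En s / F1.J s) := by
          field_simp
      _ ≤ C * (F1.En s / F1.J s) := mul_le_mul_of_nonneg_right e1 e3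
      _ ≤ C * (4 + D s) := by
          apply mul_le_mul_of_nonneg_left _ hCpos.le
          simp only [hD]; linarith
  have hcE : Continuous fun s => Real.exp (-(2 * s)) * F1.En s := by
    have := F1.En_cont
    exact (Real.continuous_exp.comp (continuous_const.mul continuous_id).neg).mul this
  calc ∫ s in T, Real.exp (-(2 * s)) * F1.En s ≤ ∫ s in T, C * (4 + D s) := by
        apply setIntegral_mono_on _ _ hT hle
        · exact (hcE.continuousOn.integrableOn_compact isCompact_Icc).mono_set hTS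
        · exact (hci.add hDiT).const_mul C
    _ = C * (4 * volume.real T + ∫ s in T, D s) := by
        rw [integral_const_mul, integral_add hci hDiT]
        simp [mul_comm]
    _ ≤ C * (4 * volume.real T + M) := by
        apply mul_le_mul_of_nonneg_left _ hCpos.le
        have : ∫ s in T, D s ≤ ∫ s in Icc s₀ S, D s := by
          apply setIntegral_mono_set hDi _ (Eventually.of_forall hTS)
          exact (ae_restrict_iff' measurableSet_Icc).2 (Eventually.of_forall fun s hs => hD0 s hs.1)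
        linarith [hint S hS]
    _ ≤ C * (4 + M) * (1 + volume.real T) := by
        have hv : 0 ≤ volume.real T := measureReal_nonneg
        nlinarith [mul_nonneg hCpos.le hv, mul_nonneg (mul_nonneg hCpos.le hM0) hv, hCpos.le]

end H1R3.Z
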