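import Pool.Agent.H1R3.Z.Local
set_option autoImplicit false
open MeasureTheory Set Filter Topology Complex Metric

namespace H1R3.Z

theorem ge_const {f : ℝ → ℝ} (hf : Continuous f) (h0 : ∀ x, 0 ≤ f x) {c d c' d' k : ℝ}
    (hc : c ≤ c') (hcd : c' ≤ d') (hd : d' ≤ d) (hk : ∀ x ∈ Icc c' d', k ≤ f x) :
    k * (d' - c') ≤ ∫ x in Icc c d, f x := by
  have h1 : ∫ x in Icc c' d', k = k * (d' - c') := by
    rw [setIntegral_const]
    simp [hcd, mul_comm]
  rw [← h1]
  have hint : IntegrableOn f (Icc c d) := hf.continuousOn.integrableOn_compact isCompact_Icc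
  have hsub : Icc c' d' ⊆ Icc c d := Icc_subset_Icc hc hd
  calc ∫ x in Icc c' d', k ≤ ∫ x in Icc c' d', f x := by
        apply setIntegral_mono_on _ (hint.mono_set hsub) measurableSet_Icc hk
        rw [integrableOn_const_iff]; right; simp
    _ ≤ ∫ x in Icc c d, f x := by
        apply setIntegral_mono_set hint _ (Eventually.of_forall hsub)
        exact Eventually.of_forall h0

/-- angular side interval lower end -/
noncomputable def lo (l : ℂ) (b : ℝ) : ℝ := if arg l ≤ 0 then arg l else arg l - b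

theorem lo_cases (l : ℂ) (b : ℝ) (hb0 : 0 ≤ b) (hb : b ≤ 1 / 4) :
    -Real.pi ≤ lo l b ∧ lo l b + b ≤ Real.pi ∧
      ∀ θ ∈ Icc (lo l b) (lo l b + b), |θ - arg l| ≤ b := by
  have hp := Real.pi_gt_three
  have h1 := Complex.neg_pi_lt_arg l
  have h2 := Complex.arg_le_pi l
  unfold lo
  split_ifs with h
  · refine ⟨by linarith, by linarith, fun θ hθ => ?_⟩
    rw [abs_le]; constructor <;> linarith [hθ.1, hθ.2]
  · push Not at h
    refine ⟨by linarith, by linarith, fun θ hθ => ?_⟩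
    rw [abs_le]; constructor <;> linarith [hθ.1, hθ.2]

/-- the box attached to a zero -/
noncomputable def Qbox (l : ℂ) (a b : ℝ) : Set (ℝ × ℝ) :=
  Icc (Real.log ‖l‖ + a) (Real.log ‖l‖ + b) ×ˢ Icc (lo l b) (lo l b + b)

/-- weighted energy density -/
noncomputable def Phi (F : LF) (q : ℝ × ℝ) : ℝ := Real.exp (-(2 * q.1)) * F.en (q.1 + q.2 * I)

theorem Phi_cont (F : LF) : Continuous (Phi F) := by
  have h1 : Continuous fun q : ℝ × ℝ => F.en ((q.1 : ℂ) + (q.2 : ℂ) * I) :=
    F.en_cont.comp LF.pt_cont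
  have h2 : Continuous fun q : ℝ × ℝ => Real.exp (-(2 * q.1)) := by fun_prop
  exact h2.mul h1

theorem Phi_nonneg (F : LF) (q : ℝ × ℝ) : 0 ≤ Phi F q :=
  mul_nonneg (Real.exp_pos _).le (F.en_nonneg _)

theorem integral_inv_shift {L a b : ℝ} (ha : 0 < a) (hab : a ≤ b) :
    ∫ s in Icc (L + a) (L + b), 1 / (s - L) = Real.log (b / a) := by
  rw [integral_Icc_eq_integral_Ioc, ← intervalIntegral.integral_of_le (by linarith)]
  have h := intervalIntegral.integral_comp_sub_right (fun x : ℝ => 1 / x) (a := L + a) (b := L + b) L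
  rw [h]
  simp only [add_sub_cancel_left]
  rw [integral_one_div_of_pos ha (by linarith)]

theorem box_lower {G : ℂ → ℂ} (hG : Differentiable ℂ G) {l : ℂ} (hl : G l = 0) (hl0 : l ≠ 0)
    (hl' : deriv G l ≠ 0)
    {M : ℝ} (hM : 1 ≤ M) (hb : ∀ z, ‖z - l‖ ≤ 1 → ‖G z‖ ≤ M * ‖deriv G l‖) {a b : ℝ}
    (ha : 0 < a) (hab : a ≤ b) (hb4 : b ≤ 1 / 4) (hbM : 3 * ‖l‖ * b ≤ 1 / (16 * M))
    (haD : Real.exp 1 ≤ 3 / 8 * ‖deriv G l‖ * ‖l‖ * a) :
    Real.exp (-2) / 64 * (‖l‖ ^ 2)⁻¹ * Real.log (b / a) ≤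
      ∫ q in Qbox l a b, Phi (lift G hG) q := by
  set F := lift G hG with hF
  have hx : 0 < ‖l‖ := norm_pos_iff.2 hl0
  set L := Real.log ‖l‖ with hL
  have hint : IntegrableOn (Phi F) (Qbox l a b) (volume.prod volume) :=
    (Phi_cont F).continuousOn.integrableOn_compact (isCompact_Icc.prod isCompact_Icc)
  have e1 : ∫ q in Qbox l a b, Phi F q =
      ∫ s in Icc (L + a) (L + b), ∫ θ in Icc (lo l b) (lo l b + b), Phi F (s, θ) := by
    rw [Measure.volume_eq_prod]
    exact setIntegral_prod _ hint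
  rw [e1]
  have hinner : ∀ s ∈ Icc (L + a) (L + b), Real.exp (-2) / 64 * (‖l‖ ^ 2)⁻¹ * (1 / (s - L)) ≤
      ∫ θ in Icc (lo l b) (lo l b + b), Phi F (s, θ) := by
    intro s hs
    have hσa : a ≤ s - L := by linarith [hs.1]
    have hσb : s - L ≤ b := by linarith [hs.2]
    have hσ0 : 0 < s - L := by linarith
    have hcont : Continuous fun θ : ℝ => Phi F (s, θ) :=
      (Phi_cont F).comp (by fun_prop : Continuous fun θ : ℝ => (s, θ))
    -- sub-interval of length σ adjacent to arg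
    obtain ⟨c', hc1, hc2, hc3⟩ : ∃ c' : ℝ, lo l b ≤ c' ∧ c' + (s - L) ≤ lo l b + b ∧
        ∀ θ ∈ Icc c' (c' + (s - L)), |θ - arg l| ≤ s - L := by
      unfold lo
      split_ifs with h
      · exact ⟨arg l, le_rfl, by linarith, fun θ hθ => by
          rw [abs_le]; constructor <;> linarith [hθ.1, hθ.2]⟩
      · exact ⟨arg l - (s - L), by linarith, by linarith, fun θ hθ => by
          rw [abs_le]; constructor <;> linarith [hθ.1, hθ.2]⟩
    have hk : ∀ θ ∈ Icc c' (c' + (s - L)), Real.exp (-2) * (‖l‖ ^ 2)⁻¹ *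
        (1 / (64 * (s - L) ^ 2)) ≤ Phi F (s, θ) := by
      intro θ hθ
      have h1 := en_lower hG hl hl0 hl' hM hb ha hb4 hbM haD hσa hσb (hc3 θ hθ)
      have h2 : Real.exp (-2) * (‖l‖ ^ 2)⁻¹ ≤ Real.exp (-(2 * s)) := by
        have h3 : (‖l‖ ^ 2)⁻¹ = Real.exp (-(2 * L)) := by
          rw [Real.exp_neg, mul_comm, Real.exp_mul, hL, Real.exp_log hx]
          norm_num
        rw [h3, ← Real.exp_add]
        apply Real.exp_le_exp.2
        linarith
      exact mul_le_mul h2 h1 (by positivity) (Real.exp_pos _).le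
    have h3 := ge_const hcont (fun θ => Phi_nonneg F _) hc1 (by linarith : c' ≤ c' + (s - L)) hc2 hk
    refine le_trans (le_of_eq ?_) h3
    rw [add_sub_cancel_left]
    field_simp
  have hΨ : ContinuousOn (fun s => ∫ θ in Icc (lo l b) (lo l b + b), Phi F (s, θ))
      (Icc (L + a) (L + b)) := by
    have hlb : lo l b ≤ lo l b + b := by linarith
    have : (fun s => ∫ θ in Icc (lo l b) (lo l b + b), Phi F (s, θ)) =
        fun s => ∫ θ in (lo l b)..(lo l b + b), Phi F (s, θ) := by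
      funext s
      rw [integral_Icc_eq_integral_Ioc, ← intervalIntegral.integral_of_le hlb]
    rw [this]
    exact (intervalIntegral.continuous_parametric_intervalIntegral_of_continuous'
      (f := fun s θ : ℝ => Phi F (s, θ)) (Phi_cont F) _ _).continuousOn
  calc Real.exp (-2) / 64 * (‖l‖ ^ 2)⁻¹ * Real.log (b / a) =
        ∫ s in Icc (L + a) (L + b), Real.exp (-2) / 64 * (‖l‖ ^ 2)⁻¹ * (1 / (s - L)) := by
        rw [integral_const_mul, integral_inv_shift ha hab]
    _ ≤ _ := by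
        apply setIntegral_mono_on _ (hΨ.integrableOn_compact isCompact_Icc) measurableSet_Icc hinner
        apply ContinuousOn.integrableOn_compact isCompact_Icc
        apply continuousOn_const.mul
        refine ContinuousOn.div continuousOn_const (continuousOn_id.sub continuousOn_const) ?_
        intro s hs
        have h9 : 0 < s - L := by linarith [hs.1]
        exact h9.ne'

end H1R3.Z
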