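import Pool.Agent.H1R3.Z.Box
set_option autoImplicit false
open MeasureTheory Set Filter Topology Complex Metric

namespace H1R3.Z

theorem ev_exp {κ : ℝ} (hκ : 0 < κ) (c : ℝ) : ∀ᶠ x : ℝ in atTop, c ≤ Real.exp (κ * x) :=
  (Real.tendsto_exp_atTop.comp (tendsto_id.const_mul_atTop hκ)).eventually_ge_atTop c

theorem ev_lin {κ : ℝ} (hκ : 0 < κ) (c : ℝ) : ∀ᶠ x : ℝ in atTop, c * x ≤ Real.exp (κ * x) := by
  filter_upwards [eventually_ge_atTop (0:ℝ), eventually_ge_atTop (2 * |c| / κ ^ 2)] with x hx hx2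
  have h1 := Real.quadratic_le_exp_of_nonneg (x := κ * x) (by positivity)
  rw [div_le_iff₀ (by positivity)] at hx2
  have h2 : c * x ≤ |c| * x := mul_le_mul_of_nonneg_right (le_abs_self c) hx
  have h3 : 2 * |c| * x ≤ (x * κ ^ 2) * x := mul_le_mul_of_nonneg_right hx2 hx
  have h4 : 0 ≤ κ * x := by positivity
  nlinarith

/-- hypotheses on the function -/
structure Hyp (G : ℂ → ℂ) (A B c₁ Kb : ℝ) : Prop where
  et : ET G A B
  simple : ∀ z, G z = 0 → deriv G z ≠ 0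
  unb : ∀ C : ℝ, ∃ z, C < ‖G z‖
  c₁pos : 0 < c₁
  Kbpos : 0 < Kb
  big : ∀ l, G l = 0 → ‖deriv G l‖⁻¹ ≤ Kb * Real.exp (-(c₁ * ‖l‖))
  loc : ∀ ε : ℝ, 0 < ε → ∃ τ : ℝ, ∀ w : ℂ, G w = 0 → τ < ‖w‖ → ∀ z, ‖z - w‖ ≤ 1 →
      ‖G z‖ ≤ Real.exp (ε * ‖w‖) * ‖deriv G w‖

variable {G : ℂ → ℂ} {A B c₁ Kb : ℝ}

theorem Hyp.ne (h : Hyp G A B c₁ Kb) : ∃ a, G a ≠ 0 := by
  obtain ⟨z, hz⟩ := h.unb 0
  exact ⟨z, norm_pos_iff.1 hz⟩

theorem zeros_countable (hG : Differentiable ℂ G) (hs : ∀ z, G z = 0 → deriv G z ≠ 0) :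
    Countable {z : ℂ // G z = 0} := by
  have h1 : ({z : ℂ | G z = 0}).Countable := by
    have : {z : ℂ | G z = 0} = ⋃ n : ℕ, {z : ℂ | G z = 0 ∧ ‖z‖ < n} := by
      ext z
      simp only [mem_ofPred_eq, mem_iUnion]
      constructor
      · intro h
        obtain ⟨n, hn⟩ := exists_nat_gt ‖z‖
        exact ⟨n, h, hn⟩
      · rintro ⟨n, h, _⟩
        exact h
    rw [this]
    exact countable_iUnion fun n => (zeros_finite hG hs n).countable
  exact h1.to_subtype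

theorem good_circle (h : Hyp G A B c₁ Kb) (R : ℝ) :
    ∃ r, R < r ∧ 0 < r ∧ ∀ z, ‖z‖ = r → ∀ l, G l = 0 → rho c₁ l ≤ ‖z - l‖ := by
  obtain ⟨a, ha⟩ := h.ne
  have hc := h.c₁pos
  by_contra hcon
  push Not at hcon
  have := zeros_countable h.et.diff h.simple
  have hsub : Ioi (max R 0) ⊆ ⋃ l : {z : ℂ // G z = 0},
      Icc (‖(l:ℂ)‖ - rho c₁ l) (‖(l:ℂ)‖ + rho c₁ l) := by
    intro r hr
    have hr' : max R 0 < r := hr
    obtain ⟨z, hz, l, hl, hlt⟩ := hcon r ((le_max_left _ _).trans_lt hr')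
      ((le_max_right _ _).trans_lt hr')
    rw [mem_iUnion]
    refine ⟨⟨l, hl⟩, ?_⟩
    have h1 := abs_norm_sub_norm_le z l
    rw [hz] at h1
    have h2 := abs_le.1 (h1.trans hlt.le)
    constructor
    · show ‖l‖ - rho c₁ l ≤ r
      linarith [h2.1]
    · show r ≤ ‖l‖ + rho c₁ l
      linarith [h2.2]
  have hsum := (summable_zeros h.et h.simple ha (δ := c₁ / 2) (by positivity)).mul_left 2
  have h1 : volume (⋃ l : {z : ℂ // G z = 0},
      Icc (‖(l:ℂ)‖ - rho c₁ l) (‖(l:ℂ)‖ + rho c₁ l)) ≤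
      ∑' l : {z : ℂ // G z = 0}, ENNReal.ofReal (2 * Real.exp (-(c₁ / 2 * ‖(l:ℂ)‖))) := by
    refine (measure_iUnion_le _).trans (le_of_eq ?_)
    apply tsum_congr
    intro l
    rw [Real.volume_Icc]
    congr 1
    unfold rho
    ring
  have h2 : (∑' l : {z : ℂ // G z = 0}, ENNReal.ofReal (2 * Real.exp (-(c₁ / 2 * ‖(l:ℂ)‖)))) ≠ ⊤ := by
    rw [← ENNReal.ofReal_tsum_of_nonneg (fun _ => by positivity) hsum]
    exact ENNReal.ofReal_ne_top
  have h3 := (measure_mono hsub).trans h1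
  rw [Real.volume_Ioi] at h3
  exact h2 (top_le_iff.1 h3)

/-- local facts for large zeros -/
theorem large_zero (h : Hyp G A B c₁ Kb) : ∃ X : ℝ, 1 ≤ X ∧ ∀ l, G l = 0 → X ≤ ‖l‖ →
    (∀ z, ‖z - l‖ ≤ 1 → ‖G z‖ ≤ Real.exp (c₁ / 16 * ‖l‖) * ‖deriv G l‖) ∧
    (∀ w, ‖w - l‖ = rho c₁ l → ∀ l', G l' = 0 → rho c₁ l' ≤ ‖w - l'‖) ∧
    (∀ w, ‖w - l‖ = rho c₁ l → 1 ≤ ‖G w‖) := by
  have hc := h.c₁pos
  have hK := h.Kbpos
  obtain ⟨τ, hτ⟩ := h.loc (c₁ / 16) (by positivity)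
  have e1 := ev_exp (κ := 7 * c₁ / 16) (by positivity) (16 * (1 + Real.exp c₁))
  have e2 := ev_exp (κ := c₁ / 2) (by positivity) (4 / 3 * Kb)
  have e3 := ev_exp (κ := 7 * c₁ / 16) (by positivity) 16
  obtain ⟨X, hX⟩ := eventually_atTop.1 ((e1.and (e2.and e3)).and
    ((eventually_gt_atTop τ).and (eventually_ge_atTop 1)))
  refine ⟨max X 1, le_max_right _ _, fun l hl hlX => ?_⟩
  obtain ⟨⟨e1, e2, e3⟩, e4, e5⟩ := hX ‖l‖ ((le_max_left _ _).trans hlX)
  have hb := hτ l hl e4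
  have hl' := h.simple l hl
  have hM : 1 ≤ Real.exp (c₁ / 16 * ‖l‖) := Real.one_le_exp (by positivity)
  have hrho : rho c₁ l ≤ 1 / (16 * Real.exp (c₁ / 16 * ‖l‖)) := by
    rw [le_div_iff₀ (by positivity)]
    unfold rho
    calc Real.exp (-(c₁ / 2 * ‖l‖)) * (16 * Real.exp (c₁ / 16 * ‖l‖)) =
          16 * (Real.exp (-(c₁ / 2 * ‖l‖)) * Real.exp (c₁ / 16 * ‖l‖)) := by ring
      _ = 16 * Real.exp (-(7 * c₁ / 16 * ‖l‖)) := by rw [← Real.exp_add]; congr 2; ring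
      _ ≤ Real.exp (7 * c₁ / 16 * ‖l‖) * Real.exp (-(7 * c₁ / 16 * ‖l‖)) :=
          mul_le_mul_of_nonneg_right e3 (Real.exp_pos _).le
      _ = 1 := by rw [← Real.exp_add]; simp
  refine ⟨hb, ?_, ?_⟩
  · intro w hw l' hl'0
    by_cases hne : l' = l
    · rw [hne, hw]
    · by_contra hcon
      push Not at hcon
      have hsep := sep h.et.diff hl hl' hM hb hl'0 hne
      have h1 : ‖l' - l‖ < rho c₁ l + rho c₁ l' := by
        have := norm_add_le (l' - w) (w - l)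
        rw [sub_add_sub_cancel, norm_sub_rev l' w] at this
        linarith
      have hr1 : rho c₁ l ≤ 1 := by
        unfold rho; exact Real.exp_le_one_iff.2 (by have : 0 ≤ c₁ / 2 * ‖l‖ := by positivity
                                                    linarith)
      have hr2 : rho c₁ l' ≤ 1 := by
        unfold rho; exact Real.exp_le_one_iff.2 (by have : 0 ≤ c₁ / 2 * ‖l'‖ := by positivity
                                                    linarith)
      have hn : ‖l‖ - 2 ≤ ‖l'‖ := by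
        have := norm_sub_norm_le l l'
        rw [norm_sub_rev] at this
        linarith
      have hr3 : rho c₁ l' ≤ Real.exp c₁ * rho c₁ l := by
        unfold rho
        rw [← Real.exp_add]
        apply Real.exp_le_exp.2
        nlinarith
      have h2 : (1 + Real.exp c₁) * rho c₁ l ≤ 1 / (16 * Real.exp (c₁ / 16 * ‖l‖)) := by
        rw [le_div_iff₀ (by positivity)]
        unfold rho
        calc (1 + Real.exp c₁) * Real.exp (-(c₁ / 2 * ‖l‖)) * (16 * Real.exp (c₁ / 16 * ‖l‖)) =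
              (16 * (1 + Real.exp c₁)) *
                (Real.exp (-(c₁ / 2 * ‖l‖)) * Real.exp (c₁ / 16 * ‖l‖)) := by ring
          _ = (16 * (1 + Real.exp c₁)) * Real.exp (-(7 * c₁ / 16 * ‖l‖)) := by
              rw [← Real.exp_add]; congr 2; ring
          _ ≤ Real.exp (7 * c₁ / 16 * ‖l‖) * Real.exp (-(7 * c₁ / 16 * ‖l‖)) :=
              mul_le_mul_of_nonneg_right e1 (Real.exp_pos _).le
          _ = 1 := by rw [← Real.exp_add]; simp
      nlinarith
  · intro w hw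
    have h1 := (loc_G h.et.diff hl hM hb w (by rw [hw]; exact hrho)).1
    refine le_trans ?_ h1
    rw [hw]
    have hD : 0 < ‖deriv G l‖ := norm_pos_iff.2 hl'
    have h2 := h.big l hl
    have h3 : Real.exp (c₁ * ‖l‖) / Kb ≤ ‖deriv G l‖ := by
      rw [inv_le_comm₀ hD (by positivity)] at h2
      rw [mul_inv, ← Real.exp_neg, neg_neg] at h2
      rw [div_eq_inv_mul]; exact h2
    calc (1:ℝ) ≤ 3 / 4 / Kb * Real.exp (c₁ / 2 * ‖l‖) := by
          rw [div_mul_eq_mul_div, le_div_iff₀ hK]; linarith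
      _ = 3 / 4 * (Real.exp (c₁ * ‖l‖) / Kb) * rho c₁ l := by
          unfold rho
          have : Real.exp (c₁ / 2 * ‖l‖) = Real.exp (c₁ * ‖l‖) * Real.exp (-(c₁ / 2 * ‖l‖)) := by
            rw [← Real.exp_add]; congr 1; ring
          rw [this]; ring
      _ ≤ 3 / 4 * ‖deriv G l‖ * rho c₁ l := by
          apply mul_le_mul_of_nonneg_right _ (rho_pos _ _).le
          exact mul_le_mul_of_nonneg_left h3 (by norm_num)

/-- E is bounded where G is large -/
theorem E_bounded (h : Hyp G A B c₁ Kb) {E : ℂ → ℂ} (hE : Differentiable ℂ E) {C₄ : ℝ}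
    (hC₄ : 0 < C₄) (hb : ∀ z, (∀ l, G l = 0 → rho c₁ l ≤ ‖z - l‖) →
      ‖E z - 1 / G z‖ ≤ C₄ / (1 + ‖z‖)) :
    ∃ C' : ℝ, 1 ≤ C' ∧ ∀ z, 1 < ‖G z‖ → ‖E z‖ ≤ C' := by
  obtain ⟨X, hX1, hX⟩ := large_zero h
  obtain ⟨C₂, hC₂⟩ := (isCompact_closedBall (0:ℂ) (X + 1)).exists_bound_of_continuousOn
    hE.continuous.continuousOn
  refine ⟨max (1 + C₄) C₂, (by linarith : (1:ℝ) ≤ 1 + C₄).trans (le_max_left _ _), ?_⟩
  have hoff : ∀ z, (∀ l, G l = 0 → rho c₁ l ≤ ‖z - l‖) → 1 ≤ ‖G z‖ → ‖E z‖ ≤ 1 + C₄ := by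
    intro z hz hGz
    have h1 := hb z hz
    have h2 : ‖(1:ℂ) / G z‖ ≤ 1 := by
      rw [norm_div, norm_one]
      exact (div_le_one (by linarith)).2 hGz
    have h3 : C₄ / (1 + ‖z‖) ≤ C₄ := div_le_self hC₄.le (by linarith [norm_nonneg z])
    have h4 := norm_add_le (E z - 1 / G z) (1 / G z)
    rw [sub_add_cancel] at h4
    linarith
  intro z hz
  by_cases hU : ∀ l, G l = 0 → rho c₁ l ≤ ‖z - l‖
  · exact (hoff z hU hz.le).trans (le_max_left _ _)
  · push Not at hU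
    obtain ⟨l, hl, hlz⟩ := hU
    rcases le_or_gt X ‖l‖ with hXl | hXl
    · obtain ⟨_, h2, h3⟩ := hX l hl hXl
      refine le_trans ?_ (le_max_left _ _)
      apply Complex.norm_le_of_forall_mem_frontier_norm_le (U := ball l (rho c₁ l)) isBounded_ball
        hE.diffContOnCl
      · intro w hw
        rw [frontier_ball _ (rho_pos _ _).ne', mem_sphere_iff_norm] at hw
        exact hoff w (h2 w hw) (h3 w hw)
      · exact subset_closure (mem_ball_iff_norm.2 hlz)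
    · refine le_trans (hC₂ z ?_) (le_max_right _ _)
      rw [mem_closedBall_zero_iff]
      have h1 := norm_add_le (z - l) l
      rw [sub_add_cancel] at h1
      have h2 : rho c₁ l ≤ 1 := by
        unfold rho
        exact Real.exp_le_one_iff.2 (by
          have hc := h.c₁pos
          have : 0 ≤ c₁ / 2 * ‖l‖ := by positivity
          linarith)
      linarith

/-- E is unbounded unless it vanishes -/
theorem E_unbounded (h : Hyp G A B c₁ Kb) {E : ℂ → ℂ} (hE : Differentiable ℂ E) {C₄ : ℝ}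
    (hC₄ : 0 < C₄) (hb : ∀ z, (∀ l, G l = 0 → rho c₁ l ≤ ‖z - l‖) →
      ‖E z - 1 / G z‖ ≤ C₄ / (1 + ‖z‖)) (hne : ∃ z, E z ≠ 0) : ∀ C : ℝ, ∃ z, C < ‖E z‖ := by
  by_contra hcon
  push Not at hcon
  obtain ⟨C, hC⟩ := hcon
  have hbd : Bornology.IsBounded (range E) := by
    rw [isBounded_iff_forall_norm_le]
    exact ⟨C, by rintro _ ⟨z, rfl⟩; exact hC z⟩
  obtain ⟨z₀, hz₀⟩ := hne
  set k := ‖E z₀‖ with hk
  have hk0 : 0 < k := norm_pos_iff.2 hz₀
  have hEk : ∀ z, ‖E z‖ = k := fun z => by rw [hE.apply_eq_apply_of_bounded hbd z z₀]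
  -- G is bounded on good circles
  obtain ⟨z₁, hz₁⟩ := h.unb (2 / k)
  obtain ⟨r, hr, hr0, hgood⟩ := good_circle h (max ‖z₁‖ (2 * C₄ / k))
  have hGr : ∀ z ∈ frontier (ball (0:ℂ) r), ‖G z‖ ≤ 2 / k := by
    intro z hz
    rw [frontier_ball _ hr0.ne', mem_sphere_zero_iff_norm] at hz
    have h1 := hb z (hgood z hz)
    have h2 : C₄ / (1 + ‖z‖) ≤ k / 2 := by
      rw [div_le_iff₀ (by positivity), hz]
      have h3 : 2 * C₄ / k < r := (le_max_right _ _).trans_lt hr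
      rw [div_lt_iff₀ hk0] at h3
      nlinarith
    have h3 : k - k / 2 ≤ ‖(1:ℂ) / G z‖ := by
      have := norm_sub_norm_le (E z) (1 / G z)
      rw [hEk z] at this
      linarith
    by_cases hG0 : G z = 0
    · rw [hG0, norm_zero]; positivity
    · have hGp : 0 < ‖G z‖ := norm_pos_iff.2 hG0
      rw [norm_div, norm_one, le_div_iff₀ hGp] at h3
      rw [le_div_iff₀ hk0]
      linarith
  have h2 := Complex.norm_le_of_forall_mem_frontier_norm_le (U := ball (0:ℂ) r) isBounded_ball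
    h.et.diff.diffContOnCl hGr (z := z₁) (subset_closure (by
      rw [mem_ball_zero_iff]; exact (le_max_left _ _).trans_lt hr))
  linarith

/-- growth of the flux -/
theorem J_growth {A B : ℝ} (hG : ET G A B) : ∀ s, 0 ≤ s → (lift G hG.diff).J s ≤
    (Real.pi * (|A| + B) ^ 2 * Real.exp 2) * Real.exp (2 * s) := by
  intro s hs
  have hB := hG.B0
  have h1 := (lift G hG.diff).J_le_A s
  have h2 := (lift G hG.diff).A_le (s + 1) ((|A| + B) * Real.exp (s + 1)) (by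
    intro θ
    show Real.log ‖G (exp (((s + 1 : ℝ) : ℂ) + θ * I))‖ ≤ _
    have h3 := hG.bound (exp (((s + 1 : ℝ) : ℂ) + θ * I))
    rw [norm_exp_pt] at h3
    have he : 1 ≤ Real.exp (s + 1) := Real.one_le_exp (by linarith)
    have h4 : A + B * Real.exp (s + 1) ≤ (|A| + B) * Real.exp (s + 1) := by
      have := le_abs_self A
      nlinarith [abs_nonneg A]
    have h0 : 0 ≤ (|A| + B) * Real.exp (s + 1) := by positivity
    rcases (norm_nonneg (G (exp (((s + 1 : ℝ) : ℂ) + θ * I)))).eq_or_lt with h5 | h5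
    · rw [← h5, Real.log_zero]; exact h0
    · exact ((Real.log_le_iff_le_exp h5).2 h3).trans h4)
  have e : ((|A| + B) * Real.exp (s + 1)) ^ 2 = (|A| + B) ^ 2 * Real.exp 2 * Real.exp (2 * s) := by
    rw [mul_pow, ← Real.exp_nat_mul, mul_assoc, ← Real.exp_add]
    congr 2
    push_cast; ring
  rw [e] at h2
  nlinarith

end H1R3.Z
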