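import Pool.Agent.H1R3.Z.Core
set_option autoImplicit false
open MeasureTheory Set Filter Topology Complex Metric

namespace H1R3.Z

variable {G : ℂ → ℂ} {A B c₁ Kb : ℝ}

/-- box data for large zeros -/
theorem large_box (h : Hyp G A B c₁ Kb) : ∃ X c₃ : ℝ, 1 ≤ X ∧ 0 < c₃ ∧
    (∀ l, G l = 0 → X ≤ ‖l‖ → Real.exp (-(c₁ / 8 * ‖l‖)) ≤ 1 / 4 ∧
      Real.exp (-(c₁ / 2 * ‖l‖)) ≤ Real.exp (-(c₁ / 8 * ‖l‖)) ∧
      c₃ * ‖l‖⁻¹ ≤ ∫ q in Qbox l (Real.exp (-(c₁ / 2 * ‖l‖))) (Real.exp (-(c₁ / 8 * ‖l‖))),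
        Phi (lift G h.et.diff) q) ∧
    (∀ l l', G l = 0 → G l' = 0 → X ≤ ‖l‖ → X ≤ ‖l'‖ → l ≠ l' →
      Disjoint (Qbox l (Real.exp (-(c₁ / 2 * ‖l‖))) (Real.exp (-(c₁ / 8 * ‖l‖))))
        (Qbox l' (Real.exp (-(c₁ / 2 * ‖l'‖))) (Real.exp (-(c₁ / 8 * ‖l'‖))))) := by
  have hc := h.c₁pos
  have hK := h.Kbpos
  obtain ⟨τ, hτ⟩ := h.loc (c₁ / 16) (by positivity)
  have e1 := ev_exp (κ := c₁ / 8) (by positivity) 4
  have e2 := ev_lin (κ := c₁ / 16) (by positivity) 144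
  have e3 := ev_exp (κ := c₁ / 2) (by positivity) (8 / 3 * Kb * Real.exp 1)
  obtain ⟨X, hX⟩ := eventually_atTop.1 ((e1.and (e2.and e3)).and
    ((eventually_gt_atTop τ).and (eventually_ge_atTop 1)))
  have hfacts : ∀ l, G l = 0 → max X 1 ≤ ‖l‖ → Real.exp (-(c₁ / 8 * ‖l‖)) ≤ 1 / 4 ∧
      3 * ‖l‖ * Real.exp (-(c₁ / 8 * ‖l‖)) ≤ 1 / (16 * Real.exp (c₁ / 16 * ‖l‖)) / 3 := by
    intro l hl hlX
    obtain ⟨⟨e1, e2, e3⟩, e4, e5⟩ := hX ‖l‖ ((le_max_left _ _).trans hlX)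
    constructor
    · rw [Real.exp_neg, one_div]
      exact inv_anti₀ (by norm_num) e1
    · rw [div_div, le_div_iff₀ (by positivity)]
      calc 3 * ‖l‖ * Real.exp (-(c₁ / 8 * ‖l‖)) * (16 * Real.exp (c₁ / 16 * ‖l‖) * 3) =
            (144 * ‖l‖) * (Real.exp (-(c₁ / 8 * ‖l‖)) * Real.exp (c₁ / 16 * ‖l‖)) := by ring
        _ = (144 * ‖l‖) * Real.exp (-(c₁ / 16 * ‖l‖)) := by
            rw [← Real.exp_add]; congr 2; ring
        _ ≤ Real.exp (c₁ / 16 * ‖l‖) * Real.exp (-(c₁ / 16 * ‖l‖)) :=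
            mul_le_mul_of_nonneg_right e2 (Real.exp_pos _).le
        _ = 1 := by rw [← Real.exp_add]; simp
  refine ⟨max X 1, Real.exp (-2) / 64 * (3 * c₁ / 8), le_max_right _ _, by positivity, ?_, ?_⟩
  · intro l hl hlX
    obtain ⟨⟨e1, e2, e3⟩, e4, e5⟩ := hX ‖l‖ ((le_max_left _ _).trans hlX)
    obtain ⟨f1, f2⟩ := hfacts l hl hlX
    have hb := hτ l hl e4
    have hl' := h.simple l hl
    have hn : 0 < ‖l‖ := by linarith
    have hl0 : l ≠ 0 := norm_pos_iff.1 hn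
    have hM : 1 ≤ Real.exp (c₁ / 16 * ‖l‖) := Real.one_le_exp (by positivity)
    have hab : Real.exp (-(c₁ / 2 * ‖l‖)) ≤ Real.exp (-(c₁ / 8 * ‖l‖)) := by
      apply Real.exp_le_exp.2
      have : 0 ≤ c₁ * ‖l‖ := by positivity
      linarith
    refine ⟨f1, hab, ?_⟩
    have hD : 0 < ‖deriv G l‖ := norm_pos_iff.2 hl'
    have h2 := h.big l hl
    have h3 : Real.exp (c₁ * ‖l‖) / Kb ≤ ‖deriv G l‖ := by
      rw [inv_le_comm₀ hD (by positivity)] at h2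
      rw [mul_inv, ← Real.exp_neg, neg_neg] at h2
      rw [div_eq_inv_mul]; exact h2
    have hbox := box_lower h.et.diff hl hl0 hl' hM hb (Real.exp_pos _) hab f1
      (f2.trans (div_le_self (by positivity) (by norm_num))) (by
        calc Real.exp 1 ≤ 3 / 8 / Kb * Real.exp (c₁ / 2 * ‖l‖) := by
              rw [div_mul_eq_mul_div, le_div_iff₀ hK]; linarith
          _ = 3 / 8 * (Real.exp (c₁ * ‖l‖) / Kb) * 1 * Real.exp (-(c₁ / 2 * ‖l‖)) := by
              have : Real.exp (c₁ / 2 * ‖l‖) = Real.exp (c₁ * ‖l‖) *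
                  Real.exp (-(c₁ / 2 * ‖l‖)) := by
                rw [← Real.exp_add]; congr 1; ring
              rw [this]; ring
          _ ≤ 3 / 8 * ‖deriv G l‖ * ‖l‖ * Real.exp (-(c₁ / 2 * ‖l‖)) := by
              apply mul_le_mul_of_nonneg_right _ (Real.exp_pos _).le
              apply mul_le_mul _ e5 zero_le_one (by positivity)
              exact mul_le_mul_of_nonneg_left h3 (by norm_num))
    refine le_trans (le_of_eq ?_) hbox
    rw [← Real.exp_sub, Real.log_exp]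
    field_simp
    ring
  · intro l l' hl hl'0 hlX hlX' hne
    rw [Set.disjoint_left]
    rintro ⟨s, θ⟩ hq hq'
    obtain ⟨⟨_, _, _⟩, e4, e5⟩ := hX ‖l‖ ((le_max_left _ _).trans hlX)
    obtain ⟨⟨_, _, _⟩, e4', e5'⟩ := hX ‖l'‖ ((le_max_left _ _).trans hlX')
    obtain ⟨f1, f2⟩ := hfacts l hl hlX
    obtain ⟨f1', f2'⟩ := hfacts l' hl'0 hlX'
    have hn : 0 < ‖l‖ := by linarith
    have hn' : 0 < ‖l'‖ := by linarith
    have hM : 1 ≤ Real.exp (c₁ / 16 * ‖l‖) := Real.one_le_exp (by positivity)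
    have hM' : 1 ≤ Real.exp (c₁ / 16 * ‖l'‖) := Real.one_le_exp (by positivity)
    have s1 := sep h.et.diff hl (h.simple l hl) hM (hτ l hl e4) hl'0 (Ne.symm hne)
    have s2 := sep h.et.diff hl'0 (h.simple l' hl'0) hM' (hτ l' hl'0 e4') hl hne
    have d1 : ‖exp ((s:ℂ) + θ * I) - l‖ ≤ 3 * ‖l‖ * Real.exp (-(c₁ / 8 * ‖l‖)) := by
      obtain ⟨hs, ht⟩ := hq
      refine (polar_dist (norm_pos_iff.1 hn) ?_ ?_ f1).1
      · have := Real.exp_pos (-(c₁ / 2 * ‖l‖))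
        rw [abs_le]; constructor <;> linarith [hs.1, hs.2, Real.exp_pos (-(c₁ / 8 * ‖l‖))]
      · exact (lo_cases l _ (Real.exp_pos _).le f1).2.2 θ ht
    have d2 : ‖exp ((s:ℂ) + θ * I) - l'‖ ≤ 3 * ‖l'‖ * Real.exp (-(c₁ / 8 * ‖l'‖)) := by
      obtain ⟨hs, ht⟩ := hq'
      refine (polar_dist (norm_pos_iff.1 hn') ?_ ?_ f1').1
      · have := Real.exp_pos (-(c₁ / 2 * ‖l'‖))
        rw [abs_le]; constructor <;> linarith [hs.1, hs.2, Real.exp_pos (-(c₁ / 8 * ‖l'‖))]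
      · exact (lo_cases l' _ (Real.exp_pos _).le f1').2.2 θ ht
    have h5 : ‖l' - l‖ ≤ ‖exp ((s:ℂ) + θ * I) - l‖ + ‖exp ((s:ℂ) + θ * I) - l'‖ := by
      have := norm_add_le (l' - exp ((s:ℂ) + θ * I)) (exp ((s:ℂ) + θ * I) - l)
      rw [sub_add_sub_cancel, norm_sub_rev l' (exp _)] at this
      linarith
    rw [norm_sub_rev] at s2
    have p1 : 0 < 1 / (16 * Real.exp (c₁ / 16 * ‖l‖)) := by positivity
    have p2 : 0 < 1 / (16 * Real.exp (c₁ / 16 * ‖l'‖)) := by positivity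
    linarith

theorem core (h : Hyp G A B c₁ Kb) {E : ℂ → ℂ} {A₂ B₂ : ℝ} (hE : ET E A₂ B₂) {C₄ : ℝ}
    (hC₄ : 0 < C₄) (hb : ∀ z, (∀ l, G l = 0 → rho c₁ l ≤ ‖z - l‖) →
      ‖E z - 1 / G z‖ ≤ C₄ / (1 + ‖z‖)) (hne : ∃ z, E z ≠ 0) :
    Summable (fun l : {z : ℂ // G z = 0} => ‖(l:ℂ)‖⁻¹) := by
  classical
  have hc := h.c₁pos
  obtain ⟨a, ha⟩ := h.ne
  obtain ⟨C', hC'1, hC'⟩ := E_bounded h hE.diff hC₄ hb
  have hEu := E_unbounded h hE.diff hC₄ hb hne
  have hC'0 : 0 < C' := by linarith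
  -- normalised second function
  set E₁ : ℂ → ℂ := fun z => ((C'⁻¹ : ℝ) : ℂ) * E z with hE₁
  have hE₁n : ∀ z, ‖E₁ z‖ = C'⁻¹ * ‖E z‖ := by
    intro z
    simp only [hE₁]
    rw [norm_mul, Complex.norm_real, Real.norm_eq_abs, abs_of_pos (by positivity)]
  have hE₁ET : ET E₁ A₂ B₂ := by
    refine ⟨(differentiable_const _).mul hE.diff, fun z => ?_, hE.B0⟩
    rw [hE₁n]
    refine le_trans ?_ (hE.bound z)
    have : C'⁻¹ ≤ 1 := inv_le_one_of_one_le₀ hC'1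
    nlinarith [norm_nonneg (E z)]
  have hE₁u : ∀ C : ℝ, ∃ z, C < ‖E₁ z‖ := by
    intro C
    obtain ⟨z, hz⟩ := hEu (C' * C)
    refine ⟨z, ?_⟩
    rw [hE₁n, ← div_eq_inv_mul, lt_div_iff₀ hC'0]
    linarith
  set F1 := lift G h.et.diff with hF1
  set F2 := lift E₁ hE₁ET.diff with hF2
  have hd : ∀ ζ, 1 < ‖F1.g ζ‖ → ‖F2.g ζ‖ ≤ 1 := by
    intro ζ hζ
    have h1 : 1 < ‖G (exp ζ)‖ := hζ
    have h2 := hC' _ h1
    show ‖E₁ (exp ζ)‖ ≤ 1
    rw [hE₁n, ← div_eq_inv_mul, div_le_one hC'0]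
    exact h2
  obtain ⟨σ₁, hσ₁⟩ := lift_J_pos G h.et.diff h.unb
  obtain ⟨σ₂, hσ₂⟩ := lift_J_pos E₁ hE₁ET.diff hE₁u
  set s₀ : ℝ := max 0 (max σ₁ σ₂) with hs₀
  have hs₀0 : 0 ≤ s₀ := le_max_left _ _
  have j1 : 0 < F1.J s₀ := hσ₁.trans_le (F1.J_mono ((le_max_left _ _).trans (le_max_right _ _)))
  have j2 : 0 < F2.J s₀ := hσ₂.trans_le (F2.J_mono ((le_max_right _ _).trans (le_max_right _ _)))
  set Cg : ℝ := max (Real.pi * (|A| + B) ^ 2 * Real.exp 2)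
    (Real.pi * (|A₂| + B₂) ^ 2 * Real.exp 2) with hCg
  obtain ⟨C'', hC''0, hC''⟩ := acf F1 F2 hd s₀ Cg j1 j2
    (fun s hs => (J_growth h.et s (hs₀0.trans hs)).trans
      (mul_le_mul_of_nonneg_right (le_max_left _ _) (Real.exp_pos _).le))
    (fun s hs => (J_growth hE₁ET s (hs₀0.trans hs)).trans
      (mul_le_mul_of_nonneg_right (le_max_right _ _) (Real.exp_pos _).le))
  obtain ⟨X, c₃, hX1, hc₃, hbox, hdisj⟩ := large_box h
  set Y : ℝ := max X (Real.exp s₀) with hY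
  have hsm := summable_zeros h.et h.simple ha (δ := c₁ / 8) (by positivity)
  set W : ℝ := ∑' l : {z : ℂ // G z = 0}, Real.exp (-(c₁ / 8 * ‖(l:ℂ)‖)) with hW
  -- bound over finite sets of large zeros
  have key : ∀ S : Finset {z : ℂ // G z = 0}, (∀ l ∈ S, Y ≤ ‖(l:ℂ)‖) →
      ∑ l ∈ S, c₃ * ‖(l:ℂ)‖⁻¹ ≤ C'' * (1 + W) := by
    intro S hS
    set av : {z : ℂ // G z = 0} → ℝ := fun l => Real.exp (-(c₁ / 2 * ‖(l:ℂ)‖)) with hav
    set bv : {z : ℂ // G z = 0} → ℝ := fun l => Real.exp (-(c₁ / 8 * ‖(l:ℂ)‖)) with hbv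
    set Iv : {z : ℂ // G z = 0} → Set ℝ := fun l =>
      Icc (Real.log ‖(l:ℂ)‖ + av l) (Real.log ‖(l:ℂ)‖ + bv l) with hIv
    set T : Set ℝ := ⋃ l ∈ S, Iv l with hT
    have hTm : MeasurableSet T := Finset.measurableSet_biUnion _ fun l _ => measurableSet_Icc
    obtain ⟨S₁, hS₁⟩ : ∃ S₁ : ℝ, ∀ l ∈ S, Real.log ‖(l:ℂ)‖ + bv l ≤ S₁ := by
      refine ⟨∑ l ∈ S, |Real.log ‖(l:ℂ)‖ + bv l|, fun l hl => ?_⟩
      exact (le_abs_self _).trans (Finset.single_le_sum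
        (f := fun l : {z : ℂ // G z = 0} => |Real.log ‖(l:ℂ)‖ + bv l|)
        (fun _ _ => abs_nonneg _) hl)
    have hTsub : T ⊆ Icc s₀ S₁ := by
      intro s hs
      rw [hT, mem_iUnion₂] at hs
      obtain ⟨l, hl, hs⟩ := hs
      have h1 : Real.exp s₀ ≤ ‖(l:ℂ)‖ := (le_max_right _ _).trans (hS l hl)
      have h2 : s₀ ≤ Real.log ‖(l:ℂ)‖ := by
        rw [Real.le_log_iff_exp_le ((Real.exp_pos _).trans_le h1)]; exact h1
      have h3 : 0 < av l := Real.exp_pos _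
      exact ⟨by linarith [hs.1], hs.2.trans (hS₁ l hl)⟩
    have hacf := hC'' T S₁ hTm hTsub
    have hTv : volume.real T ≤ W := by
      have h1 : volume.real T ≤ ∑ l ∈ S, volume.real (Iv l) := measureReal_biUnion_finset_le _ _
      have h2 : ∑ l ∈ S, volume.real (Iv l) ≤ ∑ l ∈ S, bv l := by
        apply Finset.sum_le_sum
        intro l hl
        have h3 := (hbox l l.2 ((le_max_left _ _).trans (hS l hl))).2.1
        simp only [hIv]
        rw [Real.volume_real_Icc]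
        have h4 : 0 < av l := Real.exp_pos _
        have h5 : 0 < bv l := Real.exp_pos _
        apply max_le _ h5.le
        linarith
      exact h1.trans (h2.trans (hsm.sum_le_tsum _ fun _ _ => (Real.exp_pos _).le))
    have hEn : ∀ s : ℝ, F1.En s = ∫ θ in Icc (-Real.pi) Real.pi, F1.en (s + θ * I) := by
      intro s
      have hper : ∀ t : ℝ, F1.en (s + ((t + 2 * Real.pi : ℝ) : ℂ) * I) =
          F1.en (s + (t:ℂ) * I) := by
        intro t
        have e : (s:ℂ) + ((t + 2 * Real.pi : ℝ) : ℂ) * I = (s + (t:ℂ) * I) + 2 * Real.pi * I := by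
          push_cast; ring
        simp only [LF.en, LF.u, LF.p]; rw [e, LF.per, LF.per1]
      have h1 := LF.int_shift (q := fun t : ℝ => F1.en (s + t * I)) hper (-Real.pi)
      rw [LF.En, ← h1, integral_Icc_eq_integral_Ioc,
        ← intervalIntegral.integral_of_le (by linarith [Real.pi_pos])]
      congr 1
      ring
    have hfub : ∫ s in T, Real.exp (-(2 * s)) * F1.En s =
        ∫ q in T ×ˢ Icc (-Real.pi) Real.pi, Phi F1 q := by
      rw [Measure.volume_eq_prod, setIntegral_prod]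
      · apply setIntegral_congr_fun hTm
        intro s _
        simp only [Phi]
        rw [hEn s, integral_const_mul]
      · apply IntegrableOn.mono_set (t := Icc s₀ S₁ ×ˢ Icc (-Real.pi) Real.pi)
        · exact (Phi_cont F1).continuousOn.integrableOn_compact (isCompact_Icc.prod isCompact_Icc)
        · exact Set.prod_mono hTsub le_rfl
    have hQsub : (⋃ l ∈ S, Qbox (l:ℂ) (av l) (bv l)) ⊆ T ×ˢ Icc (-Real.pi) Real.pi := by
      intro q hq
      rw [mem_iUnion₂] at hq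
      obtain ⟨l, hl, hq1, hq2⟩ := hq
      constructor
      · rw [hT, mem_iUnion₂]; exact ⟨l, hl, hq1⟩
      · obtain ⟨f1, _, _⟩ := hbox l l.2 ((le_max_left _ _).trans (hS l hl))
        obtain ⟨g1, g2, _⟩ := lo_cases (l:ℂ) (bv l) (Real.exp_pos _).le f1
        exact ⟨g1.trans hq2.1, hq2.2.trans g2⟩
    have hintW : IntegrableOn (Phi F1) (T ×ˢ Icc (-Real.pi) Real.pi) := by
      apply IntegrableOn.mono_set (t := Icc s₀ S₁ ×ˢ Icc (-Real.pi) Real.pi)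
      · exact (Phi_cont F1).continuousOn.integrableOn_compact (isCompact_Icc.prod isCompact_Icc)
      · exact Set.prod_mono hTsub le_rfl
    have hsumQ : ∫ q in ⋃ l ∈ S, Qbox (l:ℂ) (av l) (bv l), Phi F1 q =
        ∑ l ∈ S, ∫ q in Qbox (l:ℂ) (av l) (bv l), Phi F1 q := by
      apply integral_biUnion_finset
      · intro l _
        exact measurableSet_Icc.prod measurableSet_Icc
      · intro l hl l' hl' hne
        exact hdisj l l' l.2 l'.2 ((le_max_left _ _).trans (hS l hl))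
          ((le_max_left _ _).trans (hS l' hl')) (fun h => hne (Subtype.ext h))
      · intro l _
        exact (Phi_cont F1).continuousOn.integrableOn_compact (isCompact_Icc.prod isCompact_Icc)
    calc ∑ l ∈ S, c₃ * ‖(l:ℂ)‖⁻¹ ≤ ∑ l ∈ S, ∫ q in Qbox (l:ℂ) (av l) (bv l), Phi F1 q := by
          apply Finset.sum_le_sum
          intro l hl
          exact (hbox l l.2 ((le_max_left _ _).trans (hS l hl))).2.2
      _ = ∫ q in ⋃ l ∈ S, Qbox (l:ℂ) (av l) (bv l), Phi F1 q := hsumQ.symm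
      _ ≤ ∫ q in T ×ˢ Icc (-Real.pi) Real.pi, Phi F1 q := by
          apply setIntegral_mono_set hintW
          · exact Eventually.of_forall fun q => Phi_nonneg F1 q
          · exact Eventually.of_forall hQsub
      _ ≤ C'' * (1 + volume.real T) := by rw [← hfub]; exact hacf
      _ ≤ C'' * (1 + W) := mul_le_mul_of_nonneg_left (by linarith) hC''0
  -- split off the small zeros
  set Zs : Finset ℂ := (zeros_finite h.et.diff h.simple Y).toFinset with hZs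
  have hmem : ∀ z, z ∈ Zs ↔ (G z = 0 ∧ ‖z‖ < Y) := by
    intro z; rw [hZs, Set.Finite.mem_toFinset]; rfl
  apply summable_of_sum_le (c := (∑ z ∈ Zs, ‖z‖⁻¹) + C'' * (1 + W) / c₃)
    (fun _ => by positivity)
  intro S
  rw [← Finset.sum_filter_add_sum_filter_not S (fun l => ‖(l:ℂ)‖ < Y)]
  apply add_le_add
  · rw [← Finset.sum_image (f := fun z : ℂ => ‖z‖⁻¹)
      (g := fun l : {z : ℂ // G z = 0} => (l:ℂ)) (Subtype.val_injective.injOn)]
    apply Finset.sum_le_sum_of_subset_of_nonneg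
    · intro z hz
      rw [Finset.mem_image] at hz
      obtain ⟨l, hl, rfl⟩ := hz
      rw [Finset.mem_filter] at hl
      exact (hmem _).2 ⟨l.2, hl.2⟩
    · intro _ _ _; positivity
  · rw [le_div_iff₀ hc₃, mul_comm, Finset.mul_sum]
    apply key
    intro l hl
    rw [Finset.mem_filter] at hl
    exact not_lt.1 hl.2

end H1R3.Z
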