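import Pool.Agent.H1R3.Z.Prof
set_option autoImplicit false
open MeasureTheory Set Filter Topology Complex

namespace H1R3.Z

/-- a twice differentiable function with period `2 π i` -/
structure LF where
  g : ℂ → ℂ
  g1 : ℂ → ℂ
  g2 : ℂ → ℂ
  hg : ∀ ζ, HasDerivAt g (g1 ζ) ζ
  hg1 : ∀ ζ, HasDerivAt g1 (g2 ζ) ζ
  per : ∀ ζ, g (ζ + 2 * Real.pi * I) = g ζ
  per1 : ∀ ζ, g1 (ζ + 2 * Real.pi * I) = g1 ζ

namespace LF

variable (F : LF)

theorem gc : Continuous F.g := continuous_iff_continuousAt.2 fun x => (F.hg x).continuousAt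
theorem g1c : Continuous F.g1 := continuous_iff_continuousAt.2 fun x => (F.hg1 x).continuousAt

/-- log modulus -/
noncomputable def u (ζ : ℂ) : ℝ := Real.log ‖F.g ζ‖
/-- log derivative -/
noncomputable def p (ζ : ℂ) : ℂ := F.g1 ζ / F.g ζ
/-- energy density -/
noncomputable def en (ζ : ℂ) : ℝ := psi (F.u ζ) ^ 2 * ‖F.p ζ‖ ^ 2
/-- the vector field -/
noncomputable def vf (ζ : ℂ) : ℂ := (KK (F.u ζ) : ℂ) * F.p ζ

theorem vf_cont : Continuous F.vf := by
  have h1 := (cutoff_cont KK_cont (fun x hx => KK_zero hx)).comp F.gc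
  have h2 : Continuous fun ζ => (KK (Real.log ‖F.g ζ‖) : ℂ) * (F.g ζ)⁻¹ * F.g1 ζ := h1.mul F.g1c
  convert h2 using 1
  funext ζ
  simp only [vf, p, u, div_eq_mul_inv]
  ring

theorem en_cont : Continuous F.en := by
  have h1 := (cutoff_cont psi_cont (fun x hx => psi_zero hx)).comp F.gc
  have h2 : Continuous fun ζ => ‖(psi (Real.log ‖F.g ζ‖) : ℂ) * (F.g ζ)⁻¹ * F.g1 ζ‖ ^ 2 :=
    ((h1.mul F.g1c).norm).pow 2
  convert h2 using 1
  funext ζ
  simp only [en, p, u, div_eq_mul_inv]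
  rw [norm_mul, norm_mul, norm_mul, Complex.norm_real, Real.norm_eq_abs, mul_pow, mul_pow, mul_pow,
    sq_abs]
  ring

/-- multiplication by a complex number, real-linear -/
noncomputable def ml (a : ℂ) : ℂ →L[ℝ] ℂ := ContinuousLinearMap.mul ℝ ℂ a

theorem g_fd (ζ : ℂ) : HasFDerivAt F.g (ml (F.g1 ζ)) ζ := by
  have h := (F.hg ζ).hasFDerivAt.restrictScalars ℝ
  refine h.congr_fderiv ?_
  ext v
  simp [ml, mul_comm]

/-- real derivative of a cut-off function of `u` -/
theorem cut_fd {P p : ℝ → ℝ} (hP : ∀ x, HasDerivAt P (p x) x) (h0 : ∀ x ≤ 0, P x = 0)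
    (ζ : ℂ) :
    HasFDerivAt (fun z : ℂ => P (F.u z)) ((DD (p (F.u ζ)) (F.g ζ)).comp (ml (F.g1 ζ))) ζ :=
  (cutoff_fderiv hP h0 (F.g ζ)).comp ζ (F.g_fd ζ)

theorem cut_val (c : ℝ) (ζ v : ℂ) :
    ((DD c (F.g ζ)).comp (ml (F.g1 ζ))) v = c * (F.p ζ * v).re := by
  simp only [ContinuousLinearMap.comp_apply, DD_apply, ml, ContinuousLinearMap.mul_apply', p]
  congr 2
  rw [div_eq_mul_inv]; ring

/-- derivative of the vector field -/
noncomputable def vf' (ζ : ℂ) : ℂ →L[ℝ] ℂ :=
  (F.p ζ) • (Complex.ofRealCLM.comp ((DD (psi (F.u ζ) ^ 2) (F.g ζ)).comp (ml (F.g1 ζ)))) +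
    ml ((KK (F.u ζ) : ℂ) * ((F.g2 ζ * F.g ζ - F.g1 ζ * F.g1 ζ) / F.g ζ ^ 2))

theorem vf'_apply (ζ v : ℂ) : F.vf' ζ v = F.p ζ * ((psi (F.u ζ) ^ 2 * (F.p ζ * v).re : ℝ) : ℂ) +
      ((KK (F.u ζ) : ℂ) * ((F.g2 ζ * F.g ζ - F.g1 ζ * F.g1 ζ) / F.g ζ ^ 2)) * v := by
  simp only [vf', add_apply, smul_apply,
    ContinuousLinearMap.comp_apply, smul_eq_mul, ml, ContinuousLinearMap.mul_apply']
  rw [DD_apply]
  congr 2
  simp only [Complex.ofRealCLM_apply, p]
  rw [div_eq_mul_inv, ← mul_assoc, mul_comm (F.g ζ)⁻¹]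

theorem vf_fd (ζ : ℂ) : HasFDerivAt F.vf (F.vf' ζ) ζ := by
  by_cases h : F.g ζ = 0
  · have h1 : F.vf' ζ = 0 := by
      have h8 : F.p ζ = 0 := by simp [p, h]
      have hu : F.u ζ = 0 := by simp [u, h]
      apply ContinuousLinearMap.ext
      intro v
      rw [vf'_apply, h8, hu, KK_zero le_rfl]
      simp
    rw [h1]
    have h2 : F.vf =ᶠ[𝓝 ζ] fun _ => 0 := by
      have hb : {z | ‖F.g z‖ < 1} ∈ 𝓝 ζ := by
        apply (isOpen_lt F.gc.norm continuous_const).mem_nhds
        simp [h]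
      filter_upwards [hb] with z hz
      simp only [vf, u]
      rw [KK_zero (Real.log_nonpos (norm_nonneg _) (le_of_lt hz))]; simp
    exact (hasFDerivAt_const (0:ℂ) ζ).congr_of_eventuallyEq h2
  · have ha := Complex.ofRealCLM.hasFDerivAt.comp ζ (F.cut_fd KK_deriv (fun x hx => KK_zero hx) ζ)
    have hb : HasFDerivAt F.p (ml ((F.g2 ζ * F.g ζ - F.g1 ζ * F.g1 ζ) / F.g ζ ^ 2)) ζ := by
      have h1 := ((F.hg1 ζ).div (F.hg ζ) h).hasFDerivAt.restrictScalars ℝ
      refine h1.congr_fderiv ?_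
      ext v
      simp [ml, mul_comm]
    have hm := ha.mul hb
    refine hm.congr_fderiv ?_
    ext v
    simp [vf', ml]; ring

theorem vf'_val (ζ : ℂ) : I • F.vf' ζ 1 - F.vf' ζ I = I * (F.en ζ : ℂ) := by
  rw [F.vf'_apply, F.vf'_apply]
  have e1 : (F.p ζ * 1).re = (F.p ζ).re := by rw [mul_one]
  have e2 : (F.p ζ * I).re = -(F.p ζ).im := by simp
  rw [e1, e2]
  have e3 : (F.en ζ : ℂ) = (psi (F.u ζ) ^ 2 : ℝ) * (F.p ζ * (starRingEnd ℂ) (F.p ζ)) := by
    rw [Complex.mul_conj, Complex.normSq_eq_norm_sq, en]; push_cast; ring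
  rw [e3]
  have e4 : (starRingEnd ℂ) (F.p ζ) = (F.p ζ).re - (F.p ζ).im * I := by
    apply Complex.ext <;> simp
  rw [e4]
  push_cast
  simp only [smul_eq_mul]
  ring_nf
  rw [Complex.I_sq]
  ring

/-- circle integral of the field -/
noncomputable def V (s : ℝ) : ℂ := ∫ θ in (0:ℝ)..2 * Real.pi, F.vf (s + θ * I)
noncomputable def J (s : ℝ) : ℝ := (F.V s).re
noncomputable def En (s : ℝ) : ℝ := ∫ θ in (0:ℝ)..2 * Real.pi, F.en (s + θ * I)
noncomputable def A (s : ℝ) : ℝ := ∫ θ in (0:ℝ)..2 * Real.pi, Xi (F.u (s + θ * I))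

theorem pt_cont : Continuous fun q : ℝ × ℝ => ((q.1 : ℂ) + (q.2 : ℂ) * I) := by fun_prop

theorem En_cont : Continuous F.En :=
  intervalIntegral.continuous_parametric_intervalIntegral_of_continuous'
    (f := fun s θ : ℝ => F.en (s + θ * I)) (F.en_cont.comp pt_cont) 0 (2 * Real.pi)

theorem V_cont : Continuous F.V :=
  intervalIntegral.continuous_parametric_intervalIntegral_of_continuous'
    (f := fun s θ : ℝ => F.vf (s + θ * I)) (F.vf_cont.comp pt_cont) 0 (2 * Real.pi)

theorem J_cont : Continuous F.J := Complex.continuous_re.comp F.V_cont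

theorem two_pi_pos' : (0:ℝ) ≤ 2 * Real.pi := by positivity

theorem en_nonneg (ζ : ℂ) : 0 ≤ F.en ζ := by unfold en; positivity

theorem En_nonneg (s : ℝ) : 0 ≤ F.En s :=
  intervalIntegral.integral_nonneg two_pi_pos' fun _ _ => F.en_nonneg _

theorem vf_per (ζ : ℂ) : F.vf (ζ + 2 * Real.pi * I) = F.vf ζ := by
  simp only [vf, p, u, F.per, F.per1]

theorem V_diff (s₁ s₂ : ℝ) : F.V s₂ - F.V s₁ = ((∫ s in s₁..s₂, F.En s : ℝ) : ℂ) := by
  have h := Complex.integral_boundary_rect_of_hasFDerivAt_real_off_countable F.vf F.vf'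
    ⟨s₁, 0⟩ ⟨s₂, 2 * Real.pi⟩ ∅ countable_empty F.vf_cont.continuousOn
    (fun x _ => F.vf_fd x) (by
      have : (fun z => I • F.vf' z 1 - F.vf' z I) = fun z => I * (F.en z : ℂ) := by
        funext z; exact F.vf'_val z
      rw [this]
      apply ContinuousOn.integrableOn_compact
      · exact (isCompact_uIcc.reProdIm isCompact_uIcc)
      · exact (continuous_const.mul (Complex.continuous_ofReal.comp F.en_cont)).continuousOn)
  simp only [F.vf'_val] at h
  have e1 : ∀ x : ℝ, F.vf (x + ((2 * Real.pi : ℝ) : ℂ) * I) = F.vf (x + ((0:ℝ):ℂ) * I) := by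
    intro x
    have := F.vf_per (x + ((0:ℝ):ℂ) * I)
    rw [← this]; congr 1; push_cast; ring
  simp only [e1, sub_self, zero_add] at h
  rw [← smul_sub] at h
  have h2 : (∫ x in s₁..s₂, ∫ y in (0:ℝ)..2 * Real.pi, I * (F.en (x + y * I) : ℂ)) =
      I * ((∫ s in s₁..s₂, F.En s : ℝ) : ℂ) := by
    rw [← intervalIntegral.integral_ofReal, ← intervalIntegral.integral_const_mul]
    apply intervalIntegral.integral_congr
    intro x _
    simp only [En]
    rw [intervalIntegral.integral_const_mul, intervalIntegral.integral_ofReal]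
  rw [h2] at h
  have h3 : I * (F.V s₂ - F.V s₁) = I * ((∫ s in s₁..s₂, F.En s : ℝ) : ℂ) := h
  exact mul_left_cancel₀ I_ne_zero h3

theorem J_diff (s₁ s₂ : ℝ) : F.J s₂ - F.J s₁ = ∫ s in s₁..s₂, F.En s := by
  have h := congrArg Complex.re (F.V_diff s₁ s₂)
  rwa [Complex.sub_re, Complex.ofReal_re] at h

theorem J_deriv (s : ℝ) : HasDerivAt F.J (F.En s) s := by
  have h1 : F.J = fun x => F.J 0 + ∫ y in (0:ℝ)..x, F.En y := by
    funext x; rw [← F.J_diff 0 x]; ring
  rw [h1]
  exact (intervalIntegral.integral_hasDerivAt_right (F.En_cont.intervalIntegrable _ _)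
    F.En_cont.stronglyMeasurable.stronglyMeasurableAtFilter F.En_cont.continuousAt).const_add _

theorem J_mono : Monotone F.J := by
  intro a b hab
  have := F.J_diff a b
  have h2 : 0 ≤ ∫ s in a..b, F.En s := intervalIntegral.integral_nonneg hab fun _ _ => F.En_nonneg _
  linarith

theorem Xi_u_cont : Continuous fun ζ => Xi (F.u ζ) :=
  (cutoff_cont' Xi_cont (fun _ hx => Xi_zero hx)).comp F.gc

theorem A_diff (s₁ s₂ : ℝ) : F.A s₂ - F.A s₁ = ∫ s in s₁..s₂, 2 * F.J s := by
  set f : ℂ → ℂ := fun ζ => (Xi (F.u ζ) : ℂ) with hf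
  set f' : ℂ → ℂ →L[ℝ] ℂ := fun ζ =>
    Complex.ofRealCLM.comp ((DD (2 * KK (F.u ζ)) (F.g ζ)).comp (ml (F.g1 ζ))) with hf'
  have hval : ∀ z, I • f' z 1 - f' z I = 2 * (I * (F.vf z).re + (F.vf z).im) := by
    intro z
    simp only [hf']
    rw [ContinuousLinearMap.comp_apply, ContinuousLinearMap.comp_apply (Complex.ofRealCLM),
      F.cut_val, F.cut_val]
    simp only [Complex.ofRealCLM_apply, smul_eq_mul, mul_one, vf]
    simp
    ring
  have h := Complex.integral_boundary_rect_of_hasFDerivAt_real_off_countable f f'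
    ⟨s₁, 0⟩ ⟨s₂, 2 * Real.pi⟩ ∅ countable_empty
    (Complex.continuous_ofReal.comp F.Xi_u_cont).continuousOn
    (fun x _ => Complex.ofRealCLM.hasFDerivAt.comp x
      (F.cut_fd Xi_deriv (fun y hy => Xi_zero hy) x)) (by
      simp only [hval]
      apply ContinuousOn.integrableOn_compact
      · exact (isCompact_uIcc.reProdIm isCompact_uIcc)
      · have h9 := F.vf_cont
        exact (continuous_const.mul ((continuous_const.mul (Complex.continuous_ofReal.comp
          (Complex.continuous_re.comp h9))).add (Complex.continuous_ofReal.comp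
          (Complex.continuous_im.comp h9)))).continuousOn)
  simp only [hval] at h
  have e1 : ∀ x : ℝ, f (x + ((2 * Real.pi : ℝ) : ℂ) * I) = f (x + ((0:ℝ):ℂ) * I) := by
    intro x
    have e : (x:ℂ) + ((2 * Real.pi : ℝ) : ℂ) * I = (x + ((0:ℝ):ℂ) * I) + 2 * Real.pi * I := by
      push_cast; ring
    simp only [hf, u]
    rw [e, F.per]
  simp only [e1, sub_self, zero_add] at h
  rw [← smul_sub] at h
  have hA : ∀ s : ℝ, ∫ y in (0:ℝ)..2 * Real.pi, f (s + y * I) = (F.A s : ℂ) := by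
    intro s
    simp only [hf, A]
    rw [intervalIntegral.integral_ofReal]
  rw [hA, hA] at h
  have hre : ∀ x : ℝ, ∫ y in (0:ℝ)..2 * Real.pi, 2 * (I * ((F.vf (x + y * I)).re : ℂ) +
      ((F.vf (x + y * I)).im : ℂ)) = 2 * (I * (F.J x : ℂ) + ((F.V x).im : ℂ)) := by
    intro x
    have hc : Continuous fun y : ℝ => F.vf (x + y * I) := F.vf_cont.comp (by fun_prop)
    rw [intervalIntegral.integral_const_mul, intervalIntegral.integral_add,
      intervalIntegral.integral_const_mul, intervalIntegral.integral_ofReal,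
      intervalIntegral.integral_ofReal]
    · congr 3
      · simp only [J, V]
        congr 1
        have := Complex.reCLM.intervalIntegral_comp_comm (hc.intervalIntegrable (μ := volume) 0 (2 * Real.pi))
        simpa using this
      · simp only [V]
        congr 1
        have := Complex.imCLM.intervalIntegral_comp_comm (hc.intervalIntegrable (μ := volume) 0 (2 * Real.pi))
        simpa using this
    · exact (continuous_const.mul (Complex.continuous_ofReal.comp
        (Complex.continuous_re.comp hc))).intervalIntegrable _ _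
    · exact (Complex.continuous_ofReal.comp
        (Complex.continuous_im.comp hc)).intervalIntegrable _ _
  have h2 : I * ((F.A s₂ : ℂ) - F.A s₁) = ∫ x in s₁..s₂, 2 * (I * (F.J x : ℂ) + ((F.V x).im : ℂ)) := by
    rw [← smul_eq_mul, h]
    apply intervalIntegral.integral_congr
    intro x _
    exact hre x
  have h3 := congrArg Complex.im h2
  have hJc := F.J_cont
  have hVc := F.V_cont
  have hcc : Continuous fun x : ℝ => 2 * (I * (F.J x : ℂ) + ((F.V x).im : ℂ)) :=
    continuous_const.mul ((continuous_const.mul (Complex.continuous_ofReal.comp hJc)).add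
      (Complex.continuous_ofReal.comp (Complex.continuous_im.comp hVc)))
  have h4 := Complex.imCLM.intervalIntegral_comp_comm
    (hcc.intervalIntegrable (μ := volume) s₁ s₂)
  simp only [Complex.imCLM_apply] at h4
  rw [← h4] at h3
  have h5 : ∀ x : ℝ, (2 * (I * (F.J x : ℂ) + ((F.V x).im : ℂ))).im = 2 * F.J x := by
    intro x; simp
  simp only [h5] at h3
  rw [← h3]
  simp

end LF
end H1R3.Z
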