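import Pool.Agent.H1R3.Z.Energy
set_option autoImplicit false
open MeasureTheory Set Filter Topology Complex

namespace H1R3.Z
namespace LF

variable (F : LF)

theorem J_eq (s : ℝ) :
    F.J s = ∫ θ in (0:ℝ)..2 * Real.pi, KK (F.u (s + θ * I)) * (F.p (s + θ * I)).re := by
  have hc : Continuous fun y : ℝ => F.vf (s + y * I) := F.vf_cont.comp (by fun_prop)
  have h := Complex.reCLM.intervalIntegral_comp_comm
    (hc.intervalIntegrable (μ := volume) 0 (2 * Real.pi))
  simp only [J, V]
  simp only [Complex.reCLM_apply] at h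
  rw [← h]
  apply intervalIntegral.integral_congr
  intro θ _
  simp [vf]

/-- the profile on a circle -/
noncomputable def f (s θ : ℝ) : ℝ := chi (F.u (s + θ * I))

/-- measure of the support -/
noncomputable def m (s : ℝ) : ℝ := ∫ θ in (0:ℝ)..2 * Real.pi, ind (F.f s) θ

theorem curve_deriv (s θ : ℝ) : HasDerivAt (fun t : ℝ => (s : ℂ) + t * I) I θ := by
  have h1 : HasDerivAt (fun t : ℝ => (t : ℂ)) 1 θ := Complex.ofRealCLM.hasDerivAt
  have h2 := (h1.mul_const I).const_add (s : ℂ)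
  simpa using h2

theorem f_deriv (s θ : ℝ) :
    HasDerivAt (F.f s) (-(psi (F.u (s + θ * I)) * (F.p (s + θ * I)).im)) θ := by
  have h := (F.cut_fd chi_deriv (fun x hx => chi_zero hx) (s + θ * I)).comp_hasDerivAt θ
    (curve_deriv s θ)
  rw [F.cut_val] at h
  refine h.congr_deriv ?_
  simp

theorem psi_p_cont : Continuous fun ζ => (psi (F.u ζ) : ℂ) * F.p ζ := by
  have h1 := (cutoff_cont psi_cont (fun x hx => psi_zero hx)).comp F.gc
  have h2 : Continuous fun ζ => (psi (Real.log ‖F.g ζ‖) : ℂ) * (F.g ζ)⁻¹ * F.g1 ζ := h1.mul F.g1c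
  convert h2 using 1
  funext ζ
  simp only [p, u, div_eq_mul_inv]
  ring

theorem f_cont (s : ℝ) : Continuous (F.f s) :=
  continuous_iff_continuousAt.2 fun x => (F.f_deriv s x).continuousAt

theorem f_per (s θ : ℝ) : F.f s (θ + 2 * Real.pi) = F.f s θ := by
  simp only [f, u]
  have e : (s:ℂ) + ((θ + 2 * Real.pi : ℝ) : ℂ) * I = (s + (θ:ℂ) * I) + 2 * Real.pi * I := by
    push_cast; ring
  rw [e, F.per]

theorem int_shift {q : ℝ → ℝ} (hq : ∀ θ, q (θ + 2 * Real.pi) = q θ) (t : ℝ) :
    ∫ θ in t..t + 2 * Real.pi, q θ = ∫ θ in (0:ℝ)..2 * Real.pi, q θ := by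
  have h := Function.Periodic.intervalIntegral_add_eq (f := q) (T := 2 * Real.pi) hq t 0
  rw [zero_add] at h
  exact h

theorem m_nonneg (s : ℝ) : 0 ≤ F.m s :=
  intervalIntegral.integral_nonneg two_pi_pos' fun _ _ => ind_nonneg _ _

theorem J_le (s θ₀ : ℝ) (h0 : ‖F.g (s + θ₀ * I)‖ ≤ 1) :
    F.J s ≤ F.m s / (2 * Real.pi) * F.En s := by
  have hfz : F.f s θ₀ = 0 := by
    simp only [f, u]; exact chi_zero (Real.log_nonpos (norm_nonneg _) h0)
  have hc1 : Continuous fun θ : ℝ => (psi (F.u (s + θ * I)) : ℂ) * F.p (s + θ * I) :=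
    F.psi_p_cont.comp (by fun_prop)
  have hcim : Continuous fun θ : ℝ => psi (F.u (s + θ * I)) * (F.p (s + θ * I)).im := by
    have := Complex.continuous_im.comp hc1
    convert this using 1
    funext θ; simp
  have hcre : Continuous fun θ : ℝ => psi (F.u (s + θ * I)) * (F.p (s + θ * I)).re := by
    have := Complex.continuous_re.comp hc1
    convert this using 1
    funext θ; simp
  have hw := wirt (F.f s) (fun θ => -(psi (F.u (s + θ * I)) * (F.p (s + θ * I)).im))
    θ₀ (θ₀ + 2 * Real.pi) (by linarith [Real.pi_pos]) (F.f_deriv s) hcim.neg hfz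
    (by rw [F.f_per]; exact hfz)
  have hpp : ∀ θ : ℝ, F.p (s + ((θ + 2 * Real.pi : ℝ) : ℂ) * I) = F.p (s + θ * I) := by
    intro θ
    have e : (s:ℂ) + ((θ + 2 * Real.pi : ℝ) : ℂ) * I = (s + (θ:ℂ) * I) + 2 * Real.pi * I := by
      push_cast; ring
    simp only [p]; rw [e, F.per, F.per1]
  have hup : ∀ θ : ℝ, F.u (s + ((θ + 2 * Real.pi : ℝ) : ℂ) * I) = F.u (s + θ * I) := by
    intro θ
    have e : (s:ℂ) + ((θ + 2 * Real.pi : ℝ) : ℂ) * I = (s + (θ:ℂ) * I) + 2 * Real.pi * I := by
      push_cast; ring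
    simp only [u]; rw [e, F.per]
  rw [int_shift (fun θ => by rw [F.f_per]), int_shift (fun θ => by
      simp only [ind, Set.indicator, Set.mem_ofPred_eq]; rw [F.f_per]),
    int_shift (fun θ => by rw [hpp, hup])] at hw
  set X : ℝ := ∫ θ in (0:ℝ)..2 * Real.pi, (-(psi (F.u (s + θ * I)) * (F.p (s + θ * I)).im)) ^ 2
    with hX
  set Y : ℝ := ∫ θ in (0:ℝ)..2 * Real.pi, (psi (F.u (s + θ * I)) * (F.p (s + θ * I)).re) ^ 2
    with hY
  have hX0 : 0 ≤ X := intervalIntegral.integral_nonneg two_pi_pos' fun _ _ => sq_nonneg _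
  have hY0 : 0 ≤ Y := intervalIntegral.integral_nonneg two_pi_pos' fun _ _ => sq_nonneg _
  have hcim2 : Continuous fun θ : ℝ => (-(psi (F.u (s + θ * I)) * (F.p (s + θ * I)).im)) ^ 2 :=
    hcim.neg.pow 2
  have hcre2 : Continuous fun θ : ℝ => (psi (F.u (s + θ * I)) * (F.p (s + θ * I)).re) ^ 2 :=
    hcre.pow 2
  have hXY : X + Y = F.En s := by
    rw [hX, hY, ← intervalIntegral.integral_add (hcim2.intervalIntegrable _ _)
      (hcre2.intervalIntegrable _ _), En]
    apply intervalIntegral.integral_congr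
    intro θ _
    simp only [en]
    rw [← Complex.normSq_eq_norm_sq, Complex.normSq_apply]
    ring
  have hJt : ∀ t : ℝ, 0 < t → F.J s ≤ 1 / 2 * (t * (∫ θ in (0:ℝ)..2 * Real.pi, F.f s θ ^ 2)
      + 1 / t * Y) := by
    intro t ht
    have hcf := F.f_cont s
    have hcf2 : Continuous fun θ : ℝ => t * F.f s θ ^ 2 := continuous_const.mul (hcf.pow 2)
    have hcr2 : Continuous fun θ : ℝ =>
      1 / t * (psi (F.u (s + θ * I)) * (F.p (s + θ * I)).re) ^ 2 := continuous_const.mul hcre2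
    rw [F.J_eq, hY, ← intervalIntegral.integral_const_mul, ← intervalIntegral.integral_const_mul,
      ← intervalIntegral.integral_add (hcf2.intervalIntegrable _ _)
      (hcr2.intervalIntegrable _ _),
      ← intervalIntegral.integral_const_mul]
    apply intervalIntegral.integral_mono_on two_pi_pos'
    · have hv : Continuous fun y : ℝ => F.vf (s + y * I) := F.vf_cont.comp (by fun_prop)
      have h9 := Complex.continuous_re.comp hv
      have h10 : Continuous fun θ : ℝ => KK (F.u (s + θ * I)) * (F.p (s + θ * I)).re := by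
        convert h9 using 1
        funext θ; simp [vf]
      exact h10.intervalIntegrable _ _
    · exact (continuous_const.mul (hcf2.add hcr2)).intervalIntegrable _ _
    · intro θ _
      set a := psi (F.u (s + θ * I)) with ha
      set b := (F.p (s + θ * I)).re with hb
      have hf1 : F.f s θ = chi (F.u (s + θ * I)) := rfl
      set c := chi (F.u (s + θ * I)) with hcc
      have hk : KK (F.u (s + θ * I)) ≤ a * c := KK_le _
      have hk0 := KK_nonneg (F.u (s + θ * I))
      have h1 : KK (F.u (s + θ * I)) * b ≤ a * c * |b| := by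
        calc KK (F.u (s + θ * I)) * b ≤ KK (F.u (s + θ * I)) * |b| :=
              mul_le_mul_of_nonneg_left (le_abs_self b) hk0
          _ ≤ a * c * |b| := mul_le_mul_of_nonneg_right hk (abs_nonneg b)
      have h2 : a * c * |b| ≤ 1 / 2 * (t * c ^ 2 + 1 / t * (a * b) ^ 2) := by
        have h3 : (a * b) ^ 2 = (a * |b|) ^ 2 := by rw [mul_pow, mul_pow, sq_abs]
        rw [h3]
        have h4 : 0 ≤ (t * c - a * |b|) ^ 2 / t := by positivity
        have h5 : (t * c - a * |b|) ^ 2 / t = t * c ^ 2 + 1 / t * (a * |b|) ^ 2 - 2 * (a * c * |b|) := by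
          field_simp; ring
        rw [h5] at h4
        linarith
      rw [hf1]
      exact h1.trans h2
  have hm0 := F.m_nonneg s
  rcases hm0.eq_or_lt with hm | hm
  · -- m = 0
    have hm' : (∫ x in (0:ℝ)..2 * Real.pi, ind (F.f s) x) = 0 := hm.symm
    rw [hm'] at hw
    have hF0 : (∫ θ in (0:ℝ)..2 * Real.pi, F.f s θ ^ 2) = 0 := by
      have h1 : 0 ≤ ∫ θ in (0:ℝ)..2 * Real.pi, F.f s θ ^ 2 :=
        intervalIntegral.integral_nonneg two_pi_pos' fun _ _ => sq_nonneg _
      have hp : 0 < Real.pi ^ 2 := by positivity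
      nlinarith
    rw [← hm]
    rw [hF0] at hJt
    by_contra hcon
    have hJpos : 0 < F.J s := by
      simp only [zero_div, zero_mul, not_le] at hcon; exact hcon
    have h2 := hJt ((Y + 1) / F.J s) (by positivity)
    have h3 : 1 / 2 * ((Y + 1) / F.J s * 0 + 1 / ((Y + 1) / F.J s) * Y) = F.J s * (Y / (2 * (Y + 1))) := by
      field_simp; ring
    rw [h3] at h2
    have h4 : Y / (2 * (Y + 1)) < 1 := by
      rw [div_lt_one (by positivity)]; linarith
    nlinarith
  · have hmm : (∫ x in (0:ℝ)..2 * Real.pi, ind (F.f s) x) = F.m s := rfl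
    rw [hmm] at hw
    have h1 := hJt (Real.pi / F.m s) (div_pos Real.pi_pos hm)
    have hp := Real.pi_pos
    have h2 : (∫ θ in (0:ℝ)..2 * Real.pi, F.f s θ ^ 2) ≤ (F.m s / Real.pi) ^ 2 * X := by
      have h5 : (F.m s / Real.pi) ^ 2 * X = (F.m s ^ 2 * X) / Real.pi ^ 2 := by
        rw [div_pow]; ring
      rw [h5, le_div_iff₀ (by positivity)]
      linarith
    have h3 : Real.pi / F.m s * (∫ θ in (0:ℝ)..2 * Real.pi, F.f s θ ^ 2) ≤
        F.m s / Real.pi * X := by
      calc Real.pi / F.m s * (∫ θ in (0:ℝ)..2 * Real.pi, F.f s θ ^ 2) ≤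
            Real.pi / F.m s * ((F.m s / Real.pi) ^ 2 * X) :=
              mul_le_mul_of_nonneg_left h2 (div_pos hp hm).le
        _ = F.m s / Real.pi * X := by field_simp
    have h4 : 1 / (Real.pi / F.m s) * Y = F.m s / Real.pi * Y := by
      rw [one_div_div]
    rw [h4] at h1
    rw [← hXY]
    have h6 : F.m s / (2 * Real.pi) * (X + Y) = 1 / 2 * (F.m s / Real.pi * X + F.m s / Real.pi * Y) := by
      field_simp
    rw [h6]
    linarith

theorem A_le (s B : ℝ) (hB : ∀ θ : ℝ, F.u (s + θ * I) ≤ B) : F.A s ≤ 2 * Real.pi * B ^ 2 := by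
  have h1 : F.A s ≤ ∫ θ in (0:ℝ)..2 * Real.pi, B ^ 2 := by
    apply intervalIntegral.integral_mono_on two_pi_pos'
    · exact Continuous.intervalIntegrable (F.Xi_u_cont.comp (by fun_prop)) _ _
    · exact intervalIntegrable_const
    · intro θ _
      exact Xi_le_of_le (hB θ)
  simpa using h1

theorem A_nonneg (s : ℝ) : 0 ≤ F.A s :=
  intervalIntegral.integral_nonneg two_pi_pos' fun _ _ => Xi_nonneg _

theorem J_le_A (s : ℝ) : 2 * F.J s ≤ F.A (s + 1) := by
  have h1 := F.A_diff s (s + 1)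
  have h2 : 2 * F.J s ≤ ∫ t in s..s + 1, 2 * F.J t := by
    have h3 : ∫ t in s..s + 1, 2 * F.J s ≤ ∫ t in s..s + 1, 2 * F.J t := by
      apply intervalIntegral.integral_mono_on (by linarith)
      · exact intervalIntegrable_const
      · exact (continuous_const.mul F.J_cont).intervalIntegrable _ _
      · intro t ht
        exact mul_le_mul_of_nonneg_left (F.J_mono ht.1) zero_le_two
    simpa using h3
  have h3 := F.A_nonneg s
  linarith

theorem vf_norm (ζ : ℂ) : ‖F.vf ζ‖ ≤ ‖F.g1 ζ‖ := by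
  simp only [vf, p, norm_mul, norm_div, Complex.norm_real, Real.norm_eq_abs]
  rw [abs_of_nonneg (KK_nonneg _)]
  by_cases h : ‖F.g ζ‖ ≤ 1
  · simp only [u]
    rw [KK_zero (Real.log_nonpos (norm_nonneg _) h)]
    simp
  · push Not at h
    have h1 : KK (F.u ζ) ≤ ‖F.g ζ‖ := by
      calc KK (F.u ζ) ≤ F.u ζ := KK_le_self (Real.log_nonneg h.le)
        _ ≤ ‖F.g ζ‖ - 1 := Real.log_le_sub_one_of_pos (by linarith)
        _ ≤ ‖F.g ζ‖ := by linarith
    have h2 : 0 < ‖F.g ζ‖ := by linarith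
    rw [mul_div_assoc', div_le_iff₀ h2, mul_comm]
    exact mul_le_mul_of_nonneg_left h1 (norm_nonneg _)

theorem J_abs (s M : ℝ) (hM : ∀ θ : ℝ, ‖F.g1 (s + θ * I)‖ ≤ M) : |F.J s| ≤ M * (2 * Real.pi) := by
  have h1 : ‖F.V s‖ ≤ M * |2 * Real.pi - 0| :=
    intervalIntegral.norm_integral_le_of_norm_le_const fun θ _ => (F.vf_norm _).trans (hM θ)
  rw [sub_zero, abs_of_nonneg two_pi_pos'] at h1
  exact (Complex.abs_re_le_norm _).trans h1

end LF

/-- the log-coordinates lift of an entire function -/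
noncomputable def lift (G : ℂ → ℂ) (hG : Differentiable ℂ G) : LF where
  g ζ := G (exp ζ)
  g1 ζ := deriv G (exp ζ) * exp ζ
  g2 ζ := deriv (deriv G) (exp ζ) * exp ζ * exp ζ + deriv G (exp ζ) * exp ζ
  hg ζ := (hG (exp ζ)).hasDerivAt.comp ζ (Complex.hasDerivAt_exp ζ)
  hg1 ζ := by
    have h1 : Differentiable ℂ (deriv G) := hG.deriv
    exact ((h1 (exp ζ)).hasDerivAt.comp ζ (Complex.hasDerivAt_exp ζ)).mul (Complex.hasDerivAt_exp ζ)
  per ζ := by simp [Complex.exp_add]
  per1 ζ := by simp [Complex.exp_add]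

theorem norm_exp_pt (s θ : ℝ) : ‖exp ((s:ℂ) + θ * I)‖ = Real.exp s := by
  rw [Complex.norm_exp]; simp

theorem lift_J_nonneg (G : ℂ → ℂ) (hG : Differentiable ℂ G) (s : ℝ) : 0 ≤ (lift G hG).J s := by
  obtain ⟨M, hM⟩ := (isCompact_closedBall (0:ℂ) 1).exists_bound_of_continuousOn
    (hG.deriv.continuous).continuousOn
  have hM0 : 0 ≤ M := (norm_nonneg _).trans (hM 0 (by simp))
  by_contra hcon
  push Not at hcon
  have h1 : ∀ t ≤ min s 0, (lift G hG).J s ≥ -(M * Real.exp t * (2 * Real.pi)) := by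
    intro t ht
    have h2 : |(lift G hG).J t| ≤ M * Real.exp t * (2 * Real.pi) := by
      apply LF.J_abs
      intro θ
      show ‖deriv G (exp (t + θ * I)) * exp (t + θ * I)‖ ≤ _
      rw [norm_mul, norm_exp_pt]
      apply mul_le_mul_of_nonneg_right _ (Real.exp_pos _).le
      apply hM
      rw [mem_closedBall_zero_iff, norm_exp_pt]
      rw [← Real.exp_zero]
      exact Real.exp_le_exp.2 (ht.trans (min_le_right _ _))
    have h3 := (lift G hG).J_mono (ht.trans (min_le_left _ _))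
    have h4 := (abs_le.1 h2).1
    linarith
  have h2 : Tendsto (fun t : ℝ => -(M * Real.exp t * (2 * Real.pi))) atBot (𝓝 0) := by
    have := ((Real.tendsto_exp_atBot.const_mul M).mul_const (2 * Real.pi)).neg
    simpa using this
  have h3 := le_of_tendsto h2 ((eventually_le_atBot (min s 0)).mono fun t ht => h1 t ht)
  linarith

theorem lift_J_pos (G : ℂ → ℂ) (hG : Differentiable ℂ G) (hub : ∀ C : ℝ, ∃ z, C < ‖G z‖) :
    ∃ s, 0 < (lift G hG).J s := by
  by_contra hcon
  push Not at hcon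
  have hJ0 : ∀ s, (lift G hG).J s = 0 := fun s => le_antisymm (hcon s) (lift_J_nonneg G hG s)
  have hEn : ∀ s, (lift G hG).En s = 0 := by
    intro s
    have h1 := (lift G hG).J_deriv s
    have h2 : (lift G hG).J = fun _ => 0 := funext hJ0
    rw [h2] at h1
    exact h1.unique (hasDerivAt_const s (0:ℝ))
  have hen : ∀ s θ : ℝ, (lift G hG).en (s + θ * I) = 0 := by
    intro s θ
    have hq : ∀ t : ℝ, (lift G hG).en (s + ((t + 2 * Real.pi : ℝ) : ℂ) * I) =
        (lift G hG).en (s + (t:ℂ) * I) := by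
      intro t
      have e : (s:ℂ) + ((t + 2 * Real.pi : ℝ) : ℂ) * I = (s + (t:ℂ) * I) + 2 * Real.pi * I := by
        push_cast; ring
      simp only [LF.en, LF.u, LF.p]; rw [e, LF.per, LF.per1]
    have h1 : ∫ t in θ..θ + 2 * Real.pi, (lift G hG).en (s + t * I) = 0 := by
      rw [LF.int_shift hq]; exact hEn s
    have hc : Continuous fun t : ℝ => (lift G hG).en (s + t * I) :=
      (lift G hG).en_cont.comp (by fun_prop)
    by_contra hne
    have hpos : 0 < (lift G hG).en (s + θ * I) :=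
      lt_of_le_of_ne ((lift G hG).en_nonneg _) (Ne.symm hne)
    have h2 : 0 < ∫ t in θ..θ + 2 * Real.pi, (lift G hG).en (s + t * I) := by
      apply intervalIntegral.integral_pos (by linarith [Real.pi_pos]) hc.continuousOn
        (fun x _ => (lift G hG).en_nonneg _)
      exact ⟨θ, ⟨le_rfl, by linarith [Real.pi_pos]⟩, hpos⟩
    linarith
  -- derivative vanishes where the modulus exceeds one
  have hder : ∀ z : ℂ, z ≠ 0 → 1 < ‖G z‖ → deriv G z = 0 := by
    intro z hz hGz
    have e : z = exp ((Real.log ‖z‖ : ℝ) + (arg z : ℝ) * I) := by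
      rw [Complex.exp_add, ← Complex.ofReal_exp, Real.exp_log (norm_pos_iff.2 hz)]
      exact (Complex.norm_mul_exp_arg_mul_I z).symm
    have h1 := hen (Real.log ‖z‖) (arg z)
    have h2 : (lift G hG).u ((Real.log ‖z‖ : ℝ) + (arg z : ℝ) * I) = Real.log ‖G z‖ := by
      show Real.log ‖G (exp _)‖ = _
      rw [← e]
    have h3 : (lift G hG).p ((Real.log ‖z‖ : ℝ) + (arg z : ℝ) * I) = deriv G z * z / G z := by
      show deriv G (exp _) * exp _ / G (exp _) = _
      rw [← e]
    simp only [LF.en] at h1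
    rw [h2, h3] at h1
    have h4 : 0 < psi (Real.log ‖G z‖) := psi_pos (Real.log_pos hGz)
    have hGne : G z ≠ 0 := by
      intro h; rw [h] at hGz; simp at hGz; linarith
    have h5 : ‖deriv G z * z / G z‖ ^ 2 = 0 := by
      rcases mul_eq_zero.1 h1 with h | h
      · exact absurd h (by positivity)
      · exact h
    have h6 : deriv G z * z / G z = 0 := by
      rwa [pow_eq_zero_iff two_ne_zero, norm_eq_zero] at h5
    rw [div_eq_zero_iff] at h6
    rcases h6 with h6 | h6
    · rcases mul_eq_zero.1 h6 with h7 | h7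
      · exact h7
      · exact absurd h7 hz
    · exact absurd h6 hGne
  obtain ⟨w, hw⟩ := hub (max 1 ‖G 0‖)
  have hw1 : 1 < ‖G w‖ := lt_of_le_of_lt (le_max_left _ _) hw
  have hw0 : w ≠ 0 := by
    intro h; rw [h] at hw
    exact absurd (le_max_right 1 ‖G 0‖) (not_le.2 hw)
  have hopen : {z : ℂ | z ≠ 0 ∧ 1 < ‖G z‖} ∈ 𝓝 w := by
    refine IsOpen.mem_nhds ?_ (show w ≠ 0 ∧ 1 < ‖G w‖ from ⟨hw0, hw1⟩)
    exact (isOpen_ne_fun continuous_id continuous_const).inter
      (isOpen_lt continuous_const hG.continuous.norm)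
  have hev : deriv G =ᶠ[𝓝 w] fun _ => (0:ℂ) := by
    filter_upwards [hopen] with z hz
    exact hder z hz.1 hz.2
  have han : AnalyticOnNhd ℂ (deriv G) Set.univ :=
    (hG.deriv).differentiableOn.analyticOnNhd isOpen_univ
  have hall : deriv G = fun _ => (0:ℂ) :=
    han.eq_of_eventuallyEq (analyticOnNhd_const) hev
  have hconst : ∀ x y, G x = G y :=
    is_const_of_deriv_eq_zero hG (fun x => congrFun hall x)
  obtain ⟨z, hz⟩ := hub ‖G 0‖
  rw [hconst z 0] at hz
  exact lt_irrefl _ hz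

end H1R3.Z
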