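import Pool.Agent.H1R3.Z.Had3
set_option autoImplicit false
open Set Filter Topology Complex Metric

namespace H1R3.Z

/-- division by a function with simple zeros -/
theorem division {G c : ℂ → ℂ} (hG : Differentiable ℂ G) (hc : Differentiable ℂ c)
    (hs : ∀ z, G z = 0 → deriv G z ≠ 0) (hz : ∀ z, G z = 0 → c z = 0) :
    ∃ E : ℂ → ℂ, Differentiable ℂ E ∧ ∀ z, G z * E z = c z := by
  classical
  set E : ℂ → ℂ := fun z => if G z = 0 then deriv c z / deriv G z else c z / G z with hE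
  refine ⟨E, ?_, ?_⟩
  · intro z₀
    by_cases h0 : G z₀ = 0
    · have hG' := hs z₀ h0
      have hev : E =ᶠ[𝓝 z₀] fun z => dslope c z₀ z / dslope G z₀ z := by
        have h2 := (hG z₀).hasDerivAt.eventually_ne hG' (c := 0)
        rw [eventually_nhdsWithin_iff] at h2
        filter_upwards [h2] with z hzz
        by_cases hzz0 : z = z₀
        · rw [hzz0, dslope_same, dslope_same]
          simp [hE, h0]
        · have hGz : G z ≠ 0 := hzz hzz0
          simp only [hE, if_neg hGz]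
          rw [dslope_of_ne _ hzz0, dslope_of_ne _ hzz0, slope_def_field, slope_def_field, h0,
            hz z₀ h0, sub_zero, sub_zero]
          have : z - z₀ ≠ 0 := sub_ne_zero.2 hzz0
          field_simp
      apply DifferentiableAt.congr_of_eventuallyEq _ hev
      apply DifferentiableAt.div
      · have : DifferentiableOn ℂ (dslope c z₀) univ :=
          (Complex.differentiableOn_dslope univ_mem).2 hc.differentiableOn
        exact (differentiableOn_univ.1 this) z₀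
      · have : DifferentiableOn ℂ (dslope G z₀) univ :=
          (Complex.differentiableOn_dslope univ_mem).2 hG.differentiableOn
        exact (differentiableOn_univ.1 this) z₀
      · rw [dslope_same]; exact hG'
    · have hev : E =ᶠ[𝓝 z₀] fun z => c z / G z := by
        have h2 : ∀ᶠ z in 𝓝 z₀, G z ≠ 0 := hG.continuous.continuousAt.eventually_ne h0
        filter_upwards [h2] with z hzz
        simp [hE, hzz]
      apply DifferentiableAt.congr_of_eventuallyEq _ hev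
      exact (hc z₀).div (hG z₀) h0
  · intro z
    by_cases h0 : G z = 0
    · rw [h0, zero_mul, hz z h0]
    · simp only [hE, if_neg h0]
      field_simp

theorem deriv_bound {G : ℂ → ℂ} {A B : ℝ} (hG : ET G A B) (w : ℂ) :
    ‖deriv G w‖ ≤ Real.exp (A + B * (‖w‖ + 1)) := by
  have h := Complex.norm_deriv_le_of_forall_mem_sphere_norm_le (f := G) (c := w) (R := 1)
    (C := Real.exp (A + B * (‖w‖ + 1))) one_pos hG.diff.diffContOnCl (by
      intro z hz
      refine (hG.bound z).trans (Real.exp_le_exp.2 ?_)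
      have h1 : ‖z‖ ≤ ‖w‖ + 1 := by
        have := norm_add_le (z - w) w
        rw [sub_add_cancel] at this
        rw [mem_sphere_iff_norm] at hz
        linarith
      have := mul_le_mul_of_nonneg_left h1 hG.B0
      linarith)
  simpa using h

theorem dslope_bound {G : ℂ → ℂ} {A B : ℝ} (hG : ET G A B) (l z : ℂ) (hl : G l = 0) :
    ‖dslope G l z‖ ≤ Real.exp (A + 2 * B + B * ‖z‖) := by
  have hB := hG.B0
  rcases le_or_gt 1 ‖z - l‖ with h | h
  · have hne : z ≠ l := by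
      intro h1; rw [h1, sub_self, norm_zero] at h; linarith
    rw [dslope_of_ne _ hne, slope_def_field, hl, sub_zero, norm_div]
    calc ‖G z‖ / ‖z - l‖ ≤ ‖G z‖ := div_le_self (norm_nonneg _) h
      _ ≤ Real.exp (A + B * ‖z‖) := hG.bound z
      _ ≤ _ := by apply Real.exp_le_exp.2; linarith
  · have hb : ∀ w ∈ ball z 1, ‖deriv G w‖ ≤ Real.exp (A + 2 * B + B * ‖z‖) := by
      intro w hw
      refine (deriv_bound hG w).trans (Real.exp_le_exp.2 ?_)
      have h1 : ‖w‖ ≤ ‖z‖ + 1 := by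
        have := norm_add_le (w - z) z
        rw [sub_add_cancel] at this
        rw [mem_ball_iff_norm] at hw
        linarith
      have := mul_le_mul_of_nonneg_left h1 hB
      nlinarith
    have hlm : l ∈ ball z 1 := by rw [mem_ball_iff_norm, norm_sub_rev]; exact h
    by_cases hne : z = l
    · rw [← hne, dslope_same]
      exact hb z (mem_ball_self one_pos)
    · rw [dslope_of_ne _ hne, slope_def_field, norm_div]
      have hp : 0 < ‖z - l‖ := norm_pos_iff.2 (sub_ne_zero.2 hne)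
      rw [div_le_iff₀ hp]
      exact Convex.norm_image_sub_le_of_norm_deriv_le (fun x _ => hG.diff x) hb (convex_ball z 1)
        hlm (mem_ball_self one_pos)

/-- radius attached to a zero -/
noncomputable def rho (c₁ : ℝ) (l : ℂ) : ℝ := Real.exp (-(c₁ / 2 * ‖l‖))

theorem rho_pos (c₁ : ℝ) (l : ℂ) : 0 < rho c₁ l := Real.exp_pos _

theorem inv_dist_bound {c₁ : ℝ} (hc : 0 < c₁) (z l : ℂ) (h : rho c₁ l ≤ ‖z - l‖) :
    ‖z - l‖⁻¹ ≤ 4 / (1 + ‖z‖) * ((1 + ‖l‖) * Real.exp (c₁ / 2 * ‖l‖)) := by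
  have hzp : 0 < 1 + ‖z‖ := by positivity
  have hlp : 0 ≤ ‖l‖ := norm_nonneg l
  have he : 1 ≤ Real.exp (c₁ / 2 * ‖l‖) := Real.one_le_exp (by positivity)
  have h1 : ‖z - l‖⁻¹ ≤ Real.exp (c₁ / 2 * ‖l‖) := by
    rw [← inv_inv (Real.exp (c₁ / 2 * ‖l‖)), ← Real.exp_neg]
    exact inv_anti₀ (rho_pos c₁ l) h
  have hn : ‖z‖ ≤ ‖z - l‖ + ‖l‖ := by
    have := norm_add_le (z - l) l; rwa [sub_add_cancel] at this
  rw [div_mul_eq_mul_div, le_div_iff₀ hzp]
  rcases le_or_gt (1 + ‖z‖) (4 * (1 + ‖l‖)) with h2 | h2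
  · calc ‖z - l‖⁻¹ * (1 + ‖z‖) ≤ Real.exp (c₁ / 2 * ‖l‖) * (4 * (1 + ‖l‖)) :=
          mul_le_mul h1 h2 hzp.le (Real.exp_pos _).le
      _ = _ := by ring
  · have h3 : (1 + ‖z‖) / 4 ≤ ‖z - l‖ := by linarith
    have h4 : 0 < ‖z - l‖ := by linarith [h3, hzp]
    have h5 : ‖z - l‖⁻¹ * (1 + ‖z‖) ≤ 4 := by
      rw [inv_mul_le_iff₀ h4]; linarith
    refine h5.trans ?_
    have : 1 ≤ (1 + ‖l‖) * Real.exp (c₁ / 2 * ‖l‖) := by nlinarith
    linarith

theorem interp {G : ℂ → ℂ} {A B : ℝ} (hG : ET G A B) (hs : ∀ z, G z = 0 → deriv G z ≠ 0)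
    {a : ℂ} (ha : G a ≠ 0) {c₁ Kb : ℝ} (hc₁ : 0 < c₁) (hKb : 0 < Kb)
    (hbig : ∀ l, G l = 0 → ‖deriv G l‖⁻¹ ≤ Kb * Real.exp (-(c₁ * ‖l‖))) :
    ∃ E : ℂ → ℂ, (∃ A₂ B₂, ET E A₂ B₂) ∧ ∃ C₄ : ℝ, 0 < C₄ ∧
      ∀ z, (∀ l, G l = 0 → rho c₁ l ≤ ‖z - l‖) → ‖E z - 1 / G z‖ ≤ C₄ / (1 + ‖z‖) := by
  classical
  have hB := hG.B0
  set F : {z : ℂ // G z = 0} → ℂ → ℂ := fun l z => dslope G l z / deriv G l with hF
  have hsm := summable_zeros hG hs ha hc₁
  have hFb : ∀ (l : {z : ℂ // G z = 0}) (z : ℂ), ‖F l z‖ ≤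
      Real.exp (A + 2 * B + B * ‖z‖) * Kb * Real.exp (-(c₁ * ‖(l:ℂ)‖)) := by
    intro l z
    simp only [hF]
    rw [norm_div, div_eq_mul_inv, mul_assoc]
    exact mul_le_mul (dslope_bound hG l z l.2) (hbig l l.2) (by positivity) (Real.exp_pos _).le
  set T : ℂ → ℂ := fun z => ∑' l, F l z with hT
  have hTd : Differentiable ℂ T := by
    intro z₀
    have h1 : DifferentiableOn ℂ T (ball 0 (‖z₀‖ + 1)) := by
      apply Complex.differentiableOn_tsum_of_summable_norm
        (u := fun l : {z : ℂ // G z = 0} => Real.exp (A + 2 * B + B * (‖z₀‖ + 1)) * Kb *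
          Real.exp (-(c₁ * ‖(l:ℂ)‖)))
      · exact hsm.mul_left _
      · intro l
        have : DifferentiableOn ℂ (dslope G l) univ :=
          (Complex.differentiableOn_dslope univ_mem).2 hG.diff.differentiableOn
        exact (this.mono (subset_univ _)).div_const _
      · exact isOpen_ball
      · intro l w hw
        rw [mem_ball_zero_iff] at hw
        refine (hFb l w).trans ?_
        apply mul_le_mul_of_nonneg_right _ (Real.exp_pos _).le
        apply mul_le_mul_of_nonneg_right _ hKb.le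
        apply Real.exp_le_exp.2
        have := mul_le_mul_of_nonneg_left hw.le hB
        linarith
    exact h1.differentiableAt (isOpen_ball.mem_nhds (by rw [mem_ball_zero_iff]; linarith))
  set W₁ : ℝ := ∑' l : {z : ℂ // G z = 0}, Real.exp (-(c₁ * ‖(l:ℂ)‖)) with hW₁
  have hW₁0 : 0 ≤ W₁ := tsum_nonneg fun _ => (Real.exp_pos _).le
  have hTb : ∀ z, ‖T z‖ ≤ Real.exp (A + 2 * B + B * ‖z‖) * Kb * W₁ := by
    intro z
    exact tsum_of_norm_bounded (hsm.hasSum.mul_left _) (fun l => hFb l z)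
  have hT1 : ∀ z, G z = 0 → T z = 1 := by
    intro z hz
    simp only [hT]
    rw [tsum_eq_single ⟨z, hz⟩]
    · simp only [hF, dslope_same]
      exact div_self (hs z hz)
    · intro l hl
      simp only [hF]
      have hne : z ≠ (l:ℂ) := fun h => hl (Subtype.ext h.symm)
      rw [dslope_of_ne _ hne, slope_def_field, hz, l.2]
      simp
  obtain ⟨E, hEd, hGE⟩ := division hG.diff (c := fun z => 1 - T z)
    ((differentiable_const 1).sub hTd) hs (fun z hz => by rw [hT1 z hz, sub_self])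
  have hcET : ET (fun z => 1 - T z) (|A + 2 * B| + Real.log (1 + Kb * W₁)) B := by
    refine ⟨(differentiable_const 1).sub hTd, fun z => ?_, hB⟩
    have h1 : 0 ≤ Kb * W₁ := by positivity
    have h2 : 1 ≤ Real.exp (|A + 2 * B| + B * ‖z‖) := Real.one_le_exp (by positivity)
    have h3 : Real.exp (A + 2 * B + B * ‖z‖) ≤ Real.exp (|A + 2 * B| + B * ‖z‖) := by
      apply Real.exp_le_exp.2
      have := le_abs_self (A + 2 * B)
      linarith
    calc ‖1 - T z‖ ≤ ‖(1:ℂ)‖ + ‖T z‖ := norm_sub_le _ _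
      _ ≤ Real.exp (|A + 2 * B| + B * ‖z‖) + Real.exp (|A + 2 * B| + B * ‖z‖) * (Kb * W₁) := by
          rw [norm_one]
          apply add_le_add h2
          refine (hTb z).trans ?_
          rw [mul_assoc]
          exact mul_le_mul_of_nonneg_right h3 h1
      _ = Real.exp (|A + 2 * B| + B * ‖z‖) * (1 + Kb * W₁) := by ring
      _ = Real.exp (|A + 2 * B| + B * ‖z‖) * Real.exp (Real.log (1 + Kb * W₁)) := by
          rw [Real.exp_log (by positivity)]
      _ = _ := by rw [← Real.exp_add]; congr 1; ring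
  refine ⟨E, quot hG hs ha hcET hEd hGE, ?_⟩
  have hc4 : 0 < c₁ / 4 := by positivity
  have hsm4 := summable_zeros hG hs ha hc4
  set W₄ : ℝ := ∑' l : {z : ℂ // G z = 0}, Real.exp (-(c₁ / 4 * ‖(l:ℂ)‖)) with hW₄
  have hW₄0 : 0 ≤ W₄ := tsum_nonneg fun _ => (Real.exp_pos _).le
  refine ⟨4 * Kb * (1 + 4 / c₁) * (W₄ + 1), by positivity, ?_⟩
  intro z hz
  have hGz : G z ≠ 0 := by
    intro h
    have := hz z h
    rw [sub_self, norm_zero] at this
    exact absurd this (not_le.2 (rho_pos _ _))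
  have hEz : E z - 1 / G z = -(T z / G z) := by
    have := hGE z
    field_simp
    linear_combination this
  rw [hEz, norm_neg]
  have hTG : T z / G z = ∑' l : {z : ℂ // G z = 0}, 1 / ((z - l) * deriv G l) := by
    simp only [hT]
    rw [← tsum_div_const]
    apply tsum_congr
    intro l
    have hne : z ≠ (l:ℂ) := fun h => hGz (by rw [h]; exact l.2)
    simp only [hF]
    rw [dslope_of_ne _ hne, slope_def_field, l.2, sub_zero]
    have h1 : z - (l:ℂ) ≠ 0 := sub_ne_zero.2 hne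
    have h2 := hs l l.2
    field_simp
  rw [hTG]
  have hbound : ∀ l : {z : ℂ // G z = 0}, ‖1 / ((z - l) * deriv G l)‖ ≤
      4 * Kb * (1 + 4 / c₁) / (1 + ‖z‖) * Real.exp (-(c₁ / 4 * ‖(l:ℂ)‖)) := by
    intro l
    rw [norm_div, norm_one, norm_mul, one_div, mul_inv]
    have h1 := inv_dist_bound hc₁ z l (hz l l.2)
    have h2 := hbig l l.2
    have h3 : (1 + ‖(l:ℂ)‖) ≤ (1 + 4 / c₁) * Real.exp (c₁ / 4 * ‖(l:ℂ)‖) := by
      have h4 := Real.add_one_le_exp (c₁ / 4 * ‖(l:ℂ)‖)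
      have h5 : 1 + ‖(l:ℂ)‖ ≤ (1 + 4 / c₁) * (c₁ / 4 * ‖(l:ℂ)‖ + 1) := by
        have e : (1 + 4 / c₁) * (c₁ / 4 * ‖(l:ℂ)‖ + 1) = c₁ / 4 * ‖(l:ℂ)‖ + 1 + ‖(l:ℂ)‖ + 4 / c₁ := by
          field_simp; ring
        rw [e]
        have : 0 ≤ c₁ / 4 * ‖(l:ℂ)‖ := by positivity
        have : 0 ≤ 4 / c₁ := by positivity
        linarith
      refine h5.trans (mul_le_mul_of_nonneg_left h4 (by positivity))
    calc ‖z - (l:ℂ)‖⁻¹ * ‖deriv G l‖⁻¹ ≤
          (4 / (1 + ‖z‖) * ((1 + ‖(l:ℂ)‖) * Real.exp (c₁ / 2 * ‖(l:ℂ)‖))) *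
            (Kb * Real.exp (-(c₁ * ‖(l:ℂ)‖))) :=
          mul_le_mul h1 h2 (by positivity) (by positivity)
      _ ≤ (4 / (1 + ‖z‖) * (((1 + 4 / c₁) * Real.exp (c₁ / 4 * ‖(l:ℂ)‖)) *
            Real.exp (c₁ / 2 * ‖(l:ℂ)‖))) * (Kb * Real.exp (-(c₁ * ‖(l:ℂ)‖))) := by
          apply mul_le_mul_of_nonneg_right _ (by positivity)
          apply mul_le_mul_of_nonneg_left _ (by positivity)
          exact mul_le_mul_of_nonneg_right h3 (Real.exp_pos _).le
      _ = 4 * Kb * (1 + 4 / c₁) / (1 + ‖z‖) * (Real.exp (c₁ / 4 * ‖(l:ℂ)‖) *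
            Real.exp (c₁ / 2 * ‖(l:ℂ)‖) * Real.exp (-(c₁ * ‖(l:ℂ)‖))) := by ring
      _ = _ := by
          rw [← Real.exp_add, ← Real.exp_add]
          congr 2; ring
  have h5 := tsum_of_norm_bounded (hsm4.hasSum.mul_left _) hbound
  refine h5.trans ?_
  rw [div_mul_eq_mul_div]
  apply div_le_div_of_nonneg_right _ (by positivity)
  have : 0 < 4 * Kb * (1 + 4 / c₁) := by positivity
  nlinarith

end H1R3.Z
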