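import Pool.Agent.H1R3.Z.PL
import Pool.Agent.H1R3.Z.Interp
set_option autoImplicit false
open Set Filter Topology Complex Metric

namespace H1R3.Z

/-- positivity of the indicator in every direction -/
def Pos (L : ℂ → ℂ) : Prop := ∀ φ : ℝ, ∃ c : ℝ, 0 < c ∧ ∀ R : ℝ, ∃ r : ℝ, R < r ∧
  Real.exp (c * r) < ‖L (ray φ r)‖

theorem pos_lt {L : ℂ → ℂ} {φ c s : ℝ} (h : ∀ R : ℝ, ∃ r : ℝ, R < r ∧
    Real.exp (c * r) < ‖L (ray φ r)‖) (hs : RB L φ s) : c < s := by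
  obtain ⟨r₀, hr₀⟩ := eventually_atTop.1 hs
  obtain ⟨r, hr, hr2⟩ := h (max r₀ 0)
  have h1 := hr₀ r ((le_max_left _ _).trans hr.le)
  have h2 : 0 < r := (le_max_right _ _).trans_lt hr
  have h3 := Real.exp_lt_exp.1 (hr2.trans_le h1)
  exact lt_of_mul_lt_mul_right h3 h2.le

theorem unif_pos {L : ℂ → ℂ} {A B : ℝ} (hL : ET L A B) {B₁ : ℝ} (hB₁ : 0 ≤ B₁)
    (hall : ∀ θ, RB L θ B₁) (hp : Pos L) :
    ∃ c : ℝ, 0 < c ∧ ∀ θ ∈ Icc (-Real.pi) Real.pi, ∀ s, RB L θ s → c ≤ s := by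
  have hC0 : 0 ≤ B₁ / Real.sin 1 := div_nonneg hB₁ sin_one_pos.le
  set C := B₁ / Real.sin 1 with hC
  apply isCompact_Icc.induction_on (p := fun S => ∃ c : ℝ, 0 < c ∧ ∀ θ ∈ S, ∀ s, RB L θ s → c ≤ s)
  · exact ⟨1, one_pos, fun θ h => absurd h (notMem_empty _)⟩
  · rintro S T hST ⟨c, hc, h⟩
    exact ⟨c, hc, fun θ hθ => h θ (hST hθ)⟩
  · rintro S T ⟨c, hc, h⟩ ⟨c', hc', h'⟩
    refine ⟨min c c', lt_min hc hc', ?_⟩
    rintro θ (hθ | hθ) s hs
    · exact (min_le_left _ _).trans (h θ hθ s hs)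
    · exact (min_le_right _ _).trans (h' θ hθ s hs)
  · intro θ₀ _
    obtain ⟨c₀, hc₀, hpos⟩ := hp θ₀
    have hcB : c₀ < B₁ := pos_lt hpos (hall θ₀)
    set δ : ℝ := min 1 (c₀ / (4 * (C + 1))) with hδ
    have hδ0 : 0 < δ := lt_min one_pos (by positivity)
    refine ⟨Ioo (θ₀ - δ) (θ₀ + δ), mem_nhdsWithin_of_mem_nhds (Ioo_mem_nhds (by linarith)
      (by linarith)), c₀ / 2, by positivity, ?_⟩
    intro θ hθ s hs
    by_contra hcon
    push Not at hcon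
    have hd : |θ₀ - θ| ≤ δ := by rw [abs_le]; constructor <;> linarith [hθ.1, hθ.2]
    have hs' : RB L θ (max s 0) := hs.mono (le_max_left _ _)
    have h1 : max s 0 ≤ c₀ / 2 := max_le hcon.le (by positivity)
    obtain ⟨K, hK⟩ := sector_bound hL hall (le_max_right s 0) (by linarith) hs'
    have hCδ : C * |θ₀ - θ| ≤ c₀ / 4 := by
      calc C * |θ₀ - θ| ≤ C * (c₀ / (4 * (C + 1))) :=
            mul_le_mul_of_nonneg_left (hd.trans (min_le_right _ _)) hC0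
        _ = (C / (C + 1)) * (c₀ / 4) := by field_simp
        _ ≤ 1 * (c₀ / 4) := by
            apply mul_le_mul_of_nonneg_right _ (by positivity)
            rw [div_le_one (by positivity)]; linarith
        _ = c₀ / 4 := one_mul _
    have h2 : RB L θ₀ c₀ := by
      have h3 := hK θ₀ (hd.trans (min_le_left _ _))
      have h4 : RB L θ₀ (max s 0 + C * |θ₀ - θ| + c₀ / 8) := by
        filter_upwards [eventually_gt_atTop 0, eventually_ge_atTop (|K| / (c₀ / 8))] with r hr0 hr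
        refine (h3 r hr0).trans (Real.exp_le_exp.2 ?_)
        rw [div_le_iff₀ (by positivity)] at hr
        have := le_abs_self K
        nlinarith
      exact h4.mono (by linarith)
    exact lt_irrefl _ (pos_lt hpos h2)

theorem unif_upper {L : ℂ → ℂ} {A B : ℝ} (hL : ET L A B) {B₁ : ℝ} (hB₁ : 0 ≤ B₁)
    (hall : ∀ θ, RB L θ B₁) (hp : Pos L) (ε : ℝ) (hε : 0 < ε) :
    ∃ τ : ℝ, 0 < τ ∧ ∀ θ ∈ Icc (-Real.pi) Real.pi, ∀ s, RB L θ s → ∀ θ', |θ' - θ| < 1 / τ →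
      ∀ r, τ ≤ r → ‖L (ray θ' r)‖ ≤ Real.exp ((s + ε) * r) := by
  have hC0 : 0 ≤ B₁ / Real.sin 1 := div_nonneg hB₁ sin_one_pos.le
  set C := B₁ / Real.sin 1 with hC
  obtain ⟨c, hc, hcu⟩ := unif_pos hL hB₁ hall hp
  have key := isCompact_Icc.induction_on (s := Icc (-Real.pi) Real.pi)
    (p := fun S => ∃ τ : ℝ, 0 < τ ∧ ∀ θ ∈ S,
      θ ∈ Icc (-Real.pi) Real.pi → ∀ s, RB L θ s → ∀ θ', |θ' - θ| < 1 / τ →
      ∀ r, τ ≤ r → ‖L (ray θ' r)‖ ≤ Real.exp ((s + ε) * r)) ?_ ?_ ?_ ?_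
  · obtain ⟨τ, hτ, h⟩ := key
    exact ⟨τ, hτ, fun θ hθ => h θ hθ hθ⟩
  · exact ⟨1, one_pos, fun θ h => absurd h (notMem_empty _)⟩
  · rintro S T hST ⟨τ, hτ, h⟩
    exact ⟨τ, hτ, fun θ hθ => h θ (hST hθ)⟩
  · rintro S T ⟨τ, hτ, h⟩ ⟨τ', hτ', h'⟩
    refine ⟨max τ τ', lt_max_of_lt_left hτ, ?_⟩
    rintro θ (hθ | hθ) hθI s hs θ' hθ' r hr
    · exact h θ hθ hθI s hs θ' (hθ'.trans_le (one_div_le_one_div_of_le hτ (le_max_left _ _))) r
        ((le_max_left _ _).trans hr)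
    · exact h' θ hθ hθI s hs θ' (hθ'.trans_le (one_div_le_one_div_of_le hτ' (le_max_right _ _))) r
        ((le_max_right _ _).trans hr)
  · intro θ₀ hθ₀
    -- almost optimal exponent
    obtain ⟨s₀, hs₀, hs₀B, hs₀c, hopt⟩ : ∃ s₀, RB L θ₀ s₀ ∧ s₀ ≤ B₁ ∧ 0 ≤ s₀ ∧
        ∀ s, RB L θ₀ s → s₀ - ε / 8 ≤ s := by
      set Sg : Set ℝ := {s | RB L θ₀ s} with hSg
      have hne : Sg.Nonempty := ⟨B₁, hall θ₀⟩
      have hbd : BddBelow Sg := ⟨c, fun s hs => hcu θ₀ hθ₀ s hs⟩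
      obtain ⟨s', hs', hs'lt⟩ := exists_lt_of_csInf_lt hne (show sInf Sg < sInf Sg + ε / 8 by linarith)
      refine ⟨min s' B₁, ?_, min_le_right _ _, ?_, ?_⟩
      · rcases min_choice s' B₁ with h | h
        · rw [h]; exact hs'
        · rw [h]; exact hall θ₀
      · apply le_min _ hB₁
        exact hc.le.trans (hcu θ₀ hθ₀ s' hs')
      · intro s hs
        have := csInf_le hbd (show s ∈ Sg from hs)
        have := min_le_left s' B₁
        linarith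
    obtain ⟨K₀, hK₀⟩ := sector_bound hL hall hs₀c hs₀B hs₀
    set δ : ℝ := min (1 / 2) (ε / (8 * (C + 1))) with hδ
    have hδ0 : 0 < δ := lt_min (by norm_num) (by positivity)
    have hCδ : C * δ ≤ ε / 8 := by
      calc C * δ ≤ C * (ε / (8 * (C + 1))) := mul_le_mul_of_nonneg_left (min_le_right _ _) hC0
        _ = (C / (C + 1)) * (ε / 8) := by field_simp
        _ ≤ 1 * (ε / 8) := by
            apply mul_le_mul_of_nonneg_right _ (by positivity)
            rw [div_le_one (by positivity)]; linarith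
        _ = ε / 8 := one_mul _
    set τ : ℝ := max (1 / δ) (|K₀| / (3 * ε / 8)) with hτ
    have hτ0 : 0 < τ := lt_max_of_lt_left (by positivity)
    refine ⟨Ioo (θ₀ - δ) (θ₀ + δ), mem_nhdsWithin_of_mem_nhds (Ioo_mem_nhds (by linarith)
      (by linarith)), τ, hτ0, ?_⟩
    intro θ hθ hθI s hs θ' hθ' r hr
    have hr0 : 0 < r := hτ0.trans_le hr
    have hd : |θ₀ - θ| ≤ δ := by rw [abs_le]; constructor <;> linarith [hθ.1, hθ.2]
    have hτδ : 1 / τ ≤ δ := by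
      rw [one_div_le hτ0 hδ0]; exact le_max_left _ _
    have hd' : |θ' - θ₀| ≤ 2 * δ := by
      have h1 := abs_sub_le θ' θ θ₀
      rw [abs_sub_comm θ θ₀] at h1
      linarith
    have hd1 : |θ' - θ₀| ≤ 1 := by
      have : δ ≤ 1 / 2 := min_le_left _ _
      linarith
    have hss : s₀ ≤ s + 3 * ε / 8 := by
      rcases le_or_gt s B₁ with h | h
      · have hs0 : 0 ≤ s := hc.le.trans (hcu θ hθI s hs)
        obtain ⟨K, hK⟩ := sector_bound hL hall hs0 h hs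
        have h3 := hK θ₀ (hd.trans ((min_le_left _ _).trans (by norm_num)))
        have h4 : RB L θ₀ (s + C * |θ₀ - θ| + ε / 8) := by
          filter_upwards [eventually_gt_atTop 0, eventually_ge_atTop (|K| / (ε / 8))] with r hr0 hr
          refine (h3 r hr0).trans (Real.exp_le_exp.2 ?_)
          rw [div_le_iff₀ (by positivity)] at hr
          have := le_abs_self K
          nlinarith
        have h5 := hopt _ h4
        have h6 : C * |θ₀ - θ| ≤ C * δ := mul_le_mul_of_nonneg_left hd hC0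
        linarith
      · linarith
    refine (hK₀ θ' hd1 r hr0).trans (Real.exp_le_exp.2 ?_)
    have h7 : C * |θ' - θ₀| ≤ ε / 4 := by
      calc C * |θ' - θ₀| ≤ C * (2 * δ) := mul_le_mul_of_nonneg_left hd' hC0
        _ = 2 * (C * δ) := by ring
        _ ≤ ε / 4 := by linarith
    have h8 : K₀ ≤ 3 * ε / 8 * r := by
      have h9 : |K₀| / (3 * ε / 8) ≤ r := (le_max_right _ _).trans hr
      rw [div_le_iff₀ (by positivity)] at h9
      have := le_abs_self K₀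
      linarith
    have h10 : (s₀ + C * |θ' - θ₀|) * r ≤ (s + 5 * ε / 8) * r :=
      mul_le_mul_of_nonneg_right (by linarith) hr0.le
    nlinarith

theorem rb_all {L : ℂ → ℂ} {A B : ℝ} (hL : ET L A B) (θ : ℝ) : RB L θ (B + 1) := by
  filter_upwards [eventually_ge_atTop 0, eventually_ge_atTop |A|] with r hr0 hr
  refine (hL.bound _).trans (Real.exp_le_exp.2 ?_)
  rw [ray_norm θ hr0]
  have := le_abs_self A
  nlinarith

/-- hypothesis (a) -/
def HypA (L : ℂ → ℂ) : Prop := ∀ ε : ℝ, 0 < ε → ∃ τ : ℝ, ∀ w : ℂ, L w = 0 → τ < ‖w‖ →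
  ∃ s : ℝ, RB L (arg w) s ∧ Real.exp ((s - ε) * ‖w‖) < ‖deriv L w‖

theorem arg_mem (w : ℂ) : arg w ∈ Icc (-Real.pi) Real.pi :=
  ⟨(Complex.neg_pi_lt_arg w).le, Complex.arg_le_pi w⟩

theorem big_of {L : ℂ → ℂ} {A B : ℝ} (hL : ET L A B) (hp : Pos L) (ha : HypA L) :
    ∃ c : ℝ, 0 < c ∧ ∃ τ : ℝ, ∀ w : ℂ, L w = 0 → τ < ‖w‖ → Real.exp (c * ‖w‖) ≤ ‖deriv L w‖ := by
  have hB := hL.B0
  obtain ⟨c, hc, hcu⟩ := unif_pos hL (by positivity : 0 ≤ B + 1) (rb_all hL) hp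
  obtain ⟨τ, hτ⟩ := ha (c / 2) (by positivity)
  refine ⟨c / 2, by positivity, τ, fun w hw hwτ => ?_⟩
  obtain ⟨s, hs, hs2⟩ := hτ w hw hwτ
  refine le_trans (Real.exp_le_exp.2 ?_) hs2.le
  apply mul_le_mul_of_nonneg_right _ (norm_nonneg _)
  have := hcu _ (arg_mem w) s hs
  linarith

theorem loc_of {L : ℂ → ℂ} {A B : ℝ} (hL : ET L A B) (hp : Pos L) (ha : HypA L) (ε : ℝ)
    (hε : 0 < ε) : ∃ τ : ℝ, ∀ w : ℂ, L w = 0 → τ < ‖w‖ → ∀ z, ‖z - w‖ ≤ 1 →
      ‖L z‖ ≤ Real.exp (ε * ‖w‖) * ‖deriv L w‖ := by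
  have hB := hL.B0
  have hB1 : 0 ≤ B + 1 := by positivity
  obtain ⟨c, hc, hcu⟩ := unif_pos hL hB1 (rb_all hL) hp
  obtain ⟨τ₁, hτ₁⟩ := ha (ε / 4) (by positivity)
  obtain ⟨τ₂, hτ₂0, hτ₂⟩ := unif_upper hL hB1 (rb_all hL) hp (ε / 4) (by positivity)
  -- continuity of arg at one
  have hcont : ContinuousAt arg (1:ℂ) := Complex.continuousAt_arg (by simp [Complex.slitPlane])
  obtain ⟨η, hη0, hη⟩ := Metric.continuousAt_iff.1 hcont (1 / τ₂) (by positivity)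
  set τ : ℝ := max (max τ₁ (τ₂ + 1)) (max (1 / η) (max 1 ((|A| + 2 * B + ε) / (ε / 2)))) with hτ
  refine ⟨τ, fun w hw hwτ z hz => ?_⟩
  have t1 : τ₁ < ‖w‖ := ((le_max_left _ _).trans (le_max_left _ _)).trans_lt hwτ
  have t2 : τ₂ + 1 < ‖w‖ := ((le_max_right _ _).trans (le_max_left _ _)).trans_lt hwτ
  have t3 : 1 / η < ‖w‖ := ((le_max_left _ _).trans (le_max_right _ _)).trans_lt hwτ
  have t4 : 1 < ‖w‖ := ((le_max_left _ _).trans ((le_max_right _ _).trans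
    (le_max_right _ _))).trans_lt hwτ
  have t5 : (|A| + 2 * B + ε) / (ε / 2) < ‖w‖ := ((le_max_right _ _).trans ((le_max_right _ _).trans
    (le_max_right _ _))).trans_lt hwτ
  obtain ⟨s, hs, hs2⟩ := hτ₁ w hw t1
  have hw0 : 0 < ‖w‖ := by linarith
  have hwne : w ≠ 0 := norm_pos_iff.1 hw0
  have hsc : c ≤ s := hcu _ (arg_mem w) s hs
  -- upper bound for s
  have hsB : s ≤ |A| + 2 * B + ε / 4 := by
    have h1 := hs2.le.trans (deriv_bound hL w)
    have h2 := Real.exp_le_exp.1 h1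
    have h3 : A ≤ |A| * ‖w‖ := by
      have := le_abs_self A
      nlinarith [abs_nonneg A]
    have h4 : (s - ε / 4) * ‖w‖ ≤ (|A| + 2 * B) * ‖w‖ := by nlinarith
    have h5 := le_of_mul_le_mul_right h4 hw0
    linarith
  -- polar form of z
  have hzw : ‖z / w - 1‖ < η := by
    have e : z / w - 1 = (z - w) / w := by field_simp
    rw [e, norm_div, div_lt_iff₀ hw0]
    rw [div_lt_iff₀ hη0] at t3
    calc ‖z - w‖ ≤ 1 := hz
      _ < ‖w‖ * η := t3
      _ = η * ‖w‖ := mul_comm _ _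
  have harg : |arg (z / w)| < 1 / τ₂ := by
    have := hη (by rw [dist_eq_norm]; exact hzw)
    rwa [Complex.arg_one, dist_zero_right, Real.norm_eq_abs] at this
  have hzr : z = ray (arg w + arg (z / w)) ‖z‖ := by
    have e1 : z = w * (z / w) := by field_simp
    have e2 := Complex.norm_mul_exp_arg_mul_I w
    have e3 := Complex.norm_mul_exp_arg_mul_I (z / w)
    unfold ray
    calc z = (‖w‖ * exp (arg w * I)) * (‖z / w‖ * exp (arg (z / w) * I)) := by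
          rw [e2, e3]; exact e1
      _ = ((‖w‖ * ‖z / w‖ : ℝ) : ℂ) * exp (((arg w + arg (z / w) : ℝ) : ℂ) * I) := by
          push_cast
          rw [add_mul, Complex.exp_add]; ring
      _ = _ := by
          congr 2
          rw [norm_div]; field_simp
  have hzn1 : ‖z‖ ≤ ‖w‖ + 1 := by
    have := norm_add_le (z - w) w; rw [sub_add_cancel] at this; linarith
  have hzn2 : τ₂ ≤ ‖z‖ := by
    have := norm_sub_norm_le w z
    rw [norm_sub_rev] at this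
    linarith
  have h1 := hτ₂ _ (arg_mem w) s hs (arg w + arg (z / w)) (by
    rw [add_sub_cancel_left]; exact harg) ‖z‖ hzn2
  rw [← hzr] at h1
  refine h1.trans ?_
  calc Real.exp ((s + ε / 4) * ‖z‖) ≤ Real.exp (ε * ‖w‖ + (s - ε / 4) * ‖w‖) := by
        apply Real.exp_le_exp.2
        have h2 : (s + ε / 4) * ‖z‖ ≤ (s + ε / 4) * (‖w‖ + 1) :=
          mul_le_mul_of_nonneg_left hzn1 (by linarith)
        rw [div_lt_iff₀ (by positivity)] at t5
        nlinarith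
    _ = Real.exp (ε * ‖w‖) * Real.exp ((s - ε / 4) * ‖w‖) := Real.exp_add _ _
    _ ≤ _ := mul_le_mul_of_nonneg_left hs2.le (Real.exp_pos _).le

end H1R3.Z
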