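import Pool.Agent.H1R3.Z.Core2
import Pool.Agent.H1R3.Z.PL2
set_option autoImplicit false
open Set Filter Topology Complex Metric

namespace H1R3.Z

theorem re_opposite (t : ℂ) (r : ℝ) : (t * ray (Real.pi - arg t) r).re = -(‖t‖ * r) := by
  have e : t * ray (Real.pi - arg t) r = ((-(‖t‖ * r) : ℝ) : ℂ) := by
    have e1 := Complex.norm_mul_exp_arg_mul_I t
    unfold ray
    have e2 : exp (((Real.pi - arg t : ℝ) : ℂ) * I) = exp (Real.pi * I) * exp (-(arg t * I)) := by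
      rw [← Complex.exp_add]; congr 1; push_cast; ring
    rw [e2, Complex.exp_pi_mul_I]
    calc t * ((r:ℂ) * (-1 * exp (-(arg t * I)))) =
          -((‖t‖ * exp (arg t * I)) * (r:ℂ) * exp (-(arg t * I))) := by rw [e1]; ring
      _ = -((‖t‖ : ℂ) * r * (exp (arg t * I) * exp (-(arg t * I)))) := by ring
      _ = _ := by rw [← Complex.exp_add]; simp
  rw [e, Complex.ofReal_re]

/-- the multiplied function -/
noncomputable def mult (L : ℂ → ℂ) (t : ℂ) : ℂ → ℂ := fun z => L z * exp (-(t * z))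

theorem mult_zero_iff (L : ℂ → ℂ) (t z : ℂ) : mult L t z = 0 ↔ L z = 0 := by
  simp [mult, Complex.exp_ne_zero]

theorem mult_norm (L : ℂ → ℂ) (t z : ℂ) : ‖mult L t z‖ = ‖L z‖ * Real.exp (-(t * z).re) := by
  simp only [mult]
  rw [norm_mul, Complex.norm_exp, Complex.neg_re]

theorem mult_deriv {L : ℂ → ℂ} (hL : Differentiable ℂ L) (t : ℂ) {z : ℂ} (hz : L z = 0) :
    deriv (mult L t) z = deriv L z * exp (-(t * z)) := by
  have h1 : HasDerivAt (fun z => exp (-(t * z))) (exp (-(t * z)) * (-(t * 1))) z :=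
    (((hasDerivAt_id z).const_mul t).neg).cexp
  have h2 := (hL z).hasDerivAt.mul h1
  have h3 : HasDerivAt (mult L t) (deriv L z * exp (-(t * z)) +
      L z * (exp (-(t * z)) * (-(t * 1)))) z := h2
  rw [h3.deriv, hz]; ring

theorem mult_deriv_norm {L : ℂ → ℂ} (hL : Differentiable ℂ L) (t : ℂ) {z : ℂ} (hz : L z = 0) :
    ‖deriv (mult L t) z‖ = ‖deriv L z‖ * Real.exp (-(t * z).re) := by
  rw [mult_deriv hL t hz, norm_mul, Complex.norm_exp, Complex.neg_re]

theorem hyp_mult {L : ℂ → ℂ} {A B : ℝ} (hL : ET L A B)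
    (hs : ∀ z, L z = 0 → deriv L z ≠ 0) (hp : Pos L) {c Kb : ℝ} (hc : 0 < c) (hKb : 0 < Kb)
    (hbig : ∀ l, L l = 0 → ‖deriv L l‖⁻¹ ≤ Kb * Real.exp (-(c * ‖l‖)))
    (hloc : ∀ ε : ℝ, 0 < ε → ∃ τ : ℝ, ∀ w : ℂ, L w = 0 → τ < ‖w‖ → ∀ z, ‖z - w‖ ≤ 1 →
      ‖L z‖ ≤ Real.exp (ε * ‖w‖) * ‖deriv L w‖) (t : ℂ) (ht : ‖t‖ ≤ c / 4) :
    Hyp (mult L t) A (B + c / 4) (c / 2) Kb where
  et := by
    refine ⟨?_, ?_, ?_⟩
    · exact hL.diff.mul ((differentiable_const t).mul differentiable_id).neg.cexp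
    · intro z
      rw [mult_norm]
      calc ‖L z‖ * Real.exp (-(t * z).re) ≤ Real.exp (A + B * ‖z‖) * Real.exp (c / 4 * ‖z‖) := by
            apply mul_le_mul (hL.bound z) _ (Real.exp_pos _).le (Real.exp_pos _).le
            apply Real.exp_le_exp.2
            have h1 := Complex.abs_re_le_norm (t * z)
            rw [norm_mul] at h1
            have h2 := neg_abs_le (t * z).re
            have h3 := mul_le_mul_of_nonneg_right ht (norm_nonneg z)
            linarith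
        _ = _ := by rw [← Real.exp_add]; congr 1; ring
    · have := hL.B0; positivity
  simple := by
    intro z hz
    rw [mult_zero_iff] at hz
    rw [mult_deriv hL.diff t hz]
    exact mul_ne_zero (hs z hz) (Complex.exp_ne_zero _)
  unb := by
    intro C
    obtain ⟨c₀, hc₀, h⟩ := hp (Real.pi - arg t)
    obtain ⟨r, hr, hr2⟩ := h (max 0 (C / c₀))
    have hr0 : 0 < r := (le_max_left _ _).trans_lt hr
    have hrC : C / c₀ < r := (le_max_right _ _).trans_lt hr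
    refine ⟨ray (Real.pi - arg t) r, ?_⟩
    rw [mult_norm, re_opposite, neg_neg]
    have h1 : 1 ≤ Real.exp (‖t‖ * r) := Real.one_le_exp (by positivity)
    rw [div_lt_iff₀ hc₀] at hrC
    have h2 : C < Real.exp (c₀ * r) := by
      have := Real.add_one_le_exp (c₀ * r)
      linarith
    have h3 := norm_nonneg (L (ray (Real.pi - arg t) r))
    nlinarith
  c₁pos := by positivity
  Kbpos := hKb
  big := by
    intro l hl
    rw [mult_zero_iff] at hl
    rw [mult_deriv_norm hL.diff t hl, mul_inv, ← Real.exp_neg, neg_neg]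
    calc ‖deriv L l‖⁻¹ * Real.exp ((t * l).re) ≤ (Kb * Real.exp (-(c * ‖l‖))) *
          Real.exp (c / 2 * ‖l‖) := by
          apply mul_le_mul (hbig l hl) _ (Real.exp_pos _).le (by positivity)
          apply Real.exp_le_exp.2
          have h1 := Complex.re_le_norm (t * l)
          rw [norm_mul] at h1
          have h3 := mul_le_mul_of_nonneg_right ht (norm_nonneg l)
          have h4 : 0 ≤ c / 4 * ‖l‖ := by positivity
          linarith
      _ = _ := by rw [mul_assoc, ← Real.exp_add]; congr 2; ring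
  loc := by
    intro ε hε
    obtain ⟨τ, hτ⟩ := hloc (ε / 2) (by positivity)
    refine ⟨max τ (c / (2 * ε)), fun w hw hwτ z hz => ?_⟩
    have t1 : τ < ‖w‖ := (le_max_left _ _).trans_lt hwτ
    have t2 : c / (2 * ε) < ‖w‖ := (le_max_right _ _).trans_lt hwτ
    rw [div_lt_iff₀ (by positivity)] at t2
    rw [mult_zero_iff] at hw
    rw [mult_norm, mult_deriv_norm hL.diff t hw]
    have h1 := hτ w hw t1 z hz
    have h2 : -(t * z).re ≤ -(t * w).re + c / 4 := by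
      have e : (t * w).re - (t * z).re = -(t * (z - w)).re := by
        rw [mul_sub, Complex.sub_re]; ring
      have h3 := Complex.abs_re_le_norm (t * (z - w))
      rw [norm_mul] at h3
      have h4 := neg_abs_le (t * (z - w)).re
      have h5 : ‖t‖ * ‖z - w‖ ≤ c / 4 * 1 := mul_le_mul ht hz (norm_nonneg _) (by positivity)
      linarith
    calc ‖L z‖ * Real.exp (-(t * z).re) ≤ (Real.exp (ε / 2 * ‖w‖) * ‖deriv L w‖) *
          Real.exp (-(t * w).re + c / 4) :=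
          mul_le_mul h1 (Real.exp_le_exp.2 h2) (Real.exp_pos _).le (by positivity)
      _ = Real.exp (ε / 2 * ‖w‖ + c / 4) * (‖deriv L w‖ * Real.exp (-(t * w).re)) := by
          rw [Real.exp_add, Real.exp_add]; ring
      _ ≤ Real.exp (ε * ‖w‖) * (‖deriv L w‖ * Real.exp (-(t * w).re)) := by
          apply mul_le_mul_of_nonneg_right _ (by positivity)
          apply Real.exp_le_exp.2
          linarith

/-- summable inverse zeros contradict positivity -/
theorem not_summable {L : ℂ → ℂ} {A B : ℝ} (hL : ET L A B)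
    (hs : ∀ z, L z = 0 → deriv L z ≠ 0) (hp : Pos L) :
    ¬ Summable (fun l : {z : ℂ // L z = 0} => ‖(l:ℂ)‖⁻¹) := by
  intro hsum
  obtain ⟨a, ha⟩ : ∃ a, L a ≠ 0 := by
    obtain ⟨c, hc, h⟩ := hp 0
    obtain ⟨r, _, hr⟩ := h 0
    exact ⟨_, norm_pos_iff.1 ((Real.exp_pos _).trans hr)⟩
  have hs' : ∀ z, (fun z => L (z + a)) z = 0 → deriv (fun z => L (z + a)) z ≠ 0 := by
    intro z hz
    rw [shift_deriv]; exact hs _ hz
  -- transfer summability
  let e : {z : ℂ // (fun z => L (z + a)) z = 0} ≃ {z : ℂ // L z = 0} :=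
    { toFun := fun l => ⟨(l:ℂ) + a, l.2⟩
      invFun := fun l => ⟨(l:ℂ) - a, by show L ((l:ℂ) - a + a) = 0; rw [sub_add_cancel]; exact l.2⟩
      left_inv := fun l => by ext; simp
      right_inv := fun l => by ext; simp }
  have hsum2 : Summable (fun l : {z : ℂ // L z = 0} => ‖(l:ℂ) - a‖⁻¹) := by
    apply Summable.of_norm_bounded_eventually (hsum.mul_left 2)
    have hfin : {l : {z : ℂ // L z = 0} | ‖(l:ℂ)‖ < 2 * ‖a‖ + 1}.Finite := by
      have h1 := zeros_finite hL.diff hs (2 * ‖a‖ + 1)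
      apply Set.Finite.of_finite_image (f := fun l : {z : ℂ // L z = 0} => (l:ℂ)) _
        Subtype.val_injective.injOn
      apply h1.subset
      rintro _ ⟨l, hl, rfl⟩
      exact ⟨l.2, hl⟩
    have : {l : {z : ℂ // L z = 0} | ‖(l:ℂ)‖ < 2 * ‖a‖ + 1}ᶜ ∈ (cofinite : Filter _) := by
      rw [mem_cofinite, compl_compl]; exact hfin
    filter_upwards [this] with l hl
    simp only [mem_compl_iff, mem_ofPred_eq, not_lt] at hl
    rw [norm_inv, norm_norm]
    have h1 : 0 < ‖(l:ℂ)‖ := by linarith [norm_nonneg a]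
    have h2 : ‖(l:ℂ)‖ / 2 ≤ ‖(l:ℂ) - a‖ := by
      have := norm_sub_norm_le (l:ℂ) a
      linarith
    calc ‖(l:ℂ) - a‖⁻¹ ≤ (‖(l:ℂ)‖ / 2)⁻¹ := inv_anti₀ (by positivity) h2
      _ = 2 * ‖(l:ℂ)‖⁻¹ := by rw [inv_div]; rw [div_eq_mul_inv]
  have hsum3 : Summable (fun l : {z : ℂ // (fun z => L (z + a)) z = 0} => ‖(l:ℂ)‖⁻¹) := by
    have h1 := (e.summable_iff (f := fun l : {z : ℂ // L z = 0} => ‖(l:ℂ) - a‖⁻¹)).2 hsum2
    refine h1.congr fun l => ?_
    simp [e]
  obtain ⟨t, ht⟩ := indicator_linear (hL.shift a) hs' (by simpa using ha) hsum3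
  obtain ⟨c, hc, hpos⟩ := hp (Real.pi - arg t)
  obtain ⟨K, hK⟩ := ht (c / 2) (by positivity)
  set K' : ℝ := K + ‖t‖ * ‖a‖ + c / 2 * ‖a‖ with hK'
  obtain ⟨r, hr, hr2⟩ := hpos (max 0 (K' / (c / 2)))
  have hr0 : 0 < r := (le_max_left _ _).trans_lt hr
  have hr1 : K' / (c / 2) < r := (le_max_right _ _).trans_lt hr
  rw [div_lt_iff₀ (by positivity)] at hr1
  set z := ray (Real.pi - arg t) r with hz
  have hzn : ‖z‖ = r := ray_norm _ hr0.le
  have h1 := hK (z - a)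
  simp only [sub_add_cancel] at h1
  have h2 : (t * (z - a)).re ≤ ‖t‖ * ‖a‖ := by
    rw [mul_sub, Complex.sub_re, re_opposite]
    have h3 := Complex.abs_re_le_norm (t * a)
    rw [norm_mul] at h3
    have h4 := neg_abs_le (t * a).re
    have h5 : 0 ≤ ‖t‖ * r := by positivity
    linarith
  have h3 : ‖z - a‖ ≤ r + ‖a‖ := by
    have := norm_sub_le z a; rw [hzn] at this; exact this
  have h4 := Real.exp_lt_exp.1 (hr2.trans_le h1)
  have h5 : c / 2 * ‖z - a‖ ≤ c / 2 * (r + ‖a‖) := mul_le_mul_of_nonneg_left h3 (by positivity)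
  nlinarith

theorem big_all {L : ℂ → ℂ} (hL : Differentiable ℂ L)
    (hs : ∀ z, L z = 0 → deriv L z ≠ 0) {c τ : ℝ}
    (h : ∀ w : ℂ, L w = 0 → τ < ‖w‖ → Real.exp (c * ‖w‖) ≤ ‖deriv L w‖) :
    ∃ Kb : ℝ, 0 < Kb ∧ ∀ l, L l = 0 → ‖deriv L l‖⁻¹ ≤ Kb * Real.exp (-(c * ‖l‖)) := by
  set Zs : Finset ℂ := (zeros_finite hL hs (τ + 1)).toFinset with hZs
  have hmem : ∀ z, z ∈ Zs ↔ (L z = 0 ∧ ‖z‖ < τ + 1) := by
    intro z; rw [hZs, Set.Finite.mem_toFinset]; rfl
  refine ⟨1 + ∑ z ∈ Zs, ‖deriv L z‖⁻¹ * Real.exp (c * ‖z‖), by positivity, fun l hl => ?_⟩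
  have hsum0 : 0 ≤ ∑ z ∈ Zs, ‖deriv L z‖⁻¹ * Real.exp (c * ‖z‖) := by positivity
  rcases le_or_gt ‖l‖ τ with h1 | h1
  · have h2 : l ∈ Zs := (hmem l).2 ⟨hl, by linarith⟩
    have h3 := Finset.single_le_sum (f := fun z : ℂ => ‖deriv L z‖⁻¹ * Real.exp (c * ‖z‖))
      (fun _ _ => by positivity) h2
    calc ‖deriv L l‖⁻¹ = (‖deriv L l‖⁻¹ * Real.exp (c * ‖l‖)) * Real.exp (-(c * ‖l‖)) := by
          rw [mul_assoc, ← Real.exp_add]; simp
      _ ≤ _ := by
          apply mul_le_mul_of_nonneg_right _ (Real.exp_pos _).le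
          exact h3.trans (by linarith)
  · have h2 := h l hl h1
    calc ‖deriv L l‖⁻¹ ≤ (Real.exp (c * ‖l‖))⁻¹ := inv_anti₀ (Real.exp_pos _) h2
      _ = 1 * Real.exp (-(c * ‖l‖)) := by rw [Real.exp_neg, one_mul]
      _ ≤ _ := mul_le_mul_of_nonneg_right (by linarith) (Real.exp_pos _).le

theorem main {L : ℂ → ℂ} {A B : ℝ} (hL : ET L A B)
    (hs : ∀ z, L z = 0 → deriv L z ≠ 0) (hp : Pos L) (ha : HypA L) :
    ∃ P : ℝ, 0 < P ∧ ∀ R : ℝ, ∃ r : ℝ, R < r ∧
          ∀ z : ℂ, ‖z‖ = r → Real.exp (P * r) < ‖L z‖ := by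
  obtain ⟨c, hc, τ, hτ⟩ := big_of hL hp ha
  obtain ⟨Kb, hKb, hbig⟩ := big_all hL.diff hs hτ
  have hyp := fun (t : ℂ) (ht : ‖t‖ ≤ c / 4) =>
    hyp_mult hL hs hp hc hKb hbig (loc_of hL hp ha) t ht
  -- the correction function vanishes
  have hinv : ∀ t : ℂ, ‖t‖ ≤ c / 4 → ∃ C : ℝ, 0 < C ∧ ∀ z,
      (∀ l, L l = 0 → rho (c / 2) l ≤ ‖z - l‖) → Real.exp ((t * z).re) ≤ C * ‖L z‖ := by
    intro t ht
    have h := hyp t ht
    obtain ⟨a, ha'⟩ := h.ne
    obtain ⟨E, ⟨A₂, B₂, hE⟩, C₄, hC₄, hEb⟩ := interp h.et h.simple ha' h.c₁pos h.Kbpos h.big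
    have hE0 : ∀ z, E z = 0 := by
      by_contra hcon
      push Not at hcon
      have h1 := core h hE hC₄ hEb hcon
      apply not_summable hL hs hp
      let e : {z : ℂ // L z = 0} ≃ {z : ℂ // mult L t z = 0} :=
        { toFun := fun l => ⟨l, (mult_zero_iff L t l).2 l.2⟩
          invFun := fun l => ⟨l, (mult_zero_iff L t l).1 l.2⟩
          left_inv := fun l => rfl
          right_inv := fun l => rfl }
      exact (e.summable_iff (f := fun l : {z : ℂ // mult L t z = 0} => ‖(l:ℂ)‖⁻¹)).2 h1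
    refine ⟨C₄, hC₄, fun z hz => ?_⟩
    have h1 := hEb z (fun l hl => hz l ((mult_zero_iff L t l).1 hl))
    rw [hE0 z, zero_sub, norm_neg, norm_div, norm_one, mult_norm] at h1
    have hLz : L z ≠ 0 := by
      intro h0
      have := hz z h0
      rw [sub_self, norm_zero] at this
      exact absurd this (not_le.2 (rho_pos _ _))
    have hLp : 0 < ‖L z‖ := norm_pos_iff.2 hLz
    have h2 : C₄ / (1 + ‖z‖) ≤ C₄ := div_le_self hC₄.le (by linarith [norm_nonneg z])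
    have h3 := h1.trans h2
    rw [div_le_iff₀ (by positivity)] at h3
    calc Real.exp ((t * z).re) = 1 * Real.exp ((t * z).re) := (one_mul _).symm
      _ ≤ (C₄ * (‖L z‖ * Real.exp (-(t * z).re))) * Real.exp ((t * z).re) :=
          mul_le_mul_of_nonneg_right h3 (Real.exp_pos _).le
      _ = C₄ * ‖L z‖ * (Real.exp (-(t * z).re) * Real.exp ((t * z).re)) := by ring
      _ = C₄ * ‖L z‖ := by rw [← Real.exp_add]; simp
  have hn : ∀ w : ℂ, ‖w‖ = 1 → ‖((c / 4 : ℝ) : ℂ) * w‖ ≤ c / 4 := by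
    intro w hw
    rw [norm_mul, hw, mul_one, Complex.norm_real, Real.norm_eq_abs, abs_of_pos (by positivity)]
  obtain ⟨C1, hC1, h1⟩ := hinv (((c / 4 : ℝ) : ℂ) * 1) (hn 1 (by simp))
  obtain ⟨C2, hC2, h2⟩ := hinv (((c / 4 : ℝ) : ℂ) * (-1)) (hn (-1) (by simp))
  obtain ⟨C3, hC3, h3⟩ := hinv (((c / 4 : ℝ) : ℂ) * I) (hn I (by simp))
  obtain ⟨C4, hC4, h4⟩ := hinv (((c / 4 : ℝ) : ℂ) * (-I)) (hn (-I) (by simp))
  set C := C1 + C2 + C3 + C4 with hC
  have hCp : 0 < C := by positivity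
  have hlow : ∀ z, (∀ l, L l = 0 → rho (c / 2) l ≤ ‖z - l‖) →
      Real.exp (c / 8 * ‖z‖) ≤ C * ‖L z‖ := by
    intro z hz
    have hz1 := h1 z hz
    have hz2 := h2 z hz
    have hz3 := h3 z hz
    have hz4 := h4 z hz
    rw [show (((c / 4 : ℝ) : ℂ) * 1 * z).re = c / 4 * z.re by
      rw [mul_one, Complex.re_ofReal_mul]] at hz1
    rw [show (((c / 4 : ℝ) : ℂ) * (-1) * z).re = -(c / 4 * z.re) by
      rw [mul_assoc, Complex.re_ofReal_mul]; simp] at hz2
    rw [show (((c / 4 : ℝ) : ℂ) * I * z).re = -(c / 4 * z.im) by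
      rw [mul_assoc, Complex.re_ofReal_mul]; simp] at hz3
    rw [show (((c / 4 : ℝ) : ℂ) * (-I) * z).re = c / 4 * z.im by
      rw [mul_assoc, Complex.re_ofReal_mul]; simp] at hz4
    have hLn := norm_nonneg (L z)
    have hb1 : C1 * ‖L z‖ ≤ C * ‖L z‖ := mul_le_mul_of_nonneg_right (by linarith) hLn
    have hb2 : C2 * ‖L z‖ ≤ C * ‖L z‖ := mul_le_mul_of_nonneg_right (by linarith) hLn
    have hb3 : C3 * ‖L z‖ ≤ C * ‖L z‖ := mul_le_mul_of_nonneg_right (by linarith) hLn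
    have hb4 : C4 * ‖L z‖ ≤ C * ‖L z‖ := mul_le_mul_of_nonneg_right (by linarith) hLn
    have hnz := Complex.norm_le_abs_re_add_abs_im z
    rcases le_total |z.im| |z.re| with hh | hh
    · have hh2 : ‖z‖ ≤ 2 * |z.re| := by linarith
      rcases abs_cases z.re with ⟨he, _⟩ | ⟨he, _⟩
      · refine (Real.exp_le_exp.2 ?_).trans (hz1.trans hb1)
        rw [he] at hh2; nlinarith
      · refine (Real.exp_le_exp.2 ?_).trans (hz2.trans hb2)
        rw [he] at hh2; nlinarith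
    · have hh2 : ‖z‖ ≤ 2 * |z.im| := by linarith
      rcases abs_cases z.im with ⟨he, _⟩ | ⟨he, _⟩
      · refine (Real.exp_le_exp.2 ?_).trans (hz4.trans hb4)
        rw [he] at hh2; nlinarith
      · refine (Real.exp_le_exp.2 ?_).trans (hz3.trans hb3)
        rw [he] at hh2; nlinarith
  refine ⟨c / 16, by positivity, fun R => ?_⟩
  obtain ⟨X, hX⟩ := eventually_atTop.1 (ev_exp (κ := c / 16) (by positivity) (C + 1))
  obtain ⟨r, hr, hr0, hgood⟩ := good_circle (hyp 0 (by simp; positivity)) (max R X)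
  refine ⟨r, (le_max_left _ _).trans_lt hr, fun z hz => ?_⟩
  have h5 := hlow z (fun l hl => hgood z hz l ((mult_zero_iff L 0 l).2 hl))
  rw [hz] at h5
  have h6 := hX r ((le_max_right _ _).trans hr.le)
  have h7 : Real.exp (c / 8 * r) = Real.exp (c / 16 * r) * Real.exp (c / 16 * r) := by
    rw [← Real.exp_add]; congr 1; ring
  rw [h7] at h5
  have h8 := Real.exp_pos (c / 16 * r)
  by_contra hcon
  push Not at hcon
  have h9 : C * ‖L z‖ ≤ C * Real.exp (c / 16 * r) := mul_le_mul_of_nonneg_left hcon hCp.le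
  nlinarith

end H1R3.Z
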