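import Mathlib
set_option autoImplicit false
open Set Filter Topology Complex Metric

namespace H1R3.Z

theorem div_one_factor {f : ℂ → ℂ} (hf : Differentiable ℂ f) {a : ℂ} (ha : f a = 0) :
    ∃ h : ℂ → ℂ, Differentiable ℂ h ∧ ∀ z, f z = (z - a) * h z := by
  refine ⟨dslope f a, ?_, ?_⟩
  · rw [← differentiableOn_univ] at hf ⊢
    exact (Complex.differentiableOn_dslope univ_mem).2 hf
  · intro z
    have h := sub_smul_dslope f a z
    rw [ha, sub_zero, smul_eq_mul] at h
    exact h.symm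

theorem div_factors (S : Finset ℂ) {f : ℂ → ℂ} (hf : Differentiable ℂ f) (hS : ∀ a ∈ S, f a = 0)
    (h0 : (0:ℂ) ∉ S) :
    ∃ h : ℂ → ℂ, Differentiable ℂ h ∧ ∀ z, f z = (∏ a ∈ S, (1 - z / a)) * h z := by
  classical
  induction S using Finset.induction_on with
  | empty => exact ⟨f, hf, fun z => by simp⟩
  | insert a S ha ih =>
    obtain ⟨h, hd, hh⟩ := ih (fun b hb => hS b (Finset.mem_insert_of_mem hb))
      (fun h => h0 (Finset.mem_insert_of_mem h))
    have ha0 : a ≠ 0 := fun h => h0 (by rw [← h]; exact Finset.mem_insert_self _ _)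
    have hna : h a = 0 := by
      have h1 := hh a
      rw [hS a (Finset.mem_insert_self _ _)] at h1
      rcases mul_eq_zero.1 h1.symm with h2 | h2
      · exfalso
        rw [Finset.prod_eq_zero_iff] at h2
        obtain ⟨b, hb, hb2⟩ := h2
        have hb0 : b ≠ 0 := fun h => h0 (by rw [← h]; exact Finset.mem_insert_of_mem hb)
        rw [sub_eq_zero, eq_comm, div_eq_one_iff_eq hb0] at hb2
        exact ha (hb2 ▸ hb)
      · exact h2
    obtain ⟨k, hk, hkk⟩ := div_one_factor hd hna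
    refine ⟨fun z => -a * k z, (differentiable_const _).mul hk, fun z => ?_⟩
    rw [Finset.prod_insert ha, hh z, hkk z]
    field_simp
    ring

theorem zeros_finite {G : ℂ → ℂ} (hG : Differentiable ℂ G)
    (hs : ∀ z, G z = 0 → deriv G z ≠ 0) (R : ℝ) : {z : ℂ | G z = 0 ∧ ‖z‖ < R}.Finite := by
  by_contra hinf
  have hinf' : {z : ℂ | G z = 0 ∧ ‖z‖ < R}.Infinite := hinf
  obtain ⟨x, _, hx⟩ := hinf'.exists_accPt_of_subset_isCompact (isCompact_closedBall (0:ℂ) R)
    (fun z hz => by rw [mem_closedBall_zero_iff]; exact hz.2.le)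
  rw [accPt_iff_frequently] at hx
  have hx0 : G x = 0 := by
    by_contra hne
    have h1 : ∀ᶠ y in 𝓝 x, G y ≠ 0 := hG.continuous.continuousAt.eventually_ne hne
    exact hx (h1.mono fun y hy h => hy h.2.1)
  have h2 := (hG x).hasDerivAt.eventually_ne (hs x hx0) (c := 0)
  rw [eventually_nhdsWithin_iff] at h2
  exact hx (h2.mono fun y hy h => hy h.1 h.2.1)

/-- norm of a normalised product on a large circle -/
theorem prod_ge (S : Finset ℂ) (R : ℝ) (hS : ∀ a ∈ S, a ≠ 0 ∧ ‖a‖ < R) (z : ℂ) (hz : ‖z‖ = 4 * R) :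
    (3:ℝ) ^ S.card ≤ ‖∏ a ∈ S, (1 - z / a)‖ := by
  rw [norm_prod, ← Finset.prod_const]
  apply Finset.prod_le_prod (fun _ _ => by norm_num)
  intro a ha
  obtain ⟨ha0, haR⟩ := hS a ha
  have hn : 0 < ‖a‖ := norm_pos_iff.2 ha0
  have h1 : ‖z / a‖ - 1 ≤ ‖1 - z / a‖ := by
    have := norm_sub_norm_le (z / a) 1
    rw [norm_one] at this
    rw [norm_sub_rev]; exact this
  have h2 : 4 ≤ ‖z / a‖ := by
    rw [norm_div, le_div_iff₀ hn, hz]; linarith
  linarith

/-- growth bound for a quotient -/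
theorem quot_bound (S : Finset ℂ) (R M : ℝ) (hR : 0 < R) (hS : ∀ a ∈ S, a ≠ 0 ∧ ‖a‖ < R)
    {f h : ℂ → ℂ} (hh : Differentiable ℂ h) (hf : ∀ z, f z = (∏ a ∈ S, (1 - z / a)) * h z)
    (hM : ∀ z, ‖z‖ ≤ 4 * R → ‖f z‖ ≤ M) (z : ℂ) (hz : ‖z‖ ≤ 4 * R) :
    (3:ℝ) ^ S.card * ‖h z‖ ≤ M := by
  have h3 : (0:ℝ) < (3:ℝ) ^ S.card := by positivity
  have key : ‖h z‖ ≤ M / (3:ℝ) ^ S.card := by
    apply Complex.norm_le_of_forall_mem_frontier_norm_le (U := ball (0:ℂ) (4 * R)) isBounded_ball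
      hh.diffContOnCl
    · intro w hw
      rw [frontier_ball _ (by positivity), mem_sphere_zero_iff_norm] at hw
      have h1 := prod_ge S R hS w hw
      have h2 := hM w hw.le
      rw [hf w, norm_mul] at h2
      rw [le_div_iff₀ h3]
      calc ‖h w‖ * (3:ℝ) ^ S.card ≤ ‖h w‖ * ‖∏ a ∈ S, (1 - w / a)‖ :=
            mul_le_mul_of_nonneg_left h1 (norm_nonneg _)
        _ ≤ M := by rw [mul_comm]; exact h2
    · rw [closure_ball _ (by positivity), mem_closedBall_zero_iff]; exact hz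
  rw [le_div_iff₀ h3] at key
  rw [mul_comm]; exact key

/-- data for entire functions of exponential type -/
structure ET (G : ℂ → ℂ) (A B : ℝ) : Prop where
  diff : Differentiable ℂ G
  bound : ∀ z, ‖G z‖ ≤ Real.exp (A + B * ‖z‖)
  B0 : 0 ≤ B

theorem had_main {G : ℂ → ℂ} {A B : ℝ} (hG : ET G A B) (hs : ∀ z, G z = 0 → deriv G z ≠ 0)
    (h0 : G 0 ≠ 0) (R : ℝ) (hR : 0 < R) :
    ∃ (S : Finset ℂ) (h : ℂ → ℂ), (∀ z, z ∈ S ↔ (G z = 0 ∧ ‖z‖ < R)) ∧ Differentiable ℂ h ∧
      (∀ z, G z = (∏ a ∈ S, (1 - z / a)) * h z) ∧ (∀ z, ‖z‖ < R → h z ≠ 0) ∧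
      (∀ z, ‖z‖ ≤ 4 * R → (3:ℝ) ^ S.card * ‖h z‖ ≤ Real.exp (A + B * (4 * R))) ∧ h 0 = G 0 := by
  classical
  set S : Finset ℂ := (zeros_finite hG.diff hs R).toFinset with hS
  have hmem : ∀ z, z ∈ S ↔ (G z = 0 ∧ ‖z‖ < R) := by
    intro z; rw [hS, Set.Finite.mem_toFinset]; rfl
  have hS0 : (0:ℂ) ∉ S := fun h => h0 ((hmem 0).1 h).1
  obtain ⟨h, hd, hh⟩ := div_factors S hG.diff (fun a ha => ((hmem a).1 ha).1) hS0
  have hSR : ∀ a ∈ S, a ≠ 0 ∧ ‖a‖ < R := fun a ha =>
    ⟨fun h => hS0 (h ▸ ha), ((hmem a).1 ha).2⟩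
  refine ⟨S, h, hmem, hd, hh, ?_, ?_, ?_⟩
  · intro w hw hw0
    have hGw : G w = 0 := by rw [hh w, hw0, mul_zero]
    have hwS : w ∈ S := (hmem w).2 ⟨hGw, hw⟩
    apply hs w hGw
    have hw0' : w ≠ 0 := (hSR w hwS).1
    -- G z = (1 - z/w) * k z * h z
    have e : G = fun z => (1 - z / w) * ((∏ a ∈ S.erase w, (1 - z / a)) * h z) := by
      funext z
      rw [hh z, ← Finset.mul_prod_erase S _ hwS]; ring
    have hk : DifferentiableAt ℂ (fun z => (∏ a ∈ S.erase w, (1 - z / a)) * h z) w := by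
      apply DifferentiableAt.mul _ (hd w)
      apply DifferentiableAt.fun_finsetProd
      intro a _
      exact (differentiableAt_const _).sub (differentiableAt_id.div_const a)
    have h1 : HasDerivAt (fun z : ℂ => (1 - z / w)) (-(1 / w)) w := by
      have := ((hasDerivAt_id w).div_const w).const_sub 1
      simpa using this
    have h2 := h1.mul hk.hasDerivAt
    have h3 : HasDerivAt G (-(1 / w) * ((∏ a ∈ S.erase w, (1 - w / a)) * h w) +
        (1 - w / w) * deriv (fun z => (∏ a ∈ S.erase w, (1 - z / a)) * h z) w) w := by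
      rw [e]; exact h2
    rw [h3.deriv, hw0, div_self hw0']
    simp
  · intro z hz
    apply quot_bound S R _ hR hSR hd hh _ z hz
    intro w hw
    refine (hG.bound w).trans (Real.exp_le_exp.2 ?_)
    have := mul_le_mul_of_nonneg_left hw hG.B0
    linarith
  · have := hh 0
    simp at this
    exact this.symm

/-- logarithm with Borel–Carathéodory bounds -/
theorem log_bounds {h : ℂ → ℂ} {R M : ℝ} (hR : 0 < R) (hM : 0 < M) (hd : Differentiable ℂ h)
    (hne : ∀ z, ‖z‖ < R → h z ≠ 0)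
    (hb : ∀ z, ‖z‖ < R → ‖h z‖ ≤ ‖h 0‖ * Real.exp M) :
    ∃ t : ℂ, t = deriv h 0 / h 0 ∧ (∀ z, ‖z‖ < R / 2 →
      |Real.log ‖h z‖ - Real.log ‖h 0‖ - (t * z).re| ≤ 16 * M * (‖z‖ / R) ^ 2) ∧
      (∀ z, ‖z‖ < R / 2 → ‖h 0‖ * Real.exp (-(2 * M)) ≤ ‖h z‖) := by
  have h0 : h 0 ≠ 0 := hne 0 (by simpa using hR)
  have hq : DifferentiableOn ℂ (fun z => deriv h z / h z) (ball 0 R) := by
    intro z hz
    rw [mem_ball_zero_iff] at hz
    exact ((hd.deriv z).div (hd z) (hne z hz)).differentiableWithinAt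
  obtain ⟨φ, hφ0, hφ⟩ := hq.isExactOn_ball.with_val_at 0 0
  have hexp : ∀ z ∈ ball (0:ℂ) R, h z = h 0 * exp (φ z) := by
    have hk : ∀ z ∈ ball (0:ℂ) R, HasDerivAt (fun z => h z * exp (-φ z)) 0 z := by
      intro z hz
      have hz' : ‖z‖ < R := by rwa [mem_ball_zero_iff] at hz
      have := (hd z).hasDerivAt.mul ((hφ z hz).neg.cexp)
      refine this.congr_deriv ?_
      have := hne z hz'
      field_simp
      ring
    intro z hz
    have hc : (fun z => h z * exp (-φ z)) z = (fun z => h z * exp (-φ z)) 0 := by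
      apply (convex_ball (0:ℂ) R).is_const_of_fderivWithin_eq_zero (𝕜 := ℂ)
        (fun w hw => (hk w hw).differentiableAt.differentiableWithinAt) _ hz
        (mem_ball_self hR)
      intro w hw
      rw [fderivWithin_of_isOpen isOpen_ball hw]
      have := (hk w hw).hasFDerivAt.fderiv
      rw [this]
      ext; simp
    simp only [hφ0, neg_zero, exp_zero, mul_one] at hc
    rw [← hc, mul_assoc, ← exp_add]; simp
  have hnorm : ∀ z ∈ ball (0:ℂ) R, Real.log ‖h z‖ - Real.log ‖h 0‖ = (φ z).re := by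
    intro z hz
    rw [hexp z hz, norm_mul, Complex.norm_exp, Real.log_mul (norm_ne_zero_iff.2 h0)
      (Real.exp_pos _).ne', Real.log_exp]
    ring
  have hmaps : MapsTo φ (ball 0 R) {z | z.re ≤ M} := by
    intro z hz
    show (φ z).re ≤ M
    have hz' : ‖z‖ < R := by rwa [mem_ball_zero_iff] at hz
    have h1 := hb z hz'
    rw [hexp z hz, norm_mul, Complex.norm_exp] at h1
    have h2 := le_of_mul_le_mul_left h1 (norm_pos_iff.2 h0)
    exact Real.exp_le_exp.1 h2
  have hφd : DifferentiableOn ℂ φ (ball 0 R) := fun z hz =>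
    (hφ z hz).differentiableAt.differentiableWithinAt
  have hbc : ∀ z, ‖z‖ < R / 2 → ‖φ z‖ ≤ 2 * M := by
    intro z hz
    have hzR : z ∈ ball (0:ℂ) R := by rw [mem_ball_zero_iff]; linarith
    have h1 := borelCaratheodory_zero hM hφd hmaps hR hzR hφ0
    refine h1.trans ?_
    rw [div_le_iff₀ (by linarith)]
    nlinarith [norm_nonneg z]
  refine ⟨deriv h 0 / h 0, rfl, ?_, ?_⟩
  · intro z hz
    have hzR : z ∈ ball (0:ℂ) R := by rw [mem_ball_zero_iff]; linarith [norm_nonneg z]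
    rw [hnorm z hzR]
    set t := deriv h 0 / h 0 with ht
    have hφ' : HasDerivAt φ t 0 := hφ 0 (mem_ball_self hR)
    have hR2 : 0 < R / 2 := by linarith
    have hmapsc : MapsTo φ (ball 0 (R / 2)) (closedBall (φ 0) (2 * M)) := by
      intro w hw
      rw [mem_ball_zero_iff] at hw
      rw [hφ0, mem_closedBall_zero_iff]
      exact hbc w hw
    have htb : ‖t‖ ≤ 2 * M / (R / 2) := by
      have h9 := Complex.norm_deriv_le_div_of_mapsTo_ball
        (hφd.mono (ball_subset_ball (by linarith))) hmapsc hR2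
      rwa [hφ'.deriv] at h9
    set f₂ : ℂ → ℂ := fun w => φ w - t * w with hf₂
    have hf20 : f₂ 0 = 0 := by simp [hf₂, hφ0]
    have hmaps2 : MapsTo f₂ (ball 0 (R / 2)) (closedBall (f₂ 0) (4 * M)) := by
      intro w hw
      rw [mem_ball_zero_iff] at hw
      rw [hf20, mem_closedBall_zero_iff]
      calc ‖φ w - t * w‖ ≤ ‖φ w‖ + ‖t * w‖ := norm_sub_le _ _
        _ ≤ 2 * M + 2 * M / (R / 2) * (R / 2) := by
            rw [norm_mul]
            apply add_le_add (hbc w hw)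
            exact mul_le_mul htb hw.le (norm_nonneg _) (by positivity)
        _ = 4 * M := by field_simp; ring
    have hlo : (f₂ · - f₂ 0) =o[𝓝 0] (fun w ↦ ‖w - 0‖ ^ 1) := by
      have h1 := hφ'.isLittleO.norm_right
      have e1 : (fun x => φ x - φ 0 - (x - 0) • t) = (f₂ · - f₂ 0) := by
        funext x
        simp only [hf₂, smul_eq_mul, sub_zero, mul_zero]
        ring
      rw [e1] at h1
      simpa using h1
    have h4 := Complex.dist_le_mul_div_pow_of_mapsTo_ball_of_isLittleO (n := 1) (f := f₂)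
      ((hφd.mono (ball_subset_ball (by linarith))).sub
        ((differentiable_const t).mul differentiable_id).differentiableOn) hmaps2 hlo
      (mem_ball_zero_iff.2 hz)
    rw [hf20, dist_zero_right, dist_zero_right] at h4
    have h5 : (φ z).re - (t * z).re = (f₂ z).re := by simp [hf₂]
    rw [h5]
    refine (Complex.abs_re_le_norm _).trans (h4.trans (le_of_eq ?_))
    have h6 : ‖z‖ / (R / 2) = 2 * (‖z‖ / R) := by field_simp
    rw [h6]
    ring
  · intro z hz
    have hzR : z ∈ ball (0:ℂ) R := by rw [mem_ball_zero_iff]; linarith [norm_nonneg z]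
    rw [hexp z hzR, norm_mul, Complex.norm_exp]
    apply mul_le_mul_of_nonneg_left _ (norm_nonneg _)
    apply Real.exp_le_exp.2
    have := (abs_le.1 ((Complex.abs_re_le_norm (φ z)).trans (hbc z hz))).1
    linarith

end H1R3.Z
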