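import Pool.Agent.H1R3.Z.Had
set_option autoImplicit false
open Set Filter Topology Complex Metric

namespace H1R3.Z

theorem ET.shift {G : ℂ → ℂ} {A B : ℝ} (hG : ET G A B) (a : ℂ) :
    ET (fun z => G (z + a)) (A + B * ‖a‖) B where
  diff := hG.diff.comp (differentiable_id.add_const a)
  bound z := by
    refine (hG.bound (z + a)).trans (Real.exp_le_exp.2 ?_)
    have := mul_le_mul_of_nonneg_left (norm_add_le z a) hG.B0
    linarith
  B0 := hG.B0

theorem shift_deriv (G : ℂ → ℂ) (a z : ℂ) : deriv (fun z => G (z + a)) z = deriv G (z + a) := by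
  exact deriv_comp_add_const (f := G) (a := a) (x := z)

theorem count0 {G : ℂ → ℂ} {A B : ℝ} (hG : ET G A B) (hs : ∀ z, G z = 0 → deriv G z ≠ 0)
    (h0 : G 0 ≠ 0) : ∃ C : ℝ, 0 ≤ C ∧ ∀ R : ℝ, 0 ≤ R → ∀ S : Finset ℂ,
      (∀ z ∈ S, G z = 0 ∧ ‖z‖ < R) → (S.card : ℝ) ≤ C * (1 + R) := by
  have hB := hG.B0
  refine ⟨|A| + |Real.log ‖G 0‖| + 4 * B, by positivity, ?_⟩
  intro R hR S hS
  rcases hR.eq_or_lt with h | hRp
  · have : S = ∅ := by
      apply Finset.eq_empty_of_forall_notMem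
      intro z hz
      have := (hS z hz).2
      rw [← h] at this
      exact absurd this (not_lt.2 (norm_nonneg _))
    rw [this]; simp; positivity
  obtain ⟨S', k, hmem, _, _, _, hb, hk0⟩ := had_main hG hs h0 R hRp
  have hsub : S ⊆ S' := fun z hz => (hmem z).2 (hS z hz)
  have hcard : (S.card : ℝ) ≤ S'.card := by exact_mod_cast Finset.card_le_card hsub
  have h1 := hb 0 (by simp; positivity)
  rw [hk0] at h1
  have hG0 : 0 < ‖G 0‖ := norm_pos_iff.2 h0
  have h2 := Real.log_le_log (by positivity) h1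
  rw [Real.log_mul (by positivity) hG0.ne', Real.log_pow, Real.log_exp] at h2
  have hl3 : 1 ≤ Real.log 3 := by
    rw [Real.le_log_iff_exp_le (by norm_num)]
    exact (Real.exp_one_lt_d9.le).trans (by norm_num)
  have h3 : (S'.card : ℝ) ≤ (S'.card : ℝ) * Real.log 3 := by
    nlinarith [Nat.cast_nonneg (α := ℝ) S'.card]
  have h4 : A ≤ |A| := le_abs_self A
  have h5 : -Real.log ‖G 0‖ ≤ |Real.log ‖G 0‖| := neg_le_abs _
  have h6 : 0 ≤ |A| * R := by positivity
  have h7 : 0 ≤ |Real.log ‖G 0‖| * R := by positivity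
  nlinarith

theorem count {G : ℂ → ℂ} {A B : ℝ} (hG : ET G A B) (hs : ∀ z, G z = 0 → deriv G z ≠ 0)
    {a : ℂ} (ha : G a ≠ 0) : ∃ C : ℝ, 0 ≤ C ∧ ∀ R : ℝ, 0 ≤ R → ∀ S : Finset ℂ,
      (∀ z ∈ S, G z = 0 ∧ ‖z‖ < R) → (S.card : ℝ) ≤ C * (1 + R) := by
  classical
  obtain ⟨C, hC, h⟩ := count0 (hG.shift a) (fun z hz => by
    rw [shift_deriv]; exact hs _ hz) (by simpa using ha)
  refine ⟨C * (1 + ‖a‖), by positivity, ?_⟩
  intro R hR S hS
  have h1 := h (R + ‖a‖) (by positivity) (S.image (fun z => z - a)) (by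
    intro w hw
    rw [Finset.mem_image] at hw
    obtain ⟨z, hz, rfl⟩ := hw
    refine ⟨by simpa using (hS z hz).1, ?_⟩
    have := norm_sub_le z a
    have := (hS z hz).2
    linarith)
  rw [Finset.card_image_of_injective _ (sub_left_injective)] at h1
  refine h1.trans ?_
  have : 0 ≤ R * ‖a‖ := by positivity
  nlinarith

theorem summable_zeros {G : ℂ → ℂ} {A B : ℝ} (hG : ET G A B) (hs : ∀ z, G z = 0 → deriv G z ≠ 0)
    {a : ℂ} (ha : G a ≠ 0) {δ : ℝ} (hδ : 0 < δ) :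
    Summable (fun l : {z : ℂ // G z = 0} => Real.exp (-(δ * ‖(l : ℂ)‖))) := by
  classical
  obtain ⟨C, hC, hcount⟩ := count hG hs ha
  have hsum : Summable (fun n : ℕ => C * ((n:ℝ) + 2) * Real.exp (-(δ * n))) := by
    have h1 : Summable (fun n : ℕ => (n:ℝ) ^ 1 * Real.exp (-δ * n)) :=
      Real.summable_pow_mul_exp_neg_nat_mul 1 hδ
    have h2 : Summable (fun n : ℕ => (n:ℝ) ^ 0 * Real.exp (-δ * n)) :=
      Real.summable_pow_mul_exp_neg_nat_mul 0 hδ
    have h3 := ((h1.add (h2.mul_left 2)).mul_left C)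
    refine h3.congr fun n => ?_
    rw [neg_mul]; ring
  apply summable_of_sum_le (c := ∑' n : ℕ, C * ((n:ℝ) + 2) * Real.exp (-(δ * n)))
    (fun _ => (Real.exp_pos _).le)
  intro s
  set N : {z : ℂ // G z = 0} → ℕ := fun l => ⌊‖(l:ℂ)‖⌋₊ with hN
  obtain ⟨K, hK⟩ : ∃ K, ∀ l ∈ s, N l ∈ Finset.range K := by
    refine ⟨s.sup N + 1, fun l hl => ?_⟩
    rw [Finset.mem_range]
    exact Nat.lt_succ_of_le (Finset.le_sup hl)
  rw [← Finset.sum_fiberwise_of_maps_to hK]
  have hle : ∀ n ∈ Finset.range K, (∑ l ∈ s with N l = n, Real.exp (-(δ * ‖(l : ℂ)‖))) ≤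
      C * ((n:ℝ) + 2) * Real.exp (-(δ * n)) := by
    intro n _
    have h1 : (∑ l ∈ s with N l = n, Real.exp (-(δ * ‖(l : ℂ)‖))) ≤
        ∑ l ∈ s with N l = n, Real.exp (-(δ * n)) := by
      apply Finset.sum_le_sum
      intro l hl
      rw [Finset.mem_filter] at hl
      apply Real.exp_le_exp.2
      have : (n:ℝ) ≤ ‖(l:ℂ)‖ := by rw [← hl.2]; exact Nat.floor_le (norm_nonneg _)
      nlinarith
    refine h1.trans ?_
    rw [Finset.sum_const, nsmul_eq_mul]
    apply mul_le_mul_of_nonneg_right _ (Real.exp_pos _).le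
    have h2 := hcount ((n:ℝ) + 1) (by positivity)
      ((s.filter (fun l => N l = n)).image (fun l : {z : ℂ // G z = 0} => (l:ℂ))) (by
        intro z hz
        rw [Finset.mem_image] at hz
        obtain ⟨l, hl, rfl⟩ := hz
        rw [Finset.mem_filter] at hl
        refine ⟨l.2, ?_⟩
        rw [← hl.2]; exact Nat.lt_floor_add_one _)
    rw [Finset.card_image_of_injective _ Subtype.val_injective] at h2
    refine h2.trans (le_of_eq (by ring))
  refine (Finset.sum_le_sum hle).trans ?_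
  exact hsum.sum_le_tsum _ (fun n _ => by positivity)

/-- an entire quotient of exponential-type functions is of exponential type -/
theorem quot0 {G c E : ℂ → ℂ} {A B A' B' : ℝ} (hG : ET G A B)
    (hs : ∀ z, G z = 0 → deriv G z ≠ 0) (h0 : G 0 ≠ 0) (hc : ET c A' B')
    (hE : Differentiable ℂ E) (hGE : ∀ z, G z * E z = c z) : ∃ A₂ B₂, ET E A₂ B₂ := by
  classical
  have hB := hG.B0
  have hB' := hc.B0
  have hG0 : 0 < ‖G 0‖ := norm_pos_iff.2 h0
  set K₀ : ℝ := |A| + |Real.log ‖G 0‖| + 4 * B + 1 with hK₀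
  have hK₀p : 0 < K₀ := by positivity
  have key : ∀ R : ℝ, 0 < R → ∀ z, ‖z‖ < R / 2 →
      ‖E z‖ * (‖G 0‖ * Real.exp (-(2 * (K₀ * (1 + R))))) ≤ Real.exp (A' + B' * (4 * R)) := by
    intro R hR z hz
    obtain ⟨S, h, hmem, hd, hh, hne, hb, hh0⟩ := had_main hG hs h0 R hR
    have hS0 : (0:ℂ) ∉ S := fun h => h0 ((hmem 0).1 h).1
    have hSR : ∀ a ∈ S, a ≠ 0 ∧ ‖a‖ < R := fun a ha =>
      ⟨fun h => hS0 (h ▸ ha), ((hmem a).1 ha).2⟩
    obtain ⟨c₂, hc₂d, hc₂⟩ := div_factors S hc.diff (fun a ha => by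
      rw [← hGE a, ((hmem a).1 ha).1, zero_mul]) hS0
    have hc₂b := quot_bound S R (Real.exp (A' + B' * (4 * R))) hR hSR hc₂d hc₂ (fun w hw => by
      refine (hc.bound w).trans (Real.exp_le_exp.2 ?_)
      have := mul_le_mul_of_nonneg_left hw hB'
      linarith)
    have heq : (fun z => h z * E z) = c₂ := by
      apply Continuous.ext_on (s := (S : Set ℂ)ᶜ) _ (hd.continuous.mul hE.continuous)
        hc₂d.continuous
      · intro w hw
        have hp : (∏ a ∈ S, (1 - w / a)) ≠ 0 := by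
          rw [Finset.prod_ne_zero_iff]
          intro a ha h1
          rw [sub_eq_zero, eq_comm, div_eq_one_iff_eq (hSR a ha).1] at h1
          exact hw (h1 ▸ ha)
        apply mul_left_cancel₀ hp
        show _ * (h w * E w) = _
        rw [← mul_assoc, ← hh w, hGE w, hc₂ w]
      · exact (S.finite_toSet.countable).dense_compl ℝ
    obtain ⟨t, _, _, hlow⟩ := log_bounds (M := K₀ * (1 + R)) hR (by positivity) hd hne (by
      intro w hw
      have h1 := hb w (by linarith)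
      have h2 : ‖h w‖ ≤ Real.exp (A + B * (4 * R)) := by
        refine le_trans ?_ h1
        have : (1:ℝ) ≤ 3 ^ S.card := one_le_pow₀ (by norm_num)
        nlinarith [norm_nonneg (h w)]
      refine h2.trans ?_
      rw [hh0]
      have e : ‖G 0‖ = Real.exp (Real.log ‖G 0‖) := (Real.exp_log hG0).symm
      rw [e, ← Real.exp_add]
      apply Real.exp_le_exp.2
      have h4 : A ≤ |A| := le_abs_self A
      have h5 : -Real.log ‖G 0‖ ≤ |Real.log ‖G 0‖| := neg_le_abs _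
      have h6 : 0 ≤ |A| * R := by positivity
      have h7 : 0 ≤ |Real.log ‖G 0‖| * R := by positivity
      nlinarith)
    have h1 := hlow z hz
    rw [hh0] at h1
    have h2 := hc₂b z (by linarith [norm_nonneg z])
    have h3 : ‖c₂ z‖ ≤ Real.exp (A' + B' * (4 * R)) := by
      refine le_trans ?_ h2
      have : (1:ℝ) ≤ 3 ^ S.card := one_le_pow₀ (by norm_num)
      nlinarith [norm_nonneg (c₂ z)]
    have h4 : ‖h z‖ * ‖E z‖ = ‖c₂ z‖ := by rw [← norm_mul]; exact congrArg norm (congrFun heq z)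
    calc ‖E z‖ * (‖G 0‖ * Real.exp (-(2 * (K₀ * (1 + R))))) ≤ ‖E z‖ * ‖h z‖ :=
          mul_le_mul_of_nonneg_left h1 (norm_nonneg _)
      _ = ‖c₂ z‖ := by rw [mul_comm]; exact h4
      _ ≤ _ := h3
  refine ⟨A' + 4 * B' - Real.log ‖G 0‖ + 4 * K₀, 8 * B' + 4 * K₀, hE, ?_, by positivity⟩
  intro z
  have h1 := key (2 * ‖z‖ + 1) (by positivity) z (by linarith)
  have e : ‖G 0‖ = Real.exp (Real.log ‖G 0‖) := (Real.exp_log hG0).symm
  rw [e, ← Real.exp_add, ← le_div_iff₀ (Real.exp_pos _), ← Real.exp_sub] at h1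
  refine h1.trans (Real.exp_le_exp.2 ?_)
  nlinarith [norm_nonneg z]

theorem quot {G c E : ℂ → ℂ} {A B A' B' : ℝ} (hG : ET G A B)
    (hs : ∀ z, G z = 0 → deriv G z ≠ 0) {a : ℂ} (ha : G a ≠ 0) (hc : ET c A' B')
    (hE : Differentiable ℂ E) (hGE : ∀ z, G z * E z = c z) : ∃ A₂ B₂, ET E A₂ B₂ := by
  obtain ⟨A₂, B₂, h⟩ := quot0 (hG.shift a) (fun z hz => by
    rw [shift_deriv]; exact hs _ hz) (by simpa using ha) (hc.shift a)
    (hE.comp (differentiable_id.add_const a)) (fun z => hGE (z + a))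
  have h2 := h.shift (-a)
  refine ⟨A₂ + B₂ * ‖-a‖, B₂, ⟨hE, fun z => ?_, h2.B0⟩⟩
  have := h2.bound z
  simpa using this

end H1R3.Z
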