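import Pool.Agent.H1R3.Z.Had2
set_option autoImplicit false
open Set Filter Topology Complex Metric

namespace H1R3.Z

theorem one_add_le {κ y : ℝ} (hκ : 0 < κ) (hκ1 : κ ≤ 1) :
    1 + y ≤ κ⁻¹ * Real.exp (κ * y) := by
  have h1 := Real.add_one_le_exp (κ * y)
  rw [← div_eq_inv_mul, le_div_iff₀ hκ]
  nlinarith

/-- a finite product of linear factors has small exponential growth -/
theorem fin_prod_small {ι : Type*} (s : Finset ι) (r : ι → ℝ) (hr : ∀ i ∈ s, 0 < r i) (η : ℝ)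
    (hη : 0 < η) : ∃ K : ℝ, ∀ x : ℝ, 0 ≤ x → ∏ i ∈ s, (1 + x / r i) ≤ Real.exp (K + η * x) := by
  classical
  induction s using Finset.induction_on generalizing η with
  | empty => exact ⟨0, fun x hx => by simp; positivity⟩
  | insert a s ha ih =>
    obtain ⟨K, hK⟩ := ih (fun i hi => hr i (Finset.mem_insert_of_mem hi)) (η / 2) (by positivity)
    have hra := hr a (Finset.mem_insert_self _ _)
    set κ : ℝ := min 1 (η / 2 * r a) with hκ
    have hκ0 : 0 < κ := lt_min one_pos (by positivity)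
    refine ⟨K - Real.log κ, fun x hx => ?_⟩
    rw [Finset.prod_insert ha]
    have h1 : 1 + x / r a ≤ κ⁻¹ * Real.exp (κ * (x / r a)) :=
      one_add_le hκ0 (min_le_left _ _)
    have h2 : κ * (x / r a) ≤ η / 2 * x := by
      calc κ * (x / r a) ≤ (η / 2 * r a) * (x / r a) :=
            mul_le_mul_of_nonneg_right (min_le_right _ _) (by positivity)
        _ = η / 2 * x := by field_simp
    have h3 : 1 + x / r a ≤ Real.exp (-Real.log κ + η / 2 * x) := by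
      rw [Real.exp_add, Real.exp_neg, Real.exp_log hκ0]
      exact h1.trans (mul_le_mul_of_nonneg_left (Real.exp_le_exp.2 h2) (inv_nonneg.2 hκ0.le))
    calc (1 + x / r a) * ∏ i ∈ s, (1 + x / r i) ≤
          Real.exp (-Real.log κ + η / 2 * x) * Real.exp (K + η / 2 * x) := by
          apply mul_le_mul h3 (hK x hx) _ (Real.exp_pos _).le
          apply Finset.prod_nonneg
          intro i hi
          have := hr i (Finset.mem_insert_of_mem hi)
          positivity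
      _ = Real.exp (K - Real.log κ + η * x) := by rw [← Real.exp_add]; congr 1; ring

theorem prod_deriv0 (S : Finset ℂ) :
    HasDerivAt (fun z : ℂ => ∏ a ∈ S, (1 - z / a)) (-∑ a ∈ S, 1 / a) 0 := by
  classical
  induction S using Finset.induction_on with
  | empty => simpa using hasDerivAt_const (0:ℂ) (1:ℂ)
  | insert a S ha ih =>
    have h1 : HasDerivAt (fun z : ℂ => (1 - z / a)) (-(1 / a)) 0 := by
      have := ((hasDerivAt_id (0:ℂ)).div_const a).const_sub 1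
      simpa using this
    have h2 := h1.mul ih
    have e : (fun z : ℂ => ∏ b ∈ insert a S, (1 - z / b)) =
        (fun z : ℂ => (1 - z / a)) * fun z => ∏ b ∈ S, (1 - z / b) := by
      funext z; rw [Finset.prod_insert ha]; rfl
    rw [e]
    refine h2.congr_deriv ?_
    rw [Finset.sum_insert ha]
    simp
    ring

theorem had_full {G : ℂ → ℂ} {A B : ℝ} (hG : ET G A B) (hs : ∀ z, G z = 0 → deriv G z ≠ 0)
    (h0 : G 0 ≠ 0) : ∃ K₀ : ℝ, 0 < K₀ ∧ ∀ R : ℝ, 0 < R →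
    ∃ (S : Finset ℂ) (h : ℂ → ℂ), (∀ z, z ∈ S ↔ (G z = 0 ∧ ‖z‖ < R)) ∧
      (∀ z, G z = (∏ a ∈ S, (1 - z / a)) * h z) ∧ (∀ z, ‖z‖ < R → h z ≠ 0) ∧
      (∀ z, ‖z‖ < R / 2 → |Real.log ‖h z‖ - Real.log ‖G 0‖ -
        ((deriv G 0 / G 0 + ∑ a ∈ S, 1 / a) * z).re| ≤ 16 * (K₀ * (1 + R)) * (‖z‖ / R) ^ 2) := by
  have hB := hG.B0
  have hG0 : 0 < ‖G 0‖ := norm_pos_iff.2 h0
  set K₀ : ℝ := |A| + |Real.log ‖G 0‖| + 4 * B + 1 with hK₀
  have hK₀p : 0 < K₀ := by positivity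
  refine ⟨K₀, hK₀p, fun R hR => ?_⟩
  obtain ⟨S, h, hmem, hd, hh, hne, hb, hh0⟩ := had_main hG hs h0 R hR
  obtain ⟨t, ht, hmid, _⟩ := log_bounds (M := K₀ * (1 + R)) hR (by positivity) hd hne (by
      intro w hw
      have h1 := hb w (by linarith)
      have h2 : ‖h w‖ ≤ Real.exp (A + B * (4 * R)) := by
        refine le_trans ?_ h1
        have : (1:ℝ) ≤ 3 ^ S.card := one_le_pow₀ (by norm_num)
        nlinarith [norm_nonneg (h w)]
      refine h2.trans ?_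
      rw [hh0]
      have e : ‖G 0‖ = Real.exp (Real.log ‖G 0‖) := (Real.exp_log hG0).symm
      rw [e, ← Real.exp_add]
      apply Real.exp_le_exp.2
      have h4 : A ≤ |A| := le_abs_self A
      have h5 : -Real.log ‖G 0‖ ≤ |Real.log ‖G 0‖| := neg_le_abs _
      have h6 : 0 ≤ |A| * R := by positivity
      have h7 : 0 ≤ |Real.log ‖G 0‖| * R := by positivity
      nlinarith)
  refine ⟨S, h, hmem, hh, hne, ?_⟩
  have hder : deriv G 0 = -(∑ a ∈ S, 1 / a) * h 0 + deriv h 0 := by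
    have h1 := (prod_deriv0 S).mul (hd 0).hasDerivAt
    have e : G = (fun z : ℂ => ∏ a ∈ S, (1 - z / a)) * h := by funext z; exact hh z
    rw [← e] at h1
    rw [h1.deriv]
    simp
  have hh0' : h 0 ≠ 0 := by rw [hh0]; exact h0
  have ht2 : t = deriv G 0 / G 0 + ∑ a ∈ S, 1 / a := by
    rw [ht, hder, ← hh0]
    field_simp
    ring
  intro z hz
  have h1 := hmid z hz
  rw [hh0, ht2] at h1
  exact h1

theorem indicator_linear {G : ℂ → ℂ} {A B : ℝ} (hG : ET G A B)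
    (hs : ∀ z, G z = 0 → deriv G z ≠ 0) (h0 : G 0 ≠ 0)
    (hsum : Summable (fun l : {z : ℂ // G z = 0} => ‖(l:ℂ)‖⁻¹)) :
    ∃ t : ℂ, ∀ ε : ℝ, 0 < ε → ∃ K : ℝ, ∀ z, ‖G z‖ ≤ Real.exp (K + (t * z).re + ε * ‖z‖) := by
  classical
  obtain ⟨K₀, hK₀, hfull⟩ := had_full hG hs h0
  have hsumc : Summable (fun l : {z : ℂ // G z = 0} => 1 / (l:ℂ)) := by
    apply Summable.of_norm
    simpa using hsum
  refine ⟨deriv G 0 / G 0 + ∑' l : {z : ℂ // G z = 0}, 1 / (l:ℂ), ?_⟩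
  intro ε hε
  set η : ℝ := ε / 6 with hη
  have hηp : 0 < η := by positivity
  -- choose the finite set
  obtain ⟨s₁, hs₁⟩ : ∃ s₁ : Finset {z : ℂ // G z = 0}, ∀ s, s₁ ⊆ s →
      ‖(∑ l ∈ s, 1 / (l:ℂ)) - ∑' l : {z : ℂ // G z = 0}, 1 / (l:ℂ)‖ < η := by
    have h1 := hsumc.hasSum
    rw [HasSum, SummationFilter.unconditional_filter, Metric.tendsto_atTop] at h1
    obtain ⟨s₁, h2⟩ := h1 η hηp
    exact ⟨s₁, fun s hs => by simpa [dist_eq_norm] using h2 s hs⟩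
  obtain ⟨s₂, hs₂⟩ : ∃ s₂ : Finset {z : ℂ // G z = 0}, ∀ t, Disjoint t s₂ →
      ∑ l ∈ t, ‖(l:ℂ)‖⁻¹ < η := by
    obtain ⟨s₂, h2⟩ := (summable_iff_vanishing_norm.1 hsum) η hηp
    refine ⟨s₂, fun t ht => ?_⟩
    have := h2 t ht
    rwa [Real.norm_eq_abs, abs_of_nonneg (Finset.sum_nonneg fun _ _ => by positivity)] at this
  set s₀ := s₁ ∪ s₂ with hs₀
  have hne0 : ∀ l : {z : ℂ // G z = 0}, 0 < ‖(l:ℂ)‖ := fun l =>
    norm_pos_iff.2 (fun h => h0 (by have h9 := l.2; rwa [h] at h9))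
  obtain ⟨K₁, hK₁⟩ := fin_prod_small s₀ (fun l => ‖(l:ℂ)‖) (fun l _ => hne0 l) η hηp
  obtain ⟨R₀, hR₀, hR₀1⟩ : ∃ R₀ : ℝ, (∀ l ∈ s₀, ‖(l:ℂ)‖ < R₀) ∧ 1 ≤ R₀ := by
    refine ⟨(∑ l ∈ s₀, ‖(l:ℂ)‖) + 1, fun l hl => ?_, ?_⟩
    · have := Finset.single_le_sum (f := fun l : {z : ℂ // G z = 0} => ‖(l:ℂ)‖)
        (fun _ _ => norm_nonneg _) hl
      linarith
    · have : 0 ≤ ∑ l ∈ s₀, ‖(l:ℂ)‖ := Finset.sum_nonneg fun _ _ => norm_nonneg _
      linarith
  set κ : ℝ := min (1 / 4) (ε / (64 * K₀)) with hκ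
  have hκ0 : 0 < κ := lt_min (by norm_num) (by positivity)
  have hκ1 : κ ≤ 1 / 4 := min_le_left _ _
  have hκ2 : 32 * K₀ * κ ≤ ε / 2 := by
    calc 32 * K₀ * κ ≤ 32 * K₀ * (ε / (64 * K₀)) :=
          mul_le_mul_of_nonneg_left (min_le_right _ _) (by positivity)
      _ = ε / 2 := by field_simp; ring
  refine ⟨K₁ + Real.log ‖G 0‖, fun z => ?_⟩
  set x := ‖z‖ with hx
  have hx0 : 0 ≤ x := norm_nonneg z
  set R : ℝ := x / κ + R₀ with hR
  have hxk : 0 ≤ x / κ := by positivity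
  have hx4 : 4 * x ≤ x / κ := by
    rw [le_div_iff₀ hκ0]
    nlinarith
  have hRp : 0 < R := by linarith
  have hR1 : 1 ≤ R := by linarith
  have hzR : x < R / 2 := by linarith
  obtain ⟨S, h, hmem, hh, hne, hb⟩ := hfull R hRp
  have hbz := hb z hzR
  have hhz : 0 < ‖h z‖ := norm_pos_iff.2 (hne z (by rw [← hx]; linarith))
  -- convert S
  set sR : Finset {z : ℂ // G z = 0} := S.subtype (fun z => G z = 0) with hsR
  have hSp : ∀ a ∈ S, G a = 0 := fun a ha => ((hmem a).1 ha).1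
  have hs₀R : s₀ ⊆ sR := by
    intro l hl
    rw [hsR, Finset.mem_subtype]
    exact (hmem _).2 ⟨l.2, by have := hR₀ l hl; linarith⟩
  have hsumS : ∑ a ∈ S, 1 / a = ∑ l ∈ sR, 1 / (l:ℂ) :=
    (Finset.sum_subtype_of_mem (fun a : ℂ => 1 / a) hSp).symm
  have ht1 : ‖(∑ a ∈ S, 1 / a) - ∑' l : {z : ℂ // G z = 0}, 1 / (l:ℂ)‖ < η := by
    rw [hsumS]
    exact hs₁ sR (Finset.union_subset_left hs₀R)
  -- product bound
  have hP : ‖∏ a ∈ S, (1 - z / a)‖ ≤ Real.exp (K₁ + η * x + η * x) := by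
    rw [norm_prod]
    have h1 : ∏ a ∈ S, ‖1 - z / a‖ ≤ ∏ a ∈ S, (1 + x / ‖a‖) := by
      apply Finset.prod_le_prod (fun _ _ => norm_nonneg _)
      intro a _
      calc ‖1 - z / a‖ ≤ ‖(1:ℂ)‖ + ‖z / a‖ := norm_sub_le _ _
        _ = 1 + x / ‖a‖ := by rw [norm_one, norm_div]
    refine h1.trans ?_
    have h2 : ∏ a ∈ S, (1 + x / ‖a‖) = ∏ l ∈ sR, (1 + x / ‖(l:ℂ)‖) :=
      (Finset.prod_subtype_of_mem (fun a : ℂ => 1 + x / ‖a‖) hSp).symm
    rw [h2, ← Finset.prod_sdiff hs₀R, mul_comm, Real.exp_add]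
    apply mul_le_mul (hK₁ x hx0) _ (Finset.prod_nonneg fun l _ => by
      have := hne0 l; positivity) (Real.exp_pos _).le
    calc ∏ l ∈ sR \ s₀, (1 + x / ‖(l:ℂ)‖) ≤ ∏ l ∈ sR \ s₀, Real.exp (x / ‖(l:ℂ)‖) := by
          apply Finset.prod_le_prod
          · intro l _; have := hne0 l; positivity
          · intro l _; rw [add_comm]; exact Real.add_one_le_exp _
      _ = Real.exp (x * ∑ l ∈ sR \ s₀, ‖(l:ℂ)‖⁻¹) := by
          rw [← Real.exp_sum, Finset.mul_sum]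
          simp only [div_eq_mul_inv]
      _ ≤ Real.exp (η * x) := by
          apply Real.exp_le_exp.2
          rw [mul_comm η x]
          apply mul_le_mul_of_nonneg_left _ hx0
          apply (hs₂ _ _).le
          exact Finset.disjoint_of_subset_right Finset.subset_union_right Finset.sdiff_disjoint
  -- bound for log h
  have hM : 16 * (K₀ * (1 + R)) * (x / R) ^ 2 ≤ ε / 2 * x := by
    have h1 : x / R ≤ κ := by
      rw [div_le_iff₀ hRp]
      have : κ * R = x + κ * R₀ := by rw [hR]; field_simp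
      rw [this]; nlinarith
    have h2 : (1 + R) * (x / R) ≤ 2 * x := by
      rw [← mul_div_assoc, div_le_iff₀ hRp]
      nlinarith
    have h3 : 0 ≤ x / R := by positivity
    calc 16 * (K₀ * (1 + R)) * (x / R) ^ 2 = 16 * K₀ * ((1 + R) * (x / R)) * (x / R) := by ring
      _ ≤ 16 * K₀ * (2 * x) * κ := by
          apply mul_le_mul _ h1 h3 (by positivity)
          exact mul_le_mul_of_nonneg_left h2 (by positivity)
      _ = (32 * K₀ * κ) * x := by ring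
      _ ≤ ε / 2 * x := mul_le_mul_of_nonneg_right hκ2 hx0
  have hlog : Real.log ‖h z‖ ≤ Real.log ‖G 0‖ +
      ((deriv G 0 / G 0 + ∑ a ∈ S, 1 / a) * z).re + ε / 2 * x := by
    have := (abs_le.1 hbz).2
    linarith
  have hre : ((deriv G 0 / G 0 + ∑ a ∈ S, 1 / a) * z).re ≤
      ((deriv G 0 / G 0 + ∑' l : {z : ℂ // G z = 0}, 1 / (l:ℂ)) * z).re + η * x := by
    have e : (deriv G 0 / G 0 + ∑ a ∈ S, 1 / a) * z =
        (deriv G 0 / G 0 + ∑' l : {z : ℂ // G z = 0}, 1 / (l:ℂ)) * z +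
        ((∑ a ∈ S, 1 / a) - ∑' l : {z : ℂ // G z = 0}, 1 / (l:ℂ)) * z := by ring
    rw [e, Complex.add_re]
    have h1 := (Complex.re_le_norm (((∑ a ∈ S, 1 / a) -
      ∑' l : {z : ℂ // G z = 0}, 1 / (l:ℂ)) * z))
    rw [norm_mul] at h1
    have h2 := mul_le_mul_of_nonneg_right ht1.le hx0
    linarith
  have hhb : ‖h z‖ ≤ Real.exp (Real.log ‖G 0‖ +
      ((deriv G 0 / G 0 + ∑' l : {z : ℂ // G z = 0}, 1 / (l:ℂ)) * z).re + η * x + ε / 2 * x) := by
    rw [← Real.log_le_iff_le_exp hhz]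
    linarith
  rw [hh z, norm_mul]
  calc ‖∏ a ∈ S, (1 - z / a)‖ * ‖h z‖ ≤ _ :=
        mul_le_mul hP hhb (norm_nonneg _) (Real.exp_pos _).le
    _ ≤ _ := by
        rw [← Real.exp_add]
        apply Real.exp_le_exp.2
        have : η * x = ε / 6 * x := rfl
        linarith

end H1R3.Z
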