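import Pool.Agent.H1R3.Z.Acf
import Pool.Agent.H1R3.Z.Interp
set_option autoImplicit false
open MeasureTheory Set Filter Topology Complex Metric

namespace H1R3.Z

theorem quad_rem {G : ℂ → ℂ} (hG : Differentiable ℂ G) {l : ℂ} (hl : G l = 0) {M : ℝ}
    (hM : 1 ≤ M) (hb : ∀ z, ‖z - l‖ ≤ 1 → ‖G z‖ ≤ M * ‖deriv G l‖) (z : ℂ) (hz : ‖z - l‖ < 1) :
    ‖G z - deriv G l * (z - l)‖ ≤ 2 * M * ‖deriv G l‖ * ‖z - l‖ ^ 2 := by
  set D := ‖deriv G l‖ with hD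
  have hD0 : 0 ≤ D := norm_nonneg _
  set f₂ : ℂ → ℂ := fun w => G w - deriv G l * (w - l) with hf₂
  have hf20 : f₂ l = 0 := by simp [hf₂, hl]
  have hmaps : MapsTo f₂ (ball l 1) (closedBall (f₂ l) (2 * M * D)) := by
    intro w hw
    rw [mem_ball_iff_norm] at hw
    rw [hf20, mem_closedBall_zero_iff]
    calc ‖G w - deriv G l * (w - l)‖ ≤ ‖G w‖ + ‖deriv G l * (w - l)‖ := norm_sub_le _ _
      _ ≤ M * D + D * 1 := by
          rw [norm_mul]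
          exact add_le_add (hb w hw.le) (mul_le_mul_of_nonneg_left hw.le hD0)
      _ ≤ 2 * M * D := by nlinarith
  have hlo : (f₂ · - f₂ l) =o[𝓝 l] (fun w ↦ ‖w - l‖ ^ 1) := by
    have h1 := (hG l).hasDerivAt.isLittleO.norm_right
    have e1 : (fun x => G x - G l - (x - l) • deriv G l) = (f₂ · - f₂ l) := by
      funext x
      simp only [hf₂, smul_eq_mul, hl, sub_self, mul_zero]
      ring
    rw [e1] at h1
    simpa using h1
  have h4 := Complex.dist_le_mul_div_pow_of_mapsTo_ball_of_isLittleO (n := 1) (f := f₂)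
    ((hG.sub ((differentiable_const _).mul (differentiable_id.sub_const l))).differentiableOn)
    hmaps hlo (mem_ball_iff_norm.2 hz)
  rw [hf20, dist_zero_right, dist_eq_norm, div_one] at h4
  exact h4

theorem loc_G {G : ℂ → ℂ} (hG : Differentiable ℂ G) {l : ℂ} (hl : G l = 0) {M : ℝ}
    (hM : 1 ≤ M) (hb : ∀ z, ‖z - l‖ ≤ 1 → ‖G z‖ ≤ M * ‖deriv G l‖) (z : ℂ)
    (hz : ‖z - l‖ ≤ 1 / (16 * M)) :
    3 / 4 * ‖deriv G l‖ * ‖z - l‖ ≤ ‖G z‖ ∧ ‖G z‖ ≤ 5 / 4 * ‖deriv G l‖ * ‖z - l‖ := by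
  have hM0 : 0 < M := by linarith
  set D := ‖deriv G l‖ with hD
  have hD0 : 0 ≤ D := norm_nonneg _
  have h16 : 1 / (16 * M) < 1 := by rw [div_lt_one (by positivity)]; linarith
  have h1 := quad_rem hG hl hM hb z (by linarith)
  set r := ‖z - l‖ with hr
  have hr0 : 0 ≤ r := norm_nonneg _
  have hMr : M * r ≤ 1 / 16 := by
    calc M * r ≤ M * (1 / (16 * M)) := mul_le_mul_of_nonneg_left hz hM0.le
      _ = 1 / 16 := by field_simp
  have h2 : 2 * M * D * r ^ 2 ≤ 1 / 8 * D * r := by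
    calc 2 * M * D * r ^ 2 = 2 * (M * r) * (D * r) := by ring
      _ ≤ 2 * (1 / 16) * (D * r) := by
          apply mul_le_mul_of_nonneg_right _ (by positivity); linarith
      _ = _ := by ring
  have h3 : ‖deriv G l * (z - l)‖ = D * r := by rw [norm_mul]
  have h4 := norm_sub_norm_le (deriv G l * (z - l)) (G z)
  rw [norm_sub_rev] at h4
  have h5 := norm_sub_norm_le (G z) (deriv G l * (z - l))
  rw [h3] at h4 h5
  have h6 : 0 ≤ D * r := by positivity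
  constructor <;> nlinarith

theorem loc_G' {G : ℂ → ℂ} (hG : Differentiable ℂ G) {l : ℂ} (hl : G l = 0) {M : ℝ}
    (hM : 1 ≤ M) (hb : ∀ z, ‖z - l‖ ≤ 1 → ‖G z‖ ≤ M * ‖deriv G l‖) (z : ℂ)
    (hz : ‖z - l‖ ≤ 1 / (16 * M)) (hzl : z ≠ l) :
    1 / 2 * ‖deriv G l‖ ≤ ‖deriv G z‖ := by
  have hM0 : 0 < M := by linarith
  set D := ‖deriv G l‖ with hD
  have hD0 : 0 ≤ D := norm_nonneg _
  have h16 : 1 / (16 * M) ≤ 1 / 16 := by
    apply one_div_le_one_div_of_le (by norm_num); linarith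
  set r := ‖z - l‖ with hr
  have hr0 : 0 < r := norm_pos_iff.2 (sub_ne_zero.2 hzl)
  have hMr : M * r ≤ 1 / 16 := by
    calc M * r ≤ M * (1 / (16 * M)) := mul_le_mul_of_nonneg_left hz hM0.le
      _ = 1 / 16 := by field_simp
  have hd2 : Differentiable ℂ (fun w => G w - deriv G l * (w - l)) :=
    hG.sub ((differentiable_const _).mul (differentiable_id.sub_const l))
  have h1 := Complex.norm_deriv_le_of_forall_mem_sphere_norm_le
    (f := fun w => G w - deriv G l * (w - l)) (c := z) (R := r)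
    (C := 8 * M * D * r ^ 2) hr0 hd2.diffContOnCl (by
      intro w hw
      rw [mem_sphere_iff_norm] at hw
      have h2 : ‖w - l‖ ≤ 2 * r := by
        have := norm_add_le (w - z) (z - l)
        rw [sub_add_sub_cancel] at this
        linarith
      have h3 := quad_rem hG hl hM hb w (by linarith)
      refine h3.trans ?_
      have h4 : ‖w - l‖ ^ 2 ≤ (2 * r) ^ 2 := pow_le_pow_left₀ (norm_nonneg _) h2 2
      calc 2 * M * D * ‖w - l‖ ^ 2 ≤ 2 * M * D * (2 * r) ^ 2 :=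
            mul_le_mul_of_nonneg_left h4 (by positivity)
        _ = _ := by ring)
  have h2 : deriv (fun w => G w - deriv G l * (w - l)) z = deriv G z - deriv G l := by
    have h3 : HasDerivAt (fun w => G w - deriv G l * (w - l)) (deriv G z - deriv G l * 1) z :=
      (hG z).hasDerivAt.sub (((hasDerivAt_id z).sub_const l).const_mul _)
    rw [h3.deriv, mul_one]
  rw [h2] at h1
  have h3 : 8 * M * D * r ^ 2 / r = 8 * (M * r) * D := by field_simp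
  rw [h3] at h1
  have h4 : 8 * (M * r) * D ≤ 1 / 2 * D := by nlinarith
  have h5 := norm_sub_norm_le (deriv G l) (deriv G z)
  rw [norm_sub_rev] at h5
  linarith

theorem sep {G : ℂ → ℂ} (hG : Differentiable ℂ G) {l : ℂ} (hl : G l = 0) (hl' : deriv G l ≠ 0)
    {M : ℝ} (hM : 1 ≤ M) (hb : ∀ z, ‖z - l‖ ≤ 1 → ‖G z‖ ≤ M * ‖deriv G l‖) {l' : ℂ}
    (h' : G l' = 0) (hne : l' ≠ l) : 1 / (16 * M) < ‖l' - l‖ := by
  by_contra hcon
  push Not at hcon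
  have h1 := (loc_G hG hl hM hb l' hcon).1
  rw [h', norm_zero] at h1
  have h2 : 0 < ‖deriv G l‖ := norm_pos_iff.2 hl'
  have h3 : 0 < ‖l' - l‖ := norm_pos_iff.2 (sub_ne_zero.2 hne)
  have : 0 < 3 / 4 * ‖deriv G l‖ * ‖l' - l‖ := by positivity
  linarith

theorem exp_sub_one_bounds {η : ℂ} (h : ‖η‖ ≤ 1 / 2) :
    ‖η‖ / 2 ≤ ‖exp η - 1‖ ∧ ‖exp η - 1‖ ≤ 3 / 2 * ‖η‖ := by
  have h1 := Complex.norm_exp_sub_one_sub_id_le (x := η) (by linarith)
  have h2 : ‖η‖ ^ 2 ≤ ‖η‖ / 2 := by nlinarith [norm_nonneg η]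
  have h3 := norm_sub_norm_le (exp η - 1) η
  have h4 := norm_sub_norm_le η (exp η - 1)
  have h5 : ‖η - (exp η - 1)‖ = ‖exp η - 1 - η‖ := norm_sub_rev _ _
  rw [h5] at h4
  constructor <;> linarith

theorem polar_pt {l : ℂ} (hl : l ≠ 0) (s θ : ℝ) :
    exp ((s:ℂ) + θ * I) = l * exp (((s - Real.log ‖l‖ : ℝ) : ℂ) + ((θ - arg l : ℝ) : ℂ) * I) := by
  have e : l = exp ((Real.log ‖l‖ : ℝ) + (arg l : ℝ) * I) := by
    rw [Complex.exp_add, ← Complex.ofReal_exp, Real.exp_log (norm_pos_iff.2 hl)]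
    exact (Complex.norm_mul_exp_arg_mul_I l).symm
  conv_rhs => rw [show l * exp (((s - Real.log ‖l‖ : ℝ) : ℂ) + ((θ - arg l : ℝ) : ℂ) * I) =
    exp ((Real.log ‖l‖ : ℝ) + (arg l : ℝ) * I) *
      exp (((s - Real.log ‖l‖ : ℝ) : ℂ) + ((θ - arg l : ℝ) : ℂ) * I) from by rw [← e]]
  rw [← Complex.exp_add]
  congr 1
  push_cast
  ring

/-- distance of a polar point from the zero -/
theorem polar_dist {l : ℂ} (hl : l ≠ 0) {s θ σ : ℝ} (h1 : |s - Real.log ‖l‖| ≤ σ)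
    (h2 : |θ - arg l| ≤ σ) (hσ : σ ≤ 1 / 4) :
    ‖exp ((s:ℂ) + θ * I) - l‖ ≤ 3 * ‖l‖ * σ ∧
    ‖l‖ * |s - Real.log ‖l‖| / 2 ≤ ‖exp ((s:ℂ) + θ * I) - l‖ := by
  set η : ℂ := ((s - Real.log ‖l‖ : ℝ) : ℂ) + ((θ - arg l : ℝ) : ℂ) * I with hη
  have hηb : ‖η‖ ≤ 2 * σ := by
    calc ‖η‖ ≤ ‖((s - Real.log ‖l‖ : ℝ) : ℂ)‖ + ‖((θ - arg l : ℝ) : ℂ) * I‖ := norm_add_le _ _
      _ = |s - Real.log ‖l‖| + |θ - arg l| := by
          rw [norm_mul, Complex.norm_I, mul_one, Complex.norm_real, Complex.norm_real]; rfl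
      _ ≤ 2 * σ := by linarith
  have hre : |s - Real.log ‖l‖| ≤ ‖η‖ := by
    have := Complex.abs_re_le_norm η
    simpa [hη] using this
  have hb := exp_sub_one_bounds (η := η) (by linarith)
  have e : exp ((s:ℂ) + θ * I) - l = l * (exp η - 1) := by
    rw [polar_pt hl s θ]; ring
  rw [e, norm_mul]
  have hl0 : 0 ≤ ‖l‖ := norm_nonneg l
  constructor
  · calc ‖l‖ * ‖exp η - 1‖ ≤ ‖l‖ * (3 / 2 * (2 * σ)) :=
          mul_le_mul_of_nonneg_left (hb.2.trans (by linarith)) hl0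
      _ = 3 * ‖l‖ * σ := by ring
  · have := mul_le_mul_of_nonneg_left (hb.1) hl0
    nlinarith

theorem en_lower {G : ℂ → ℂ} (hG : Differentiable ℂ G) {l : ℂ} (hl : G l = 0) (hl0 : l ≠ 0)
    (hl' : deriv G l ≠ 0)
    {M : ℝ} (hM : 1 ≤ M) (hb : ∀ z, ‖z - l‖ ≤ 1 → ‖G z‖ ≤ M * ‖deriv G l‖) {a b : ℝ}
    (ha : 0 < a) (hb4 : b ≤ 1 / 4) (hbM : 3 * ‖l‖ * b ≤ 1 / (16 * M))
    (haD : Real.exp 1 ≤ 3 / 8 * ‖deriv G l‖ * ‖l‖ * a) {s θ : ℝ}
    (hs1 : a ≤ s - Real.log ‖l‖) (hs2 : s - Real.log ‖l‖ ≤ b)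
    (hθ : |θ - arg l| ≤ s - Real.log ‖l‖) :
    1 / (64 * (s - Real.log ‖l‖) ^ 2) ≤ (lift G hG).en (s + θ * I) := by
  set σ := s - Real.log ‖l‖ with hσ
  have hσ0 : 0 < σ := by linarith
  have hx : 0 < ‖l‖ := norm_pos_iff.2 hl0
  have hD : 0 < ‖deriv G l‖ := norm_pos_iff.2 hl'
  obtain ⟨hd1, hd2⟩ := polar_dist hl0 (s := s) (θ := θ) (σ := σ)
    (by rw [← hσ, abs_of_pos hσ0]) hθ (by linarith)
  set z := exp ((s:ℂ) + θ * I) with hz
  rw [← hσ, abs_of_pos hσ0] at hd2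
  have hzl : ‖z - l‖ ≤ 1 / (16 * M) := by
    refine hd1.trans (le_trans ?_ hbM)
    exact mul_le_mul_of_nonneg_left hs2 (by positivity)
  have hzp : 0 < ‖z - l‖ := lt_of_lt_of_le (by positivity) hd2
  have hne : z ≠ l := sub_ne_zero.1 (norm_pos_iff.1 hzp)
  obtain ⟨hg1, hg2⟩ := loc_G hG hl hM hb z hzl
  have hg' := loc_G' hG hl hM hb z hzl hne
  have hGe : Real.exp 1 ≤ ‖G z‖ := by
    calc Real.exp 1 ≤ 3 / 8 * ‖deriv G l‖ * ‖l‖ * a := haD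
      _ ≤ 3 / 8 * ‖deriv G l‖ * ‖l‖ * σ := mul_le_mul_of_nonneg_left hs1 (by positivity)
      _ = 3 / 4 * ‖deriv G l‖ * (‖l‖ * σ / 2) := by ring
      _ ≤ 3 / 4 * ‖deriv G l‖ * ‖z - l‖ := mul_le_mul_of_nonneg_left hd2 (by positivity)
      _ ≤ ‖G z‖ := hg1
  have hGz : 0 < ‖G z‖ := lt_of_lt_of_le (Real.exp_pos 1) hGe
  have hzn : ‖l‖ ≤ ‖z‖ := by
    have h1 : ‖z‖ = Real.exp s := by rw [hz, norm_exp_pt]
    rw [h1, ← Real.log_le_iff_le_exp hx]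
    linarith
  have hu : psi ((lift G hG).u (s + θ * I)) = 1 := by
    apply psi_one
    show 1 ≤ Real.log ‖G (exp ((s:ℂ) + θ * I))‖
    rw [Real.le_log_iff_exp_le hGz]; exact hGe
  have hp : 1 / (8 * σ) ≤ ‖(lift G hG).p (s + θ * I)‖ := by
    show 1 / (8 * σ) ≤ ‖deriv G (exp ((s:ℂ) + θ * I)) * exp ((s:ℂ) + θ * I) /
      G (exp ((s:ℂ) + θ * I))‖
    rw [← hz, norm_div, norm_mul, div_le_div_iff₀ (by positivity) hGz]
    calc 1 * ‖G z‖ ≤ 5 / 4 * ‖deriv G l‖ * (3 * ‖l‖ * σ) := by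
          rw [one_mul]
          exact hg2.trans (mul_le_mul_of_nonneg_left hd1 (by positivity))
      _ ≤ (1 / 2 * ‖deriv G l‖ * ‖l‖) * (8 * σ) := by
          have : 0 < ‖deriv G l‖ * ‖l‖ * σ := by positivity
          nlinarith
      _ ≤ (‖deriv G z‖ * ‖z‖) * (8 * σ) := by
          apply mul_le_mul_of_nonneg_right _ (by positivity)
          exact mul_le_mul hg' hzn hx.le (norm_nonneg _)
  simp only [LF.en]
  rw [hu, one_pow, one_mul]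
  calc 1 / (64 * σ ^ 2) = (1 / (8 * σ)) ^ 2 := by
        rw [div_pow, mul_pow]; norm_num
    _ ≤ _ := pow_le_pow_left₀ (by positivity) hp 2

end H1R3.Z
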