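import Pool.Agent.H1R3.Z.Had
set_option autoImplicit false
open Set Filter Topology Complex Metric

namespace H1R3.Z

/-- point on a ray -/
noncomputable def ray (θ r : ℝ) : ℂ := (r : ℂ) * exp ((θ : ℂ) * I)

theorem ray_norm (θ : ℝ) {r : ℝ} (hr : 0 ≤ r) : ‖ray θ r‖ = r := by
  unfold ray
  rw [norm_mul, Complex.norm_exp_ofReal_mul_I, mul_one, Complex.norm_real, Real.norm_eq_abs,
    abs_of_nonneg hr]

/-- eventual exponential bound on a ray -/
def RB (L : ℂ → ℂ) (θ s : ℝ) : Prop := ∀ᶠ r : ℝ in atTop, ‖L (ray θ r)‖ ≤ Real.exp (s * r)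

theorem RB.mono {L : ℂ → ℂ} {θ s s' : ℝ} (h : RB L θ s) (hs : s ≤ s') : RB L θ s' := by
  filter_upwards [h, eventually_ge_atTop 0] with r hr hr0
  exact hr.trans (Real.exp_le_exp.2 (mul_le_mul_of_nonneg_right hs hr0))

theorem RB.const {L : ℂ → ℂ} {A B : ℝ} (hL : ET L A B) {θ s : ℝ} (h : RB L θ s) :
    ∃ K : ℝ, ∀ r, 0 ≤ r → ‖L (ray θ r)‖ ≤ Real.exp (K + s * r) := by
  obtain ⟨r₀, hr₀⟩ := eventually_atTop.1 h
  have hB := hL.B0
  set r₁ := max r₀ 0 with hr₁
  refine ⟨|A| + B * r₁ + |s| * r₁, fun r hr => ?_⟩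
  have hr₁0 : 0 ≤ r₁ := le_max_right _ _
  rcases le_total r₁ r with h1 | h1
  · refine (hr₀ r ((le_max_left _ _).trans h1)).trans (Real.exp_le_exp.2 ?_)
    have : 0 ≤ |A| + B * r₁ + |s| * r₁ := by positivity
    linarith
  · refine (hL.bound _).trans (Real.exp_le_exp.2 ?_)
    rw [ray_norm θ hr]
    have h2 : A ≤ |A| := le_abs_self A
    have h3 : B * r ≤ B * r₁ := mul_le_mul_of_nonneg_left h1 hB
    have h4 : -(|s| * r₁) ≤ s * r := by
      have h5 : |s * r| ≤ |s| * r₁ := by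
        rw [abs_mul, abs_of_nonneg hr]
        exact mul_le_mul_of_nonneg_left h1 (abs_nonneg s)
      linarith [neg_abs_le (s * r)]
    linarith

theorem RB.of_const {L : ℂ → ℂ} {θ s s' K : ℝ} (hs : s < s')
    (h : ∀ r, 0 ≤ r → ‖L (ray θ r)‖ ≤ Real.exp (K + s * r)) : RB L θ s' := by
  filter_upwards [eventually_ge_atTop 0, eventually_ge_atTop (|K| / (s' - s))] with r hr0 hr
  refine (h r hr0).trans (Real.exp_le_exp.2 ?_)
  have h1 : 0 < s' - s := by linarith
  rw [div_le_iff₀ h1] at hr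
  have := le_abs_self K
  nlinarith

/-- Phragmén–Lindelöf in a sector of opening one -/
theorem pl_sector {L : ℂ → ℂ} {A B : ℝ} (hL : ET L A B) (t : ℂ) (a K : ℝ)
    (h1 : ∀ r, 0 ≤ r → ‖L (ray a r)‖ ≤ Real.exp (K + (t * ray a r).re))
    (h2 : ∀ r, 0 ≤ r → ‖L (ray (a + 1) r)‖ ≤ Real.exp (K + (t * ray (a + 1) r).re))
    (θ : ℝ) (hθ1 : a ≤ θ) (hθ2 : θ ≤ a + 1) (r : ℝ) (hr : 0 < r) :
    ‖L (ray θ r)‖ ≤ Real.exp (K + (t * ray θ r).re) := by
  set f : ℂ → ℂ := fun ζ => L (exp ζ) * exp (-(t * exp ζ)) with hf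
  have hfd : Differentiable ℂ f := by
    apply Differentiable.mul
    · exact hL.diff.comp Complex.differentiable_exp
    · exact ((differentiable_const t).mul Complex.differentiable_exp).neg.cexp
  have hexp : ∀ (x y : ℝ), exp ((x:ℂ) + y * I) = ray y (Real.exp x) := by
    intro x y
    rw [Complex.exp_add, ray, Complex.ofReal_exp]
  have hdec : ∀ ζ : ℂ, exp ζ = ray ζ.im (Real.exp ζ.re) := by
    intro ζ
    rw [← hexp, Complex.re_add_im]
  have hfn : ∀ ζ : ℂ, ‖f ζ‖ = ‖L (exp ζ)‖ * Real.exp (-(t * exp ζ).re) := by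
    intro ζ
    simp only [hf]
    rw [norm_mul, Complex.norm_exp, Complex.neg_re]
  have hB := hL.B0
  have key := PhragmenLindelof.horizontal_strip (f := f) (a := a) (b := a + 1)
    (C := Real.exp K) (z := ((Real.log r : ℝ) : ℂ) + θ * I) hfd.diffContOnCl
    (by
      refine ⟨1, ?_, B + ‖t‖ + |A|, ?_⟩
      · rw [add_sub_cancel_left, div_one]; linarith [Real.pi_gt_three]
      · apply Asymptotics.IsBigO.of_bound 1
        apply Eventually.of_forall
        intro ζ
        rw [one_mul, one_mul, hfn, Real.norm_eq_abs, abs_of_pos (Real.exp_pos _)]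
        have hn : ‖exp ζ‖ ≤ Real.exp |ζ.re| := by
          rw [Complex.norm_exp]; exact Real.exp_le_exp.2 (le_abs_self _)
        have h1e : 1 ≤ Real.exp |ζ.re| := Real.one_le_exp (abs_nonneg _)
        calc ‖L (exp ζ)‖ * Real.exp (-(t * exp ζ).re) ≤
              Real.exp (A + B * ‖exp ζ‖) * Real.exp (‖t‖ * ‖exp ζ‖) := by
              apply mul_le_mul (hL.bound _) _ (Real.exp_pos _).le (Real.exp_pos _).le
              apply Real.exp_le_exp.2
              rw [← norm_mul]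
              have := Complex.abs_re_le_norm (t * exp ζ)
              have := neg_abs_le (t * exp ζ).re
              linarith
          _ = Real.exp (A + (B + ‖t‖) * ‖exp ζ‖) := by
              rw [← Real.exp_add]; congr 1; ring
          _ ≤ _ := by
              apply Real.exp_le_exp.2
              have h3 : (B + ‖t‖) * ‖exp ζ‖ ≤ (B + ‖t‖) * Real.exp |ζ.re| :=
                mul_le_mul_of_nonneg_left hn (by positivity)
              have h4 : A ≤ |A| * Real.exp |ζ.re| := by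
                have := le_abs_self A
                nlinarith [abs_nonneg A]
              linarith)
    (by
      intro ζ hζ
      rw [hfn, hdec ζ, hζ]
      have := h1 (Real.exp ζ.re) (Real.exp_pos _).le
      calc _ ≤ Real.exp (K + (t * ray a (Real.exp ζ.re)).re) *
            Real.exp (-(t * ray a (Real.exp ζ.re)).re) :=
            mul_le_mul_of_nonneg_right this (Real.exp_pos _).le
        _ = Real.exp K := by rw [← Real.exp_add]; congr 1; ring)
    (by
      intro ζ hζ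
      rw [hfn, hdec ζ, hζ]
      have := h2 (Real.exp ζ.re) (Real.exp_pos _).le
      calc _ ≤ Real.exp (K + (t * ray (a + 1) (Real.exp ζ.re)).re) *
            Real.exp (-(t * ray (a + 1) (Real.exp ζ.re)).re) :=
            mul_le_mul_of_nonneg_right this (Real.exp_pos _).le
        _ = Real.exp K := by rw [← Real.exp_add]; congr 1; ring)
    (by simpa using hθ1) (by simpa using hθ2)
  rw [hfn, hexp, Real.exp_log hr] at key
  have h3 : ‖L (ray θ r)‖ = (‖L (ray θ r)‖ * Real.exp (-(t * ray θ r).re)) *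
      Real.exp ((t * ray θ r).re) := by
    rw [mul_assoc, ← Real.exp_add]; simp
  rw [h3, Real.exp_add]
  exact mul_le_mul_of_nonneg_right key (Real.exp_pos _).le

/-- real part of a linear function on a ray -/
theorem re_ray (α β θ₀ θ r : ℝ) :
    ((((α:ℂ) - β * I) * exp (-(θ₀ * I))) * ray θ r).re =
      r * (α * Real.cos (θ - θ₀) + β * Real.sin (θ - θ₀)) := by
  have e : (((α:ℂ) - β * I) * exp (-(θ₀ * I))) * ray θ r =
      (r : ℂ) * (((α:ℂ) - β * I) * exp (((θ - θ₀ : ℝ) : ℂ) * I)) := by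
    unfold ray
    rw [show exp (((θ - θ₀ : ℝ) : ℂ) * I) = exp (-(θ₀ * I)) * exp (θ * I) by
      rw [← Complex.exp_add]; congr 1; push_cast; ring]
    ring
  have e2 : exp (((θ - θ₀ : ℝ) : ℂ) * I) =
      ((Real.cos (θ - θ₀) : ℝ) : ℂ) + ((Real.sin (θ - θ₀) : ℝ) : ℂ) * I := by
    rw [Complex.exp_mul_I, Complex.ofReal_cos, Complex.ofReal_sin]
  rw [e, Complex.re_ofReal_mul, e2]
  generalize Real.cos (θ - θ₀) = c
  generalize Real.sin (θ - θ₀) = d
  congr 1
  simp

/-- constants -/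
theorem sin_one_pos : 0 < Real.sin 1 := Real.sin_pos_of_pos_of_lt_pi one_pos (by
  linarith [Real.pi_gt_three])

/-- the sector estimate: a ray bound propagates to nearby rays -/
theorem sector_bound {L : ℂ → ℂ} {A B : ℝ} (hL : ET L A B) {B₁ : ℝ}
    (hall : ∀ θ, RB L θ B₁) {θ₀ s : ℝ} (hs0 : 0 ≤ s) (hs1 : s ≤ B₁) (h : RB L θ₀ s) :
    ∃ K : ℝ, ∀ θ, |θ - θ₀| ≤ 1 → ∀ r, 0 < r →
      ‖L (ray θ r)‖ ≤ Real.exp (K + (s + B₁ / Real.sin 1 * |θ - θ₀|) * r) := by
  obtain ⟨K₀, hK₀⟩ := h.const hL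
  obtain ⟨K₁, hK₁⟩ := (hall (θ₀ + 1)).const hL
  obtain ⟨K₂, hK₂⟩ := (hall (θ₀ - 1)).const hL
  have hsin := sin_one_pos
  have hcos : 0 ≤ Real.cos 1 := (Real.cos_one_pos).le
  have hcos1 : Real.cos 1 ≤ 1 := Real.cos_le_one 1
  set β : ℝ := (B₁ - s * Real.cos 1) / Real.sin 1 with hβ
  have hβ0 : 0 ≤ β := by
    apply div_nonneg _ hsin.le
    nlinarith
  have hβ1 : β ≤ B₁ / Real.sin 1 := by
    apply div_le_div_of_nonneg_right _ hsin.le
    nlinarith
  have hβe : s * Real.cos 1 + β * Real.sin 1 = B₁ := by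
    rw [hβ]; field_simp; ring
  set K := max K₀ (max K₁ K₂) with hK
  have hKK₀ : K₀ ≤ K := le_max_left _ _
  have hKK₁ : K₁ ≤ K := (le_max_left _ _).trans (le_max_right _ _)
  have hKK₂ : K₂ ≤ K := (le_max_right _ _).trans (le_max_right _ _)
  refine ⟨K, fun θ hθ r hr => ?_⟩
  rcases le_total θ₀ θ with h0 | h0
  · have hx : |θ - θ₀| = θ - θ₀ := abs_of_nonneg (by linarith)
    rw [hx] at hθ ⊢
    have := pl_sector hL (((s:ℂ) - β * I) * exp (-(θ₀ * I))) θ₀ K
      (fun r hr => by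
        refine (hK₀ r hr).trans (Real.exp_le_exp.2 ?_)
        rw [re_ray, sub_self, Real.cos_zero, Real.sin_zero]
        linarith)
      (fun r hr => by
        refine (hK₁ r hr).trans (Real.exp_le_exp.2 ?_)
        rw [re_ray, add_sub_cancel_left, hβe]
        linarith) θ h0 (by linarith) r hr
    refine this.trans (Real.exp_le_exp.2 ?_)
    rw [re_ray]
    have h1 : s * Real.cos (θ - θ₀) ≤ s := by
      have := Real.cos_le_one (θ - θ₀); nlinarith
    have h2 : β * Real.sin (θ - θ₀) ≤ B₁ / Real.sin 1 * (θ - θ₀) := by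
      have h3 := Real.sin_le (x := θ - θ₀) (by linarith)
      calc β * Real.sin (θ - θ₀) ≤ β * (θ - θ₀) := mul_le_mul_of_nonneg_left h3 hβ0
        _ ≤ _ := mul_le_mul_of_nonneg_right hβ1 (by linarith)
    nlinarith
  · have hx : |θ - θ₀| = θ₀ - θ := by rw [abs_of_nonpos (by linarith)]; ring
    rw [hx] at hθ ⊢
    have := pl_sector hL (((s:ℂ) - ((-β : ℝ) : ℂ) * I) * exp (-(θ₀ * I))) (θ₀ - 1) K
      (fun r hr => by
        refine (hK₂ r hr).trans (Real.exp_le_exp.2 ?_)
        rw [re_ray]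
        have e : θ₀ - 1 - θ₀ = -1 := by ring
        rw [e, Real.cos_neg, Real.sin_neg]
        have e2 : s * Real.cos 1 + -β * -Real.sin 1 = B₁ := by linarith
        rw [e2]
        linarith)
      (fun r hr => by
        rw [sub_add_cancel]
        refine (hK₀ r hr).trans (Real.exp_le_exp.2 ?_)
        rw [re_ray, sub_self, Real.cos_zero, Real.sin_zero]
        linarith) θ (by linarith) (by linarith) r hr
    refine this.trans (Real.exp_le_exp.2 ?_)
    rw [re_ray]
    have e3 : θ - θ₀ = -(θ₀ - θ) := by ring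
    rw [e3, Real.cos_neg, Real.sin_neg]
    have h1 : s * Real.cos (θ₀ - θ) ≤ s := by
      have := Real.cos_le_one (θ₀ - θ); nlinarith
    have h2 : β * Real.sin (θ₀ - θ) ≤ B₁ / Real.sin 1 * (θ₀ - θ) := by
      have h3 := Real.sin_le (x := θ₀ - θ) (by linarith)
      calc β * Real.sin (θ₀ - θ) ≤ β * (θ₀ - θ) := mul_le_mul_of_nonneg_left h3 hβ0
        _ ≤ _ := mul_le_mul_of_nonneg_right hβ1 (by linarith)
    nlinarith

end H1R3.Z
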