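import Pool.Agent.H1R3.Z.Wirt
set_option autoImplicit false
open MeasureTheory Set Filter Topology

namespace H1R3.Z

/-- the cut-off profile -/
noncomputable def psi (x : ℝ) : ℝ := max 0 (min 1 x)

theorem psi_cont : Continuous psi := continuous_const.max (continuous_const.min continuous_id)
theorem psi_nonneg (x : ℝ) : 0 ≤ psi x := le_max_left _ _
theorem psi_le_one (x : ℝ) : psi x ≤ 1 := max_le zero_le_one (min_le_left _ _)
theorem psi_zero {x : ℝ} (h : x ≤ 0) : psi x = 0 :=
  max_eq_left ((min_le_right _ _).trans h)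
theorem psi_one {x : ℝ} (h : 1 ≤ x) : psi x = 1 := by
  unfold psi; rw [min_eq_left h]; exact max_eq_right zero_le_one
theorem psi_mono : Monotone psi := fun _ _ h => max_le_max le_rfl (min_le_min le_rfl h)
theorem psi_pos {x : ℝ} (h : 0 < x) : 0 < psi x :=
  lt_max_of_lt_right (lt_min one_pos h)

/-- primitive of `psi` -/
noncomputable def chi (x : ℝ) : ℝ := ∫ y in (0:ℝ)..x, psi y
/-- primitive of the square of `psi` -/
noncomputable def KK (x : ℝ) : ℝ := ∫ y in (0:ℝ)..x, psi y ^ 2
/-- twice the primitive of `KK` -/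
noncomputable def Xi (x : ℝ) : ℝ := ∫ y in (0:ℝ)..x, 2 * KK y

theorem chi_deriv (x : ℝ) : HasDerivAt chi (psi x) x :=
  intervalIntegral.integral_hasDerivAt_right (psi_cont.intervalIntegrable _ _)
    psi_cont.stronglyMeasurable.stronglyMeasurableAtFilter psi_cont.continuousAt

theorem KK_deriv (x : ℝ) : HasDerivAt KK (psi x ^ 2) x :=
  intervalIntegral.integral_hasDerivAt_right ((psi_cont.pow 2).intervalIntegrable _ _)
    (psi_cont.pow 2).stronglyMeasurable.stronglyMeasurableAtFilter (psi_cont.pow 2).continuousAt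

theorem KK_cont : Continuous KK := continuous_iff_continuousAt.2 fun x => (KK_deriv x).continuousAt
theorem chi_cont : Continuous chi :=
  continuous_iff_continuousAt.2 fun x => (chi_deriv x).continuousAt

theorem Xi_deriv (x : ℝ) : HasDerivAt Xi (2 * KK x) x := by
  have hc : Continuous fun y => 2 * KK y := continuous_const.mul KK_cont
  exact intervalIntegral.integral_hasDerivAt_right (hc.intervalIntegrable _ _)
    hc.stronglyMeasurable.stronglyMeasurableAtFilter hc.continuousAt

theorem Xi_cont : Continuous Xi :=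
  continuous_iff_continuousAt.2 fun x => (Xi_deriv x).continuousAt

theorem int_zero_of_neg {q : ℝ → ℝ} (hq : ∀ x ≤ 0, q x = 0) {x : ℝ} (h : x ≤ 0) :
    ∫ y in (0:ℝ)..x, q y = 0 := by
  rw [intervalIntegral.integral_symm]
  have : ∫ y in x..0, q y = ∫ y in x..0, (0:ℝ) := by
    apply intervalIntegral.integral_congr
    intro y hy
    rw [uIcc_of_le h] at hy
    exact hq y hy.2
  rw [this]; simp

theorem chi_zero {x : ℝ} (h : x ≤ 0) : chi x = 0 := int_zero_of_neg (fun _ => psi_zero) h
theorem KK_zero {x : ℝ} (h : x ≤ 0) : KK x = 0 :=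
  int_zero_of_neg (fun y hy => by rw [psi_zero hy]; norm_num) h
theorem Xi_zero {x : ℝ} (h : x ≤ 0) : Xi x = 0 :=
  int_zero_of_neg (fun y hy => by rw [KK_zero hy]; norm_num) h

theorem KK_nonneg (x : ℝ) : 0 ≤ KK x := by
  rcases le_total x 0 with h | h
  · rw [KK_zero h]
  · exact intervalIntegral.integral_nonneg h fun y _ => sq_nonneg _

theorem chi_nonneg (x : ℝ) : 0 ≤ chi x := by
  rcases le_total x 0 with h | h
  · rw [chi_zero h]
  · exact intervalIntegral.integral_nonneg h fun y _ => psi_nonneg _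

theorem KK_le (x : ℝ) : KK x ≤ psi x * chi x := by
  rcases le_total x 0 with h | h
  · rw [KK_zero h, chi_zero h]; simp
  · unfold KK chi
    rw [← intervalIntegral.integral_const_mul]
    apply intervalIntegral.integral_mono_on h
    · exact (psi_cont.pow 2).intervalIntegrable _ _
    · exact (continuous_const.mul psi_cont).intervalIntegrable _ _
    · intro y hy
      rw [sq]
      exact mul_le_mul_of_nonneg_right (psi_mono hy.2) (psi_nonneg _)

theorem KK_le_self {x : ℝ} (h : 0 ≤ x) : KK x ≤ x := by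
  have h1 : KK x ≤ ∫ y in (0:ℝ)..x, (1:ℝ) := by
    unfold KK
    apply intervalIntegral.integral_mono_on h ((psi_cont.pow 2).intervalIntegrable _ _)
      (intervalIntegrable_const)
    intro y _
    have h3 := psi_nonneg y
    have h4 := psi_le_one y
    show psi y ^ 2 ≤ 1
    nlinarith
  simpa using h1

theorem Xi_nonneg (x : ℝ) : 0 ≤ Xi x := by
  rcases le_total x 0 with h | h
  · rw [Xi_zero h]
  · exact intervalIntegral.integral_nonneg h fun y _ => mul_nonneg zero_le_two (KK_nonneg _)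

theorem Xi_le {x : ℝ} (h : 0 ≤ x) : Xi x ≤ x ^ 2 := by
  have h1 : Xi x ≤ ∫ y in (0:ℝ)..x, 2 * y := by
    unfold Xi
    apply intervalIntegral.integral_mono_on h
      ((continuous_const.mul KK_cont).intervalIntegrable _ _)
      ((continuous_const.mul continuous_id).intervalIntegrable _ _)
    intro y hy
    have h3 := KK_le_self hy.1
    show 2 * KK y ≤ 2 * y
    linarith
  have h2 : ∫ y in (0:ℝ)..x, 2 * y = x ^ 2 := by
    rw [intervalIntegral.integral_const_mul, integral_id]; ring
  linarith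

theorem Xi_le_of_le {x B : ℝ} (h : x ≤ B) : Xi x ≤ B ^ 2 := by
  rcases le_total x 0 with h0 | h0
  · rw [Xi_zero h0]; positivity
  · exact (Xi_le h0).trans (pow_le_pow_left₀ h0 h 2)

theorem chi_ne_zero {x : ℝ} : chi x ≠ 0 ↔ 0 < x := by
  constructor
  · intro h
    by_contra h2
    exact h (chi_zero (not_lt.1 h2))
  · intro h
    have hs : StrictMonoOn chi (Icc 0 x) := by
      apply strictMonoOn_of_deriv_pos (convex_Icc 0 x) chi_cont.continuousOn
      intro y hy
      rw [interior_Icc] at hy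
      rw [(chi_deriv y).deriv]
      exact psi_pos hy.1
    have h1 := hs ⟨le_rfl, h.le⟩ ⟨h.le, le_rfl⟩ h
    rw [chi_zero le_rfl] at h1
    exact h1.ne'

/-- continuity of cut-off log-functions -/
theorem cutoff_cont {q : ℝ → ℝ} (hq : Continuous q) (h0 : ∀ x ≤ 0, q x = 0) :
    Continuous fun w : ℂ => (q (Real.log ‖w‖) : ℂ) * w⁻¹ := by
  rw [continuous_iff_continuousAt]
  intro w
  by_cases hw : w = 0
  · have : (fun w : ℂ => (q (Real.log ‖w‖) : ℂ) * w⁻¹) =ᶠ[𝓝 w] fun _ => 0 := by
      have hb : Metric.ball w 1 ∈ 𝓝 w := Metric.ball_mem_nhds _ one_pos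
      filter_upwards [hb] with z hz
      rw [hw, mem_ball_zero_iff] at hz
      rw [h0 _ (Real.log_nonpos (norm_nonneg _) hz.le)]; simp
    exact continuousAt_const.congr this.symm
  · apply ContinuousAt.mul
    · apply Complex.continuous_ofReal.continuousAt.comp
      apply hq.continuousAt.comp
      exact (Real.continuousAt_log (norm_ne_zero_iff.2 hw)).comp continuous_norm.continuousAt
    · exact continuousAt_inv₀ hw

theorem cutoff_cont' {q : ℝ → ℝ} (hq : Continuous q) (h0 : ∀ x ≤ 0, q x = 0) :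
    Continuous fun w : ℂ => q (Real.log ‖w‖) := by
  rw [continuous_iff_continuousAt]
  intro w
  by_cases hw : w = 0
  · have : (fun w : ℂ => q (Real.log ‖w‖)) =ᶠ[𝓝 w] fun _ => 0 := by
      have hb : Metric.ball w 1 ∈ 𝓝 w := Metric.ball_mem_nhds _ one_pos
      filter_upwards [hb] with z hz
      rw [hw, mem_ball_zero_iff] at hz
      rw [h0 _ (Real.log_nonpos (norm_nonneg _) hz.le)]
    exact continuousAt_const.congr this.symm
  · apply hq.continuousAt.comp
    exact (Real.continuousAt_log (norm_ne_zero_iff.2 hw)).comp continuous_norm.continuousAt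

/-- the real derivative functional -/
noncomputable def DD (c : ℝ) (w : ℂ) : ℂ →L[ℝ] ℝ :=
  c • (Complex.reCLM.comp ((ContinuousLinearMap.mul ℝ ℂ) w⁻¹))

theorem DD_apply (c : ℝ) (w v : ℂ) : DD c w v = c * (w⁻¹ * v).re := by
  simp [DD]

theorem log_norm_fderiv {w : ℂ} (hw : w ≠ 0) :
    HasFDerivAt (fun z : ℂ => Real.log ‖z‖) (DD 1 w) w := by
  have h1 : HasFDerivAt (fun z : ℂ => ‖z‖ ^ 2) (2 • (innerSL ℝ w)) w :=
    (hasStrictFDerivAt_norm_sq w).hasFDerivAt
  have hne : ‖w‖ ^ 2 ≠ 0 := pow_ne_zero 2 (norm_ne_zero_iff.2 hw)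
  have h2 := (h1.log hne).const_mul (1/2 : ℝ)
  have h3 : (fun z : ℂ => Real.log ‖z‖) = fun z : ℂ => (1/2:ℝ) * Real.log (‖z‖ ^ 2) := by
    funext z
    rw [Real.log_pow]; push_cast; ring
  rw [h3]
  refine h2.congr_fderiv ?_
  ext v
  simp [DD, Complex.inner, Complex.sq_norm, Complex.normSq_apply]
  field_simp
  rw [sub_neg_eq_add]

theorem cutoff_fderiv {P p : ℝ → ℝ} (hP : ∀ x, HasDerivAt P (p x) x) (h0 : ∀ x ≤ 0, P x = 0)
    (w : ℂ) :
    HasFDerivAt (fun z : ℂ => P (Real.log ‖z‖)) (DD (p (Real.log ‖w‖)) w) w := by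
  by_cases hw : w = 0
  · have : (fun w : ℂ => P (Real.log ‖w‖)) =ᶠ[𝓝 w] fun _ => 0 := by
      have hb : Metric.ball w 1 ∈ 𝓝 w := Metric.ball_mem_nhds _ one_pos
      filter_upwards [hb] with z hz
      rw [hw, mem_ball_zero_iff] at hz
      rw [h0 _ (Real.log_nonpos (norm_nonneg _) hz.le)]
    have h1 : DD (p (Real.log ‖w‖)) w = 0 := by
      rw [hw]; simp [DD]
    rw [h1]
    exact (hasFDerivAt_const (0:ℝ) w).congr_of_eventuallyEq this
  · have h2 := (hP (Real.log ‖w‖)).comp_hasFDerivAt w (log_norm_fderiv hw)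
    refine h2.congr_fderiv ?_
    ext v
    simp [DD]

end H1R3.Z
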