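import Mathlib
set_option autoImplicit false
open MeasureTheory Set Filter Topology

namespace H1R3.Z

/-- indicator of the set where `f` does not vanish -/
noncomputable def ind (f : ℝ → ℝ) : ℝ → ℝ := Set.indicator {x | f x ≠ 0} (fun _ => 1)

theorem ind_nonneg (f : ℝ → ℝ) (x : ℝ) : 0 ≤ ind f x := by
  unfold ind; exact Set.indicator_nonneg (fun _ _ => zero_le_one) _

theorem ind_le_one (f : ℝ → ℝ) (x : ℝ) : ind f x ≤ 1 := by
  unfold ind
  by_cases h : x ∈ {x | f x ≠ 0}
  · rw [Set.indicator_of_mem h]
  · rw [Set.indicator_of_notMem h]; exact zero_le_one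

theorem ind_of_ne {f : ℝ → ℝ} {x : ℝ} (h : f x ≠ 0) : ind f x = 1 := by
  unfold ind; exact Set.indicator_of_mem h _

theorem ind_meas {f : ℝ → ℝ} (hf : Continuous f) : Measurable (ind f) := by
  unfold ind
  exact measurable_const.indicator (isOpen_ne_fun hf continuous_const).measurableSet

theorem ind_int {f : ℝ → ℝ} (hf : Continuous f) (a b : ℝ) :
    IntervalIntegrable (ind f) volume a b := by
  refine (intervalIntegrable_const (c := (1:ℝ)) (μ := volume) (a := a) (b := b)).mono_fun
    (ind_meas hf).aestronglyMeasurable (Eventually.of_forall fun x => ?_)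
  show |ind f x| ≤ |(1:ℝ)|
  rw [abs_of_nonneg (ind_nonneg f x), abs_one]
  exact ind_le_one f x

theorem wirt (f f' : ℝ → ℝ) (a b : ℝ) (hab : a ≤ b) (hf : ∀ x, HasDerivAt f (f' x) x)
    (hc : Continuous f') (ha : f a = 0) (hb : f b = 0) :
    Real.pi ^ 2 * ∫ x in a..b, f x ^ 2 ≤
      (∫ x in a..b, ind f x) ^ 2 * ∫ x in a..b, f' x ^ 2 := by
  have hfc : Continuous f := continuous_iff_continuousAt.2 fun x => (hf x).continuousAt
  set m : ℝ := ∫ x in a..b, ind f x with hm
  have hm0 : 0 ≤ m := intervalIntegral.integral_nonneg hab fun x _ => ind_nonneg f x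
  have key : ∀ η : ℝ, 0 < η → Real.pi ^ 2 * ∫ x in a..b, f x ^ 2 ≤
      (m + 2 * η) ^ 2 * ∫ x in a..b, f' x ^ 2 := by
    intro η hη
    set κ : ℝ := Real.pi / (m + 2 * η) with hκ
    have hden : 0 < m + 2 * η := by linarith
    have hκ0 : 0 < κ := div_pos Real.pi_pos hden
    set τ : ℝ → ℝ := fun x => ∫ y in a..x, ind f y with hτ
    have hτc : Continuous τ :=
      intervalIntegral.continuous_primitive (fun u v => ind_int hfc u v) a
    have hτ0 : ∀ x ∈ Icc a b, 0 ≤ τ x := fun x hx =>
      intervalIntegral.integral_nonneg hx.1 fun y _ => ind_nonneg f y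
    have hτm : ∀ x ∈ Icc a b, τ x ≤ m := by
      intro x hx
      have := intervalIntegral.integral_add_adjacent_intervals (ind_int hfc a x) (ind_int hfc x b)
      have h2 : 0 ≤ ∫ y in x..b, ind f y :=
        intervalIntegral.integral_nonneg hx.2 fun y _ => ind_nonneg f y
      simp only [hτ, hm]; linarith
    set th : ℝ → ℝ := fun x => κ * (τ x + η) with hth
    have hsin : ∀ x ∈ Icc a b, 0 < Real.sin (th x) := by
      intro x hx
      apply Real.sin_pos_of_pos_of_lt_pi
      · exact mul_pos hκ0 (by linarith [hτ0 x hx])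
      · calc κ * (τ x + η) < κ * (m + 2 * η) := by
              apply mul_lt_mul_of_pos_left _ hκ0; linarith [hτm x hx]
          _ = Real.pi := by rw [hκ]; field_simp
    have hthc : Continuous th := continuous_const.mul (hτc.add continuous_const)
    set φ : ℝ → ℝ := fun x => κ * (Real.cos (th x) / Real.sin (th x)) with hφ
    set F : ℝ → ℝ := fun x => f x ^ 2 * φ x with hF
    set F' : ℝ → ℝ := fun x => 2 * f x * f' x * φ x - f x ^ 2 * (κ ^ 2 / Real.sin (th x) ^ 2)
      with hF'
    have hφc : ∀ x ∈ Icc a b, ContinuousAt φ x := by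
      intro x hx
      apply ContinuousAt.mul continuousAt_const
      apply ContinuousAt.div
      · exact (Real.continuous_cos.comp hthc).continuousAt
      · exact (Real.continuous_sin.comp hthc).continuousAt
      · exact (hsin x hx).ne'
    have hderiv : ∀ x ∈ uIcc a b, HasDerivAt F (F' x) x := by
      intro x hx
      rw [uIcc_of_le hab] at hx
      by_cases h0 : f x = 0
      · have hd2 : HasDerivAt (fun y => f y ^ 2) 0 x := by
          have h9 : HasDerivAt (fun y => f y ^ 2) (((2:ℕ):ℝ) * f x ^ (2 - 1) * f' x) x := (hf x).pow 2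
          refine h9.congr_deriv ?_
          simp [h0]
        have hz : F' x = 0 := by simp [hF', h0]
        rw [hz, hasDerivAt_iff_isLittleO]
        rw [hasDerivAt_iff_isLittleO] at hd2
        have h1 : (fun y => f y ^ 2) =o[𝓝 x] fun y => y - x := by
          simpa [h0] using hd2
        have h2 : φ =O[𝓝 x] (fun _ => (1:ℝ)) := (hφc x hx).isBigO_one ℝ
        have h3 := h1.mul_isBigO h2
        simpa [hF, h0] using h3
      · have hτd : HasDerivAt τ 1 x := by
          have hcont : ContinuousAt (ind f) x := by
            have : (ind f) =ᶠ[𝓝 x] fun _ => (1:ℝ) := by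
              have ho : {y | f y ≠ 0} ∈ 𝓝 x := (isOpen_ne_fun hfc continuous_const).mem_nhds h0
              filter_upwards [ho] with y hy
              exact ind_of_ne hy
            exact continuousAt_const.congr this.symm
          have := intervalIntegral.integral_hasDerivAt_right (ind_int hfc a x)
            (ind_meas hfc).stronglyMeasurable.stronglyMeasurableAtFilter hcont
          rwa [ind_of_ne h0] at this
        have hthd : HasDerivAt th κ x := by
          have := (hτd.add_const η).const_mul κ
          simpa [hth] using this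
        have hs := (hsin x hx).ne'
        have hφd : HasDerivAt φ (-(κ ^ 2 / Real.sin (th x) ^ 2)) x := by
          have h1 := ((hthd.cos).div (hthd.sin) hs).const_mul κ
          refine h1.congr_deriv ?_
          have hcs := Real.sin_sq_add_cos_sq (th x)
          rw [← mul_div_assoc, ← neg_div]
          congr 1
          nlinarith [hcs]
        have hfd := ((hf x).pow 2).mul hφd
        refine hfd.congr_deriv ?_
        simp only [hF', Pi.pow_apply]
        push_cast
        ring
    have hF'c : ContinuousOn F' (uIcc a b) := by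
      intro x hx
      rw [uIcc_of_le hab] at hx
      apply ContinuousAt.continuousWithinAt
      apply ContinuousAt.sub
      · exact ((continuousAt_const.mul hfc.continuousAt).mul hc.continuousAt).mul (hφc x hx)
      · refine (hfc.continuousAt.pow 2).mul (ContinuousAt.div continuousAt_const ?_ ?_)
        · exact ((Real.continuous_sin.comp hthc).pow 2).continuousAt
        · exact pow_ne_zero 2 (hsin x hx).ne'
    have hint := intervalIntegral.integral_eq_sub_of_hasDerivAt hderiv hF'c.intervalIntegrable
    have hz : F b - F a = 0 := by simp [hF, ha, hb]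
    rw [hz] at hint
    have hle : ∫ x in a..b, F' x ≤ ∫ x in a..b, (f' x ^ 2 - κ ^ 2 * f x ^ 2) := by
      apply intervalIntegral.integral_mono_on hab hF'c.intervalIntegrable
      · exact (Continuous.intervalIntegrable (by fun_prop) _ _)
      · intro x hx
        have hs := (hsin x hx).ne'
        have hcs := Real.sin_sq_add_cos_sq (th x)
        have h1 : κ ^ 2 / Real.sin (th x) ^ 2 = κ ^ 2 + φ x ^ 2 := by
          simp only [hφ]
          field_simp
          nlinarith [hcs]
        simp only [hF']
        rw [h1]
        nlinarith [sq_nonneg (f' x - f x * φ x)]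
    rw [hint, intervalIntegral.integral_sub (Continuous.intervalIntegrable (by fun_prop) _ _)
      (Continuous.intervalIntegrable (by fun_prop) _ _),
      intervalIntegral.integral_const_mul] at hle
    have h4 : (m + 2 * η) ^ 2 * κ ^ 2 = Real.pi ^ 2 := by
      rw [hκ]; field_simp
    have h5 : 0 ≤ (m + 2 * η) ^ 2 := sq_nonneg _
    have h7 := mul_nonneg h5 hle
    have h6 : (m + 2 * η) ^ 2 * ((∫ x in a..b, f' x ^ 2) - κ ^ 2 * ∫ x in a..b, f x ^ 2)
        = (m + 2 * η) ^ 2 * (∫ x in a..b, f' x ^ 2) - Real.pi ^ 2 * ∫ x in a..b, f x ^ 2 := by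
      rw [← h4]; ring
    rw [h6] at h7
    linarith
  have ht : Tendsto (fun η : ℝ => (m + 2 * η) ^ 2 * ∫ x in a..b, f' x ^ 2) (𝓝[>] 0)
      (𝓝 ((m + 2 * 0) ^ 2 * ∫ x in a..b, f' x ^ 2)) := by
    apply Tendsto.mono_left _ nhdsWithin_le_nhds
    exact ((continuous_const.add (continuous_const.mul continuous_id)).pow 2
      |>.mul continuous_const).tendsto 0
  have := ge_of_tendsto ht (eventually_nhdsWithin_of_forall fun η hη => key η hη)
  simpa using this

end H1R3.Z
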